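import Mathlib

/-!
Sums over primes: `∑ p^{-s} ≥ log (1 / (s - 1)) - O(1)`, and the passage from bounds for
multiplicative functions in short intervals to sums over primes.
-/

set_option autoImplicit false

namespace Pool.Agent.RS

open Filter Topology

theorem pow_tele {s : ℝ} (hs : 1 < s) (n : ℕ) :
    (((n : ℝ) + 1) ^ (1 - s) - ((n : ℝ) + 2) ^ (1 - s)) / (s - 1) ≤ ((n : ℝ) + 1) ^ (-s) := by
  set x : ℝ := (n : ℝ) + 1 with hx
  have hx0 : 0 < x := by positivity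
  have e2 : (n : ℝ) + 2 = x * (1 + 1 / x) := by
    rw [hx]; field_simp; ring
  rw [e2, Real.mul_rpow hx0.le (by positivity)]
  have h1 : 1 - (s - 1) / x ≤ (1 + 1 / x) ^ (1 - s) := by
    rw [Real.rpow_def_of_pos (by positivity)]
    have h2 : Real.log (1 + 1 / x) ≤ 1 / x := by
      have := Real.log_le_sub_one_of_pos (show 0 < 1 + 1 / x by positivity)
      linarith
    have h3 : Real.log (1 + 1 / x) * (1 - s) + 1 ≤ Real.exp (Real.log (1 + 1 / x) * (1 - s)) :=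
      Real.add_one_le_exp _
    have h4 : (s - 1) * Real.log (1 + 1 / x) ≤ (s - 1) * (1 / x) :=
      mul_le_mul_of_nonneg_left h2 (by linarith)
    have h5 : (s - 1) * (1 / x) = (s - 1) / x := by ring
    nlinarith
  have h6 : x ^ (1 - s) = x * x ^ (-s) := by
    rw [sub_eq_add_neg, Real.rpow_add hx0, Real.rpow_one]
  rw [div_le_iff₀ (by linarith)]
  have h7 : 0 < x ^ (1 - s) := Real.rpow_pos_of_pos hx0 _
  have h8 : x ^ (1 - s) * (1 - (s - 1) / x) ≤ x ^ (1 - s) * (1 + 1 / x) ^ (1 - s) :=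
    mul_le_mul_of_nonneg_left h1 h7.le
  have h9 : x ^ (1 - s) * ((s - 1) / x) = x ^ (-s) * (s - 1) := by
    rw [h6]; field_simp
  nlinarith

theorem zeta_ge {s : ℝ} (hs : 1 < s) : 1 / (s - 1) ≤ ∑' n : ℕ, (n : ℝ) ^ (-s) := by
  have hsum : Summable fun n : ℕ => (n : ℝ) ^ (-s) := Real.summable_nat_rpow.2 (by linarith)
  have h1 : ∀ N : ℕ, (1 - ((N : ℝ) + 1) ^ (1 - s)) / (s - 1) ≤ ∑' n : ℕ, (n : ℝ) ^ (-s) := by
    intro N
    have h2 : (1 - ((N : ℝ) + 1) ^ (1 - s)) / (s - 1) ≤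
        ∑ n ∈ Finset.range N, ((n : ℝ) + 1) ^ (-s) := by
      induction N with
      | zero => simp
      | succ N ih =>
        rw [Finset.sum_range_succ]
        have h3 := pow_tele hs N
        have e : (((N + 1 : ℕ) : ℝ) + 1) = (N : ℝ) + 2 := by push_cast; ring
        rw [e]
        have e2 : (1 - ((N : ℝ) + 2) ^ (1 - s)) / (s - 1) =
            (1 - ((N : ℝ) + 1) ^ (1 - s)) / (s - 1) +
              (((N : ℝ) + 1) ^ (1 - s) - ((N : ℝ) + 2) ^ (1 - s)) / (s - 1) := by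
          ring
        rw [e2]
        linarith
    refine h2.trans ?_
    have h4 : ∑ n ∈ Finset.range N, ((n : ℝ) + 1) ^ (-s) ≤
        ∑ n ∈ Finset.range (N + 1), (n : ℝ) ^ (-s) := by
      rw [Finset.sum_range_succ']
      simp only [Nat.cast_zero]
      have : (0 : ℝ) ≤ (0 : ℝ) ^ (-s) := Real.rpow_nonneg le_rfl _
      have e : ∀ n : ℕ, ((n : ℝ) + 1) ^ (-s) = ((n + 1 : ℕ) : ℝ) ^ (-s) := by
        intro n; push_cast; rfl
      simp only [e]
      linarith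
    exact h4.trans (hsum.sum_le_tsum _ (fun n _ => Real.rpow_nonneg (Nat.cast_nonneg n) _))
  have h5 : Tendsto (fun N : ℕ => (1 - ((N : ℝ) + 1) ^ (1 - s)) / (s - 1)) atTop
      (𝓝 ((1 - 0) / (s - 1))) := by
    apply Tendsto.div_const
    apply Tendsto.const_sub
    have h6 : Tendsto (fun x : ℝ => x ^ (-(s - 1))) atTop (𝓝 0) :=
      tendsto_rpow_neg_atTop (by linarith)
    have h7 : Tendsto (fun N : ℕ => (N : ℝ) + 1) atTop atTop :=
      tendsto_atTop_add_const_right _ _ tendsto_natCast_atTop_atTop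
    have h8 := h6.comp h7
    refine h8.congr fun N => ?_
    simp only [Function.comp]
    congr 1
    ring
  rw [sub_zero] at h5
  exact le_of_tendsto' h5 h1

/-- `n ↦ n ^ (-s)` as a multiplicative function -/
noncomputable def npow (s : ℝ) (hs : 1 < s) : ℕ →*₀ ℝ where
  toFun n := (n : ℝ) ^ (-s)
  map_zero' := by
    rw [Nat.cast_zero, Real.zero_rpow (by linarith)]
  map_one' := by simp
  map_mul' m n := by
    push_cast
    exact Real.mul_rpow (Nat.cast_nonneg m) (Nat.cast_nonneg n)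

theorem summable_primes {s : ℝ} (hs : 1 < s) :
    Summable fun p : Nat.Primes => ((p : ℕ) : ℝ) ^ (-s) :=
  Nat.Primes.summable_rpow.2 (by linarith)

theorem neg_log_le {x : ℝ} (h0 : 0 ≤ x) (h1 : x ≤ 1 / 2) : -Real.log (1 - x) ≤ x + 2 * x ^ 2 := by
  have h2 : 0 < 1 - x := by linarith
  rw [← Real.log_inv]
  have h3 := Real.log_le_sub_one_of_pos (inv_pos.2 h2)
  have h4 : (1 - x)⁻¹ - 1 ≤ x + 2 * x ^ 2 := by
    rw [sub_le_iff_le_add, inv_le_comm₀ h2 (by positivity)]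
    rw [inv_le_iff_one_le_mul₀ (by positivity)]
    nlinarith [mul_nonneg h0 (sub_nonneg.2 h1), mul_nonneg (sq_nonneg x) (sub_nonneg.2 h1)]
  linarith

theorem prime_sum_ge : ∃ C : ℝ, ∀ s : ℝ, 1 < s →
    Real.log (1 / (s - 1)) - C ≤ ∑' p : Nat.Primes, ((p : ℕ) : ℝ) ^ (-s) := by
  have hs2 : Summable fun p : Nat.Primes => ((p : ℕ) : ℝ) ^ (-(2 : ℝ)) :=
    summable_primes (by norm_num)
  refine ⟨2 * ∑' p : Nat.Primes, ((p : ℕ) : ℝ) ^ (-(2 : ℝ)), ?_⟩
  intro s hs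
  set Z2 := ∑' p : Nat.Primes, ((p : ℕ) : ℝ) ^ (-(2 : ℝ)) with hZ2
  set S := ∑' p : Nat.Primes, ((p : ℕ) : ℝ) ^ (-s) with hS
  have hsm := summable_primes hs
  have hsum : Summable fun n : ℕ => ‖npow s hs n‖ := by
    have h1 : Summable fun n : ℕ => (n : ℝ) ^ (-s) := Real.summable_nat_rpow.2 (by linarith)
    exact h1.norm
  have hprod := EulerProduct.eulerProduct_completely_multiplicative_hasProd hsum
  have hz : ∑' n : ℕ, npow s hs n = ∑' n : ℕ, (n : ℝ) ^ (-s) := rfl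
  have hp2 : ∀ p : Nat.Primes, (2 : ℝ) ≤ ((p : ℕ) : ℝ) := fun p => by
    exact_mod_cast p.2.two_le
  have hb : ∀ P : Finset Nat.Primes, ∏ p ∈ P, (1 - npow s hs p)⁻¹ ≤ Real.exp (S + 2 * Z2) := by
    intro P
    have hle : ∀ p : Nat.Primes, ((p : ℕ) : ℝ) ^ (-s) ≤ 1 / 2 := by
      intro p
      have h1 : ((p : ℕ) : ℝ) ^ (-s) ≤ ((p : ℕ) : ℝ) ^ (-(1 : ℝ)) :=
        Real.rpow_le_rpow_of_exponent_le (by linarith [hp2 p]) (by linarith)
      rw [Real.rpow_neg_one] at h1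
      have h2 : (((p : ℕ) : ℝ))⁻¹ ≤ 1 / 2 := by
        rw [one_div]
        exact inv_anti₀ (by norm_num) (hp2 p)
      linarith
    have hpos : ∀ p : Nat.Primes, 0 < 1 - npow s hs p := by
      intro p
      have := hle p
      show 0 < 1 - ((p : ℕ) : ℝ) ^ (-s)
      linarith
    have hprodpos : 0 < ∏ p ∈ P, (1 - npow s hs p)⁻¹ :=
      Finset.prod_pos fun p _ => inv_pos.2 (hpos p)
    rw [← Real.exp_log hprodpos, Real.exp_le_exp,
      Real.log_prod (fun p _ => (inv_pos.2 (hpos p)).ne')]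
    have h3 : ∀ p ∈ P, Real.log (1 - npow s hs p)⁻¹ ≤
        ((p : ℕ) : ℝ) ^ (-s) + 2 * ((p : ℕ) : ℝ) ^ (-(2 : ℝ)) := by
      intro p _
      rw [Real.log_inv]
      have h4 := neg_log_le (x := ((p : ℕ) : ℝ) ^ (-s))
        (Real.rpow_nonneg (Nat.cast_nonneg _) _) (hle p)
      have h5 : (((p : ℕ) : ℝ) ^ (-s)) ^ 2 ≤ ((p : ℕ) : ℝ) ^ (-(2 : ℝ)) := by
        rw [← Real.rpow_natCast (((p : ℕ) : ℝ) ^ (-s)), ← Real.rpow_mul (Nat.cast_nonneg _)]
        apply Real.rpow_le_rpow_of_exponent_le (by linarith [hp2 p])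
        push_cast
        linarith
      have h6 : Real.log (1 - npow s hs p) = Real.log (1 - ((p : ℕ) : ℝ) ^ (-s)) := rfl
      rw [h6]
      linarith
    refine (Finset.sum_le_sum h3).trans ?_
    rw [Finset.sum_add_distrib, ← Finset.mul_sum]
    have h7 : ∑ p ∈ P, ((p : ℕ) : ℝ) ^ (-s) ≤ S :=
      hsm.sum_le_tsum _ (fun p _ => Real.rpow_nonneg (Nat.cast_nonneg _) _)
    have h8 : ∑ p ∈ P, ((p : ℕ) : ℝ) ^ (-(2 : ℝ)) ≤ Z2 :=
      hs2.sum_le_tsum _ (fun p _ => Real.rpow_nonneg (Nat.cast_nonneg _) _)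
    linarith
  have h9 : ∑' n : ℕ, npow s hs n ≤ Real.exp (S + 2 * Z2) := le_of_tendsto' hprod hb
  have h10 := (zeta_ge hs).trans (hz ▸ h9)
  have h11 := Real.log_le_log (by apply one_div_pos.2; linarith) h10
  rw [Real.log_exp] at h11
  linarith

/-! ### from short intervals to primes -/

/-- the multiplicative function -/
theorem prod_one_add_le {u : ℕ → ℝ} (hu : ∀ m, 0 ≤ u m) {C η : ℝ} (hC : 0 < C) (hη : 0 < η)
    {Q : ℕ → Prop}
    (hb : ∀ X : ℝ, 1 ≤ X → ∀ S : Finset ℕ,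
      (∀ m ∈ S, X ≤ m ∧ (m : ℝ) ≤ (1 + η) * X ∧ Q m) → ∑ m ∈ S, u m ≤ C * X) :
    ∃ D : ℝ, 0 < D ∧ ∀ s : ℝ, 1 < s → s ≤ 2 → ∀ S : Finset ℕ, (∀ m ∈ S, 1 ≤ m ∧ Q m) →
      ∑ m ∈ S, u m * (m : ℝ) ^ (-s) ≤ D / (s - 1) := by
  set q : ℝ := 1 + η with hq
  have hq1 : 1 < q := by linarith
  have hq0 : 0 < q := by linarith
  set L : ℝ := Real.log q with hL
  have hL0 : 0 < L := Real.log_pos hq1
  refine ⟨C * ((1 + L) / L), by positivity, ?_⟩
  intro s hs hs2 S hS
  classical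
  let κ : ℕ → ℕ := fun m => ⌊Real.logb q m⌋₊
  have hκ : ∀ m : ℕ, 1 ≤ m → q ^ (κ m) ≤ (m : ℝ) ∧ (m : ℝ) ≤ q * q ^ (κ m) := by
    intro m hm
    have hm0 : (0 : ℝ) < m := by exact_mod_cast hm
    have hm1 : (1 : ℝ) ≤ m := by exact_mod_cast hm
    have hl0 : 0 ≤ Real.logb q m := Real.logb_nonneg hq1 hm1
    constructor
    · have h1 : ((κ m : ℕ) : ℝ) ≤ Real.logb q m := Nat.floor_le hl0
      rw [← Real.rpow_natCast]
      rwa [Real.le_logb_iff_rpow_le hq1 hm0] at h1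
    · have h1 : Real.logb q m ≤ ((κ m : ℕ) : ℝ) + 1 := (Nat.lt_floor_add_one _).le
      rw [Real.logb_le_iff_le_rpow hq1 hm0, Real.rpow_add hq0, Real.rpow_one,
        Real.rpow_natCast] at h1
      linarith
  obtain ⟨K, hK⟩ : ∃ K, ∀ m ∈ S, κ m ∈ Finset.range K := by
    refine ⟨S.sup κ + 1, fun m hm => ?_⟩
    rw [Finset.mem_range]
    exact Nat.lt_succ_of_le (Finset.le_sup (f := κ) hm)
  rw [← Finset.sum_fiberwise_of_maps_to hK]
  set x : ℝ := s - 1 with hx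
  have hx0 : 0 < x := by linarith
  set ρ : ℝ := Real.exp (-(x * L)) with hρ
  have hρ0 : 0 < ρ := Real.exp_pos _
  have hρ1 : ρ < 1 := by
    rw [hρ, Real.exp_lt_one_iff]
    have := mul_pos hx0 hL0
    linarith
  have h1 : ∀ k ∈ Finset.range K, ∑ m ∈ S with κ m = k, u m * (m : ℝ) ^ (-s) ≤ C * ρ ^ k := by
    intro k _
    have hqk : (1 : ℝ) ≤ q ^ k := one_le_pow₀ hq1.le
    have hqk0 : (0 : ℝ) < q ^ k := by positivity
    have h2 : ∀ m ∈ S.filter (fun m => κ m = k), u m * (m : ℝ) ^ (-s) ≤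
        u m * (q ^ k) ^ (-s) := by
      intro m hm
      rw [Finset.mem_filter] at hm
      have h3 := hκ m (hS m hm.1).1
      rw [hm.2] at h3
      apply mul_le_mul_of_nonneg_left _ (hu m)
      exact Real.rpow_le_rpow_of_nonpos hqk0 h3.1 (by linarith)
    have h4 := hb (q ^ k) hqk (S.filter (fun m => κ m = k)) (by
      intro m hm
      rw [Finset.mem_filter] at hm
      have h3 := hκ m (hS m hm.1).1
      rw [hm.2] at h3
      exact ⟨h3.1, h3.2, (hS m hm.1).2⟩)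
    calc ∑ m ∈ S with κ m = k, u m * (m : ℝ) ^ (-s)
        ≤ ∑ m ∈ S with κ m = k, u m * (q ^ k) ^ (-s) := Finset.sum_le_sum h2
      _ = (∑ m ∈ S with κ m = k, u m) * (q ^ k) ^ (-s) := by rw [Finset.sum_mul]
      _ ≤ (C * q ^ k) * (q ^ k) ^ (-s) := by gcongr
      _ = C * ρ ^ k := by
          have h5 : ρ ^ k = (q ^ k) ^ (-x) := by
            rw [hρ, ← Real.exp_nat_mul, Real.rpow_def_of_pos hqk0, Real.log_pow]
            congr 1
            ring
          rw [h5, hx, mul_assoc]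
          congr 1
          rw [show -(s - 1) = 1 + -s by ring, Real.rpow_add hqk0, Real.rpow_one]
  refine (Finset.sum_le_sum h1).trans ?_
  rw [← Finset.mul_sum]
  have h6 : ∑ k ∈ Finset.range K, ρ ^ k ≤ (1 - ρ)⁻¹ := by
    have hg := hasSum_geometric_of_lt_one hρ0.le hρ1
    rw [← hg.tsum_eq]
    exact hg.summable.sum_le_tsum _ (fun k _ => by positivity)
  have h7 : (1 - ρ)⁻¹ ≤ (1 + L) / (L * x) := by
    have h8 : ρ ≤ 1 / (1 + x * L) := by
      rw [hρ, Real.exp_neg, ← one_div]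
      apply one_div_le_one_div_of_le (by positivity)
      linarith [Real.add_one_le_exp (x * L)]
    have h9 : x * L / (1 + L) ≤ 1 - ρ := by
      have h10 : x * L / (1 + L) ≤ x * L / (1 + x * L) := by
        apply div_le_div_of_nonneg_left (by positivity) (by positivity)
        nlinarith
      have h11 : x * L / (1 + x * L) = 1 - 1 / (1 + x * L) := by
        field_simp
        ring
      linarith
    rw [inv_le_comm₀ (by linarith) (by positivity), inv_div]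
    rwa [mul_comm L x]
  calc C * ∑ k ∈ Finset.range K, ρ ^ k ≤ C * ((1 + L) / (L * x)) := by
        gcongr
        exact h6.trans h7
    _ = C * ((1 + L) / L) / x := by
        field_simp

end Pool.Agent.RS
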