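import Pool.Agent.Lib_helper54.RS.Bound
import Pool.Agent.Lib_helper54.RS.Primes
import Pool.Agent.Lib_helper54.TS.Main

/-!
From the Rankin-Selberg bounds of all conjugates to the Dirichlet density of the primes with
special Hecke eigenvalue.
-/

set_option autoImplicit false

namespace Pool.Agent.RS

open Filter Topology

theorem Lam_prod (lam : ℕ → ℂ) {P : Finset ℕ} (hP : ∀ p ∈ P, p.Prime) :
    Lam lam (∏ p ∈ P, p) = ∏ p ∈ P, lam p := by
  unfold Lam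
  rw [Nat.primeFactors_prod hP]

theorem squarefree_prod {P : Finset ℕ} (hP : ∀ p ∈ P, p.Prime) : Squarefree (∏ p ∈ P, p) := by
  induction P using Finset.induction_on with
  | empty => simp
  | insert a s ha ih =>
    rw [Finset.prod_insert ha]
    have hs : ∀ p ∈ s, p.Prime := fun p hp => hP p (Finset.mem_insert_of_mem hp)
    have hpa : a.Prime := hP a (Finset.mem_insert_self _ _)
    have hco : Nat.Coprime a (∏ p ∈ s, p) := by
      apply Nat.Coprime.prod_right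
      intro p hp
      rw [Nat.coprime_primes hpa (hs p hp)]
      rintro rfl
      exact ha hp
    rw [Nat.squarefree_mul hco]
    exact ⟨hpa.squarefree, ih hs⟩

/-- the Euler product bound -/
theorem euler_le {lam : ℕ → ℂ} {N : ℕ} {C η : ℝ} (hC : 0 < C) (hη : 0 < η)
    (hb : ∀ X : ℝ, 1 ≤ X → ∀ S : Finset ℕ,
      (∀ m ∈ S, X ≤ m ∧ (m : ℝ) ≤ (1 + η) * X ∧ Squarefree m ∧
        ∀ p : ℕ, p.Prime → p ∣ m → ¬ p ∣ N) →
      ∑ m ∈ S, ‖Lam lam m‖ ^ 2 ≤ C * X) :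
    ∃ D : ℝ, 0 < D ∧ ∀ s : ℝ, 1 < s → s ≤ 2 → ∀ P : Finset ℕ,
      (∀ p ∈ P, p.Prime ∧ ¬ p ∣ N) →
      ∏ p ∈ P, (1 + ‖lam p‖ ^ 2 * (p : ℝ) ^ (-s)) ≤ D / (s - 1) := by
  obtain ⟨D, hD, h⟩ := prod_one_add_le (u := fun m => ‖Lam lam m‖ ^ 2) (fun m => by positivity)
    hC hη (Q := fun m => Squarefree m ∧ ∀ p : ℕ, p.Prime → p ∣ m → ¬ p ∣ N) hb
  refine ⟨D, hD, ?_⟩
  intro s hs hs2 P hP
  have hPp : ∀ T ∈ P.powerset, ∀ p ∈ T, p.Prime := fun T hT p hp =>
    (hP p (Finset.mem_powerset.1 hT hp)).1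
  rw [Finset.prod_one_add]
  have hinj : Set.InjOn (fun T : Finset ℕ => ∏ p ∈ T, p) (P.powerset : Set (Finset ℕ)) := by
    intro T hT T' hT' e
    have e' : ∏ p ∈ T, p = ∏ p ∈ T', p := e
    rw [← Nat.primeFactors_prod (hPp T hT), ← Nat.primeFactors_prod (hPp T' hT'), e']
  have h1 := h s hs hs2 (P.powerset.image fun T => ∏ p ∈ T, p) (by
    intro m hm
    obtain ⟨T, hT, rfl⟩ := Finset.mem_image.1 hm
    have hTp := hPp T hT
    refine ⟨Nat.one_le_iff_ne_zero.2 (Finset.prod_ne_zero_iff.2 fun p hp => (hTp p hp).ne_zero),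
      squarefree_prod hTp, ?_⟩
    intro q hq hqd
    obtain ⟨p, hp, hqp⟩ := (Prime.dvd_finsetProd_iff hq.prime _).1 hqd
    have : q = p := (Nat.prime_dvd_prime_iff_eq hq (hTp p hp)).1 hqp
    rw [this]
    exact (hP p (Finset.mem_powerset.1 hT hp)).2)
  rw [Finset.sum_image hinj] at h1
  refine le_trans (le_of_eq ?_) h1
  apply Finset.sum_congr rfl
  intro T hT
  rw [Lam_prod lam (hPp T hT), norm_prod, Finset.prod_mul_distrib, ← Finset.prod_pow]
  congr 1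
  push_cast
  rw [Real.finsetProd_rpow]
  intro p _
  exact Nat.cast_nonneg p

theorem one_add_sum_le {ι : Type*} (s : Finset ι) {f : ι → ℝ} (hf : ∀ i ∈ s, 0 ≤ f i) :
    1 + ∑ i ∈ s, f i ≤ ∏ i ∈ s, (1 + f i) := by
  classical
  induction s using Finset.induction_on with
  | empty => simp
  | insert a s ha ih =>
    rw [Finset.sum_insert ha, Finset.prod_insert ha]
    have h1 := ih (fun i hi => hf i (Finset.mem_insert_of_mem hi))
    have h2 := hf a (Finset.mem_insert_self _ _)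
    have h3 : 0 ≤ ∑ i ∈ s, f i := Finset.sum_nonneg fun i hi => hf i (Finset.mem_insert_of_mem hi)
    nlinarith

theorem log_one_add_ge {y : ℝ} (hy : 0 ≤ y) : y - y ^ 2 ≤ Real.log (1 + y) := by
  have h1 := Real.le_log_one_add_of_nonneg hy
  have h2 : y - y ^ 2 ≤ 2 * y / (y + 2) := by
    rw [le_div_iff₀ (by linarith)]
    nlinarith [mul_nonneg hy hy, mul_nonneg (mul_nonneg hy hy) hy]
  linarith

section
variable {K : Type} [Field K] [NumberField K]

/-- upper bound for the bad primes -/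
theorem bad_sum_le {a : ℕ → K} {N : ℕ}
    (hD : ∀ τ : K →+* ℂ, ∃ D : ℝ, 0 < D ∧ ∀ s : ℝ, 1 < s → s ≤ 2 → ∀ P : Finset ℕ,
      (∀ p ∈ P, p.Prime ∧ ¬ p ∣ N) →
      ∏ p ∈ P, (1 + ‖τ (a p)‖ ^ 2 * (p : ℝ) ^ (-s)) ≤ D / (s - 1))
    {β : ℝ} (hβ : 0 < β) :
    ∃ C : ℝ, ∀ s : ℝ, 1 < s → s ≤ 2 → ∀ P : Finset ℕ, (∀ p ∈ P, p.Prime ∧ ¬ p ∣ N ∧
      β * (Fintype.card (K →+* ℂ) : ℝ) ≤ ∑ τ : K →+* ℂ, ‖τ (a p)‖ ^ 2) →
      ∑ p ∈ P, (p : ℝ) ^ (-s) ≤ 1 / β * Real.log (1 / (s - 1)) + C := by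
  choose D hD0 hD using hD
  set d : ℝ := (Fintype.card (K →+* ℂ) : ℝ) with hd
  have hd0 : 0 < d := by
    have : Nonempty (K →+* ℂ) := inferInstance
    exact Nat.cast_pos.2 Fintype.card_pos
  set κ : ℝ := β * d with hκ
  have hκ0 : 0 < κ := by positivity
  set Z2 : ℝ := ∑' p : ℕ, (p : ℝ) ^ (-(2 : ℝ)) with hZ2
  have hs2 : Summable fun p : ℕ => (p : ℝ) ^ (-(2 : ℝ)) :=
    Real.summable_nat_rpow.2 (by norm_num)
  refine ⟨(∑ τ, Real.log (D τ) + κ ^ 2 * Z2) / κ, ?_⟩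
  intro s hs hs2' P hP
  have hPP : ∀ p ∈ P, p.Prime ∧ ¬ p ∣ N := fun p hp => ⟨(hP p hp).1, (hP p hp).2.1⟩
  have hx0 : 0 < s - 1 := by linarith
  have hpow : ∀ p : ℕ, 0 ≤ (p : ℝ) ^ (-s) := fun p => Real.rpow_nonneg (Nat.cast_nonneg p) _
  -- sum over the embeddings
  have h1 : ∏ τ : K →+* ℂ, ∏ p ∈ P, (1 + ‖τ (a p)‖ ^ 2 * (p : ℝ) ^ (-s)) ≤
      ∏ τ : K →+* ℂ, (D τ / (s - 1)) := by
    apply Finset.prod_le_prod
    · intro τ _
      exact Finset.prod_nonneg fun p _ => by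
        have := mul_nonneg (sq_nonneg ‖τ (a p)‖) (hpow p)
        linarith
    · intro τ _
      exact hD τ s hs hs2' P hPP
  rw [Finset.prod_comm] at h1
  have h2 : ∏ p ∈ P, (1 + κ * (p : ℝ) ^ (-s)) ≤
      ∏ p ∈ P, ∏ τ : K →+* ℂ, (1 + ‖τ (a p)‖ ^ 2 * (p : ℝ) ^ (-s)) := by
    apply Finset.prod_le_prod
    · intro p _
      have := mul_nonneg hκ0.le (hpow p)
      linarith
    · intro p hp
      have h3 := one_add_sum_le (Finset.univ : Finset (K →+* ℂ))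
        (f := fun τ => ‖τ (a p)‖ ^ 2 * (p : ℝ) ^ (-s))
        (fun τ _ => mul_nonneg (sq_nonneg _) (hpow p))
      refine le_trans ?_ h3
      rw [← Finset.sum_mul]
      have := mul_le_mul_of_nonneg_right (hP p hp).2.2 (hpow p)
      linarith
  have h4 := h2.trans h1
  have hpos : ∀ p ∈ P, (0 : ℝ) < 1 + κ * (p : ℝ) ^ (-s) := fun p _ => by
    have := mul_nonneg hκ0.le (hpow p)
    linarith
  have h5 := Real.log_le_log (Finset.prod_pos hpos) h4
  rw [Real.log_prod (fun p hp => (hpos p hp).ne'),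
    Real.log_prod (fun τ _ => (div_pos (hD0 τ) hx0).ne')] at h5
  have h6 : ∑ τ : K →+* ℂ, Real.log (D τ / (s - 1)) =
      ∑ τ : K →+* ℂ, Real.log (D τ) + d * Real.log (1 / (s - 1)) := by
    have : ∀ τ : K →+* ℂ, Real.log (D τ / (s - 1)) =
        Real.log (D τ) + Real.log (1 / (s - 1)) := by
      intro τ
      rw [← Real.log_mul (hD0 τ).ne' (one_div_pos.2 hx0).ne']
      congr 1
      ring
    simp only [this]
    rw [Finset.sum_add_distrib, Finset.sum_const, Finset.card_univ, nsmul_eq_mul]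
  rw [h6] at h5
  have h7 : κ * ∑ p ∈ P, (p : ℝ) ^ (-s) - κ ^ 2 * Z2 ≤
      ∑ p ∈ P, Real.log (1 + κ * (p : ℝ) ^ (-s)) := by
    have h8 : ∀ p ∈ P, κ * (p : ℝ) ^ (-s) - κ ^ 2 * (p : ℝ) ^ (-(2 : ℝ)) ≤
        Real.log (1 + κ * (p : ℝ) ^ (-s)) := by
      intro p hp
      have h9 := log_one_add_ge (mul_nonneg hκ0.le (hpow p))
      have hp1 : (1 : ℝ) ≤ p := by exact_mod_cast (hP p hp).1.one_lt.le
      have h10 : ((p : ℝ) ^ (-s)) ^ 2 ≤ (p : ℝ) ^ (-(2 : ℝ)) := by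
        rw [← Real.rpow_natCast ((p : ℝ) ^ (-s)), ← Real.rpow_mul (Nat.cast_nonneg _)]
        apply Real.rpow_le_rpow_of_exponent_le hp1
        push_cast
        linarith
      have h11 : κ ^ 2 * ((p : ℝ) ^ (-s)) ^ 2 ≤ κ ^ 2 * (p : ℝ) ^ (-(2 : ℝ)) := by gcongr
      rw [mul_pow] at h9
      linarith
    refine le_trans ?_ (Finset.sum_le_sum h8)
    rw [Finset.sum_sub_distrib, ← Finset.mul_sum, ← Finset.mul_sum]
    have h12 : ∑ p ∈ P, (p : ℝ) ^ (-(2 : ℝ)) ≤ Z2 :=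
      hs2.sum_le_tsum _ (fun p _ => Real.rpow_nonneg (Nat.cast_nonneg _) _)
    have : κ ^ 2 * ∑ p ∈ P, (p : ℝ) ^ (-(2 : ℝ)) ≤ κ ^ 2 * Z2 := by gcongr
    linarith
  have h13 : κ * ∑ p ∈ P, (p : ℝ) ^ (-s) ≤
      d * Real.log (1 / (s - 1)) + (∑ τ, Real.log (D τ) + κ ^ 2 * Z2) := by linarith
  have h14 : 1 / β * Real.log (1 / (s - 1)) = d * Real.log (1 / (s - 1)) / κ := by
    rw [hκ]
    field_simp
  rw [h14, ← add_div, le_div_iff₀ hκ0]
  linarith

end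

/-- The set `S` of primes has lower Dirichlet density at least `δ`, with a bounded error term:
`∑_{p ∈ S} p^{-s} ≥ δ log (1 / (s - 1)) - O(1)` for `s > 1`. -/
def DirichletGE (S : Set ℕ) (δ : ℝ) : Prop :=
  ∃ C : ℝ, ∀ s : ℝ, 1 < s → δ * Real.log (1 / (s - 1)) - C ≤
    ∑' p : Nat.Primes, S.indicator (fun q : ℕ => (q : ℝ) ^ (-s)) p

theorem dirichlet_of_bad {N : ℕ} (hN : N ≠ 0) {G : Set ℕ} {δ : ℝ} (hδ : 0 ≤ δ)
    (hbad : ∃ C : ℝ, ∀ s : ℝ, 1 < s → s ≤ 2 → ∀ P : Finset ℕ,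
      (∀ p ∈ P, p.Prime ∧ ¬ p ∣ N ∧ p ∉ G) →
      ∑ p ∈ P, (p : ℝ) ^ (-s) ≤ (1 - δ) * Real.log (1 / (s - 1)) + C) :
    DirichletGE {p | ¬ p ∣ N ∧ p ∈ G} δ := by
  obtain ⟨C, hC⟩ := hbad
  obtain ⟨C0, hC0⟩ := prime_sum_ge
  refine ⟨|C| + |C0| + N.primeFactors.card, ?_⟩
  intro s hs
  have hx0 : 0 < s - 1 := by linarith
  have hsm := summable_primes hs
  have hpow : ∀ q : ℕ, 0 ≤ (q : ℝ) ^ (-s) := fun q => Real.rpow_nonneg (Nat.cast_nonneg q) _
  have hnn : 0 ≤ ∑' p : Nat.Primes,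
      ({p | ¬ p ∣ N ∧ p ∈ G} : Set ℕ).indicator (fun q : ℕ => (q : ℝ) ^ (-s)) p :=
    tsum_nonneg fun p => Set.indicator_nonneg (fun q _ => hpow q) _
  by_cases hs2 : s ≤ 2
  swap
  · push Not at hs2
    have h1 : Real.log (1 / (s - 1)) ≤ 0 := by
      apply Real.log_nonpos (by positivity)
      rw [div_le_one hx0]
      linarith
    have h2 : δ * Real.log (1 / (s - 1)) ≤ 0 := mul_nonpos_of_nonneg_of_nonpos hδ h1
    have h3 : (0 : ℝ) ≤ |C| + |C0| + N.primeFactors.card := by positivity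
    linarith
  -- summability of indicators
  have hind : ∀ S : Set ℕ, Summable fun p : Nat.Primes =>
      S.indicator (fun q : ℕ => (q : ℝ) ^ (-s)) p := by
    intro S
    apply hsm.of_nonneg_of_le
    · intro p; exact Set.indicator_nonneg (fun q _ => hpow q) _
    · intro p; exact Set.indicator_le_self' (fun q _ => hpow q) _
  have hB : ∑' p : Nat.Primes, ({p | ¬ p ∣ N ∧ p ∉ G} : Set ℕ).indicator
      (fun q : ℕ => (q : ℝ) ^ (-s)) p ≤ (1 - δ) * Real.log (1 / (s - 1)) + C := by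
    apply (hind _).tsum_le_of_sum_le
    intro P
    classical
    have h1 := hC s hs hs2 ((P.filter fun p : Nat.Primes => ¬ (p : ℕ) ∣ N ∧ (p : ℕ) ∉ G).image
      (fun p : Nat.Primes => (p : ℕ))) (by
        intro q hq
        obtain ⟨p, hp, rfl⟩ := Finset.mem_image.1 hq
        rw [Finset.mem_filter] at hp
        exact ⟨p.2, hp.2.1, hp.2.2⟩)
    rw [Finset.sum_image (g := fun p : Nat.Primes => (p : ℕ))
      (fun p _ p' _ h => Nat.Primes.coe_nat_injective h), Finset.sum_filter] at h1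
    refine le_trans (le_of_eq ?_) h1
    apply Finset.sum_congr rfl
    intro p _
    simp only [Set.indicator_apply, Set.mem_ofPred_eq]
  have hE : ∑' p : Nat.Primes, ({p | p ∣ N} : Set ℕ).indicator
      (fun q : ℕ => (q : ℝ) ^ (-s)) p ≤ N.primeFactors.card := by
    apply (hind _).tsum_le_of_sum_le
    intro P
    classical
    have h1 : ∑ p ∈ P, ({p | p ∣ N} : Set ℕ).indicator (fun q : ℕ => (q : ℝ) ^ (-s)) (p : ℕ) ≤
        ∑ q ∈ N.primeFactors, (1 : ℝ) := by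
      have h2 : ∑ p ∈ P, ({p | p ∣ N} : Set ℕ).indicator (fun q : ℕ => (q : ℝ) ^ (-s)) (p : ℕ) =
          ∑ q ∈ (P.filter fun p : Nat.Primes => (p : ℕ) ∣ N).image
            (fun p : Nat.Primes => (p : ℕ)), (q : ℝ) ^ (-s) := by
        rw [Finset.sum_image (g := fun p : Nat.Primes => (p : ℕ))
          (fun p _ p' _ h => Nat.Primes.coe_nat_injective h), Finset.sum_filter]
        apply Finset.sum_congr rfl
        intro p _
        simp only [Set.indicator_apply, Set.mem_ofPred_eq]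
      rw [h2]
      calc ∑ q ∈ (P.filter fun p : Nat.Primes => (p : ℕ) ∣ N).image
            (fun p : Nat.Primes => (p : ℕ)), (q : ℝ) ^ (-s)
          ≤ ∑ q ∈ (P.filter fun p : Nat.Primes => (p : ℕ) ∣ N).image
            (fun p : Nat.Primes => (p : ℕ)), (1 : ℝ) := by
            apply Finset.sum_le_sum
            intro q hq
            obtain ⟨p, hp, rfl⟩ := Finset.mem_image.1 hq
            apply Real.rpow_le_one_of_one_le_of_nonpos
            · exact_mod_cast p.2.one_lt.le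
            · linarith
        _ ≤ ∑ q ∈ N.primeFactors, (1 : ℝ) := by
            apply Finset.sum_le_sum_of_subset_of_nonneg
            · intro q hq
              obtain ⟨p, hp, rfl⟩ := Finset.mem_image.1 hq
              rw [Finset.mem_filter] at hp
              exact Nat.mem_primeFactors.2 ⟨p.2, hp.2, hN⟩
            · intro q _ _
              exact zero_le_one
    simpa using h1
  have hsplit : ∑' p : Nat.Primes, ((p : ℕ) : ℝ) ^ (-s) =
      ∑' p : Nat.Primes, ({p | ¬ p ∣ N ∧ p ∈ G} : Set ℕ).indicator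
        (fun q : ℕ => (q : ℝ) ^ (-s)) p +
      ∑' p : Nat.Primes, ({p | ¬ p ∣ N ∧ p ∉ G} : Set ℕ).indicator
        (fun q : ℕ => (q : ℝ) ^ (-s)) p +
      ∑' p : Nat.Primes, ({p | p ∣ N} : Set ℕ).indicator (fun q : ℕ => (q : ℝ) ^ (-s)) p := by
    rw [← (hind _).tsum_add (hind _), ← ((hind _).add (hind _)).tsum_add (hind _)]
    congr 1
    funext p
    simp only [Set.indicator_apply, Set.mem_ofPred_eq]
    by_cases h1 : (p : ℕ) ∣ N
    · simp [h1]
    · by_cases h2 : (p : ℕ) ∈ G <;> simp [h1, h2]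
  have h3 := hC0 s hs
  rw [hsplit] at h3
  have h4 := le_abs_self C
  have h5 := le_abs_self C0
  linarith

end Pool.Agent.RS
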