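import Pool.Agent.Lib_helper54.RS.Lower

/-!
The Rankin-Selberg upper bound: sums of the squares of the Hecke eigenvalues over short intervals.
-/

set_option autoImplicit false

namespace Pool.Agent.RS

open MeasureTheory Matrix Filter Topology
open scoped ENNReal

/-- the multiplicative extension of `lam` to squarefree numbers -/
noncomputable def Lam (lam : ℕ → ℂ) (m : ℕ) : ℂ := ∏ p ∈ m.primeFactors, lam p

theorem Lam_mul (lam : ℕ → ℂ) {p m : ℕ} (hp : p.Prime) (hm : m ≠ 0) (hpm : ¬ p ∣ m) :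
    Lam lam (p * m) = lam p * Lam lam m := by
  unfold Lam
  rw [Nat.primeFactors_mul hp.ne_zero hm, hp.primeFactors, Finset.prod_union]
  · rw [Finset.prod_singleton]
  · rw [Finset.disjoint_singleton_left]
    intro h
    exact hpm (Nat.dvd_of_mem_primeFactors h)

theorem det_td (n : ℕ) (X : ℝ) : (td n X).det = X := by
  unfold td
  rw [Matrix.det_diagonal, Finset.prod_ite_eq']
  simp

/-- the Hecke relation for the Whittaker coefficients -/
def HeckeRel (s : ℕ) (φ : Mt (s + 2) → ℂ) (lam : ℕ → ℂ) (N : ℕ) : Prop :=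
  ∀ p : ℕ, p.Prime → ¬ p ∣ N → ∀ m : ℕ, ¬ p ∣ m → ∀ g : Matrix (Fin (s + 2)) (Fin (s + 2)) ℝ,
    g.det ≠ 0 →
      ((√(p : ℝ) : ℝ) : ℂ) ^ (s + 1) * Wr s φ (p * m) g = lam p * Wr s φ m (td (s + 1) p * g)

theorem Wr_squarefree {s : ℕ} {φ : Mt (s + 2) → ℂ} {lam : ℕ → ℂ} {N : ℕ}
    (hH : HeckeRel s φ lam N) (m : ℕ) : Squarefree m → (∀ p : ℕ, p.Prime → p ∣ m → ¬ p ∣ N) →
    ∀ g : Matrix (Fin (s + 2)) (Fin (s + 2)) ℝ, g.det ≠ 0 →
      ((√(m : ℝ) : ℝ) : ℂ) ^ (s + 1) * Wr s φ m g = Lam lam m * Wr s φ 1 (td (s + 1) m * g) := by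
  induction m using Nat.strong_induction_on with
  | _ m ih =>
    intro hsq hco g hg
    have hm0 : m ≠ 0 := hsq.ne_zero
    by_cases hm1 : m = 1
    · subst hm1
      simp [Lam, td_one]
    · obtain ⟨p, hp, k, rfl⟩ := Nat.exists_prime_and_dvd hm1
      have hk0 : k ≠ 0 := by rintro rfl; simp at hm0
      have hpk : ¬ p ∣ k := by
        rintro ⟨l, rfl⟩
        have h1 := hsq p ⟨l, by ring⟩
        exact hp.one_lt.ne' (Nat.isUnit_iff.1 h1)
      have hk : k < p * k := by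
        have := hp.two_le
        nlinarith [Nat.pos_of_ne_zero hk0]
      have hsk : Squarefree k := hsq.squarefree_of_dvd (Dvd.intro_left p rfl)
      have hpN : ¬ p ∣ N := hco p hp (Dvd.intro k rfl)
      have hg' : (td (s + 1) p * g).det ≠ 0 := by
        rw [Matrix.det_mul, det_td]
        exact mul_ne_zero (by exact_mod_cast hp.ne_zero) hg
      have h1 := hH p hp hpN k hpk g hg
      have h2 := ih k hk hsk (fun q hq hqk => hco q hq (hqk.mul_left p)) _ hg'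
      rw [Lam_mul lam hp hk0 hpk]
      have h3 : ((√((p * k : ℕ) : ℝ) : ℝ) : ℂ) = ((√(p : ℝ) : ℝ) : ℂ) * ((√(k : ℝ) : ℝ) : ℂ) := by
        rw [← Complex.ofReal_mul, ← Real.sqrt_mul (by positivity)]
        push_cast
        rfl
      have h4 : td (s + 1) ((p * k : ℕ) : ℝ) * g = td (s + 1) k * (td (s + 1) p * g) := by
        rw [← Matrix.mul_assoc, td_mul]
        push_cast
        rw [mul_comm]
      rw [h3, h4, mul_pow]
      calc ((√(p : ℝ) : ℝ) : ℂ) ^ (s + 1) * ((√(k : ℝ) : ℝ) : ℂ) ^ (s + 1) * Wr s φ (p * k) g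
          = ((√(k : ℝ) : ℝ) : ℂ) ^ (s + 1) *
            (((√(p : ℝ) : ℝ) : ℂ) ^ (s + 1) * Wr s φ (p * k) g) := by ring
        _ = lam p * (((√(k : ℝ) : ℝ) : ℂ) ^ (s + 1) * Wr s φ k (td (s + 1) p * g)) := by
            rw [h1]; ring
        _ = _ := by rw [h2]; ring

theorem continuous_td (n : ℕ) : Continuous (td n) := by
  unfold td
  apply Continuous.matrix_diagonal
  apply continuous_pi
  intro i
  by_cases h : i = 0
  · simp only [if_pos h]; exact continuous_id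
  · simp only [if_neg h]; exact continuous_const

theorem exists_nhds_W {s : ℕ} (W : Matrix (Fin (s + 2)) (Fin (s + 2)) ℝ → ℂ)
    {g₀ : Matrix (Fin (s + 2)) (Fin (s + 2)) ℝ} (hc : ContinuousAt W g₀) (h0 : W g₀ ≠ 0) :
    ∃ c : ℝ, 0 < c ∧ ∃ η : ℝ, 0 < η ∧ ∃ B ∈ 𝓝 (1 : Matrix (Fin (s + 1)) (Fin (s + 1)) ℝ),
      ∀ ξ : ℝ, |ξ - 1| ≤ η → ∀ L ∈ B, c ≤ ‖W (td (s + 1) ξ * emb L 0 * g₀)‖ := by
  have hc1 : Continuous fun z : ℝ × Matrix (Fin (s + 1)) (Fin (s + 1)) ℝ =>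
      td (s + 1) z.1 * (emb z.2 0 : Matrix (Fin (s + 2)) (Fin (s + 2)) ℝ) * g₀ := by
    apply Continuous.matrix_mul _ continuous_const
    apply Continuous.matrix_mul
    · exact (continuous_td (s + 1)).comp continuous_fst
    · exact (continuous_emb (r := s + 1)).comp
        (Continuous.prodMk continuous_snd (continuous_const (y := (0 : Fin (s + 1) → ℝ))))
  have h1 : td (s + 1) 1 * (emb 1 0 : Matrix (Fin (s + 2)) (Fin (s + 2)) ℝ) * g₀ = g₀ := by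
    rw [td_one, emb_one, Matrix.one_mul, Matrix.one_mul]
  have hp : 0 < ‖W g₀‖ := norm_pos_iff.2 h0
  have h2 : ∀ᶠ g in 𝓝 g₀, ‖W g₀‖ / 2 ≤ ‖W g‖ := by
    have h3 := hc.norm
    exact h3.eventually (Ici_mem_nhds (by linarith))
  have h4 := hc1.tendsto (1, 1)
  simp only at h4
  rw [h1] at h4
  have h5 := h4.eventually h2
  rw [nhds_prod_eq, Filter.eventually_prod_iff] at h5
  obtain ⟨pa, hpa, pb, hpb, hab⟩ := h5
  obtain ⟨ε, hε, hball⟩ := Metric.eventually_nhds_iff.1 hpa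
  refine ⟨‖W g₀‖ / 2, by linarith, ε / 2, by linarith, {L | pb L}, hpb, ?_⟩
  intro ξ hξ L hL
  exact hab (hball (by rw [Real.dist_eq]; linarith)) hL

theorem rs_bound {s : ℕ} {φ : Mt (s + 2) → ℂ} (hφ : Measurable φ) {M : ℝ}
    (hM : ∀ Y, ‖φ Y‖ ≤ M) (hP : PInv φ) {lam : ℕ → ℂ} {N : ℕ} (hH : HeckeRel s φ lam N)
    {g₀ : Matrix (Fin (s + 2)) (Fin (s + 2)) ℝ} (hg₀ : g₀.det ≠ 0)
    (hc : ContinuousAt (Wr s φ 1) g₀) (h0 : Wr s φ 1 g₀ ≠ 0) :
    ∃ C η : ℝ, 0 < η ∧ 0 < C ∧ ∀ X : ℝ, 1 ≤ X → ∀ S : Finset ℕ,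
      (∀ m ∈ S, X ≤ m ∧ (m : ℝ) ≤ (1 + η) * X ∧ Squarefree m ∧
        ∀ p : ℕ, p.Prime → p ∣ m → ¬ p ∣ N) →
      ∑ m ∈ S, ‖Lam lam m‖ ^ 2 ≤ C * X := by
  obtain ⟨c, hc0, η, hη, B, hB, hcB⟩ := exists_nhds_W _ hc h0
  have hBi : {L ∈ B | L.det ≠ 0} ∈ 𝓝 (1 : Matrix (Fin (s + 1)) (Fin (s + 1)) ℝ) := by
    have : ∀ᶠ L in 𝓝 (1 : Matrix (Fin (s + 1)) (Fin (s + 1)) ℝ), L.det ≠ 0 := by
      have hcd : Continuous fun L : Matrix (Fin (s + 1)) (Fin (s + 1)) ℝ => L.det :=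
        Continuous.matrix_det continuous_id
      exact hcd.continuousAt.eventually_ne (by rw [Matrix.det_one]; exact one_ne_zero)
    exact Filter.inter_mem hB this
  obtain ⟨κ₀, hκ₀, hκ₀2⟩ := LB s _ hBi
  -- make `κ` real
  set κ : ℝ≥0∞ := min κ₀ 1 with hκdef
  have hκ0 : κ ≠ 0 := by
    rw [hκdef, Ne, ← nonpos_iff_eq_zero, min_le_iff]
    push Not
    exact ⟨pos_iff_ne_zero.2 hκ₀, by simp⟩
  have hκt : κ ≠ ⊤ := ne_top_of_le_ne_top ENNReal.one_ne_top (min_le_right _ _)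
  have hκp : 0 < κ.toReal := ENNReal.toReal_pos hκ0 hκt
  have hM0 : 0 ≤ M := (norm_nonneg _).trans (hM 0)
  set K : ℝ := (mass s).toReal * M ^ 2 with hK
  have hK0 : 0 ≤ K := by positivity
  refine ⟨(K + 1) / (κ.toReal * c ^ 2) * (1 + η) ^ (s + 1), η, hη, by positivity, ?_⟩
  intro X hX S hS
  have hX0 : (0 : ℝ) < X := by linarith
  have hXne : X ≠ 0 := hX0.ne'
  have hη1 : 0 < 1 + η := by linarith
  set D : ℝ := ((1 + η) * X) ^ (s + 1) with hD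
  have hD0 : 0 < D := by positivity
  set h : Matrix (Fin (s + 2)) (Fin (s + 2)) ℝ := td (s + 1) X⁻¹ * g₀ with hh
  have hyp : LBhyp s {L ∈ B | L.det ≠ 0} X φ h S
      (fun m => ENNReal.ofReal (‖Lam lam m‖ ^ 2 * (c ^ 2 / D))) := by
    intro L hL m hm
    obtain ⟨hm1, hm2, hmsq, hmN⟩ := hS m hm
    have hm0 : 0 < (m : ℝ) := by linarith
    set g := td (s + 1) X⁻¹ * emb L 0 * g₀ with hg
    have e1 : emb (cj X L) 0 * h = g := by
      have h1 : (emb (cj X L) 0 : Matrix (Fin (s + 2)) (Fin (s + 2)) ℝ) =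
          td (s + 1) X⁻¹ * emb L 0 * td (s + 1) X := by
        unfold cj
        rw [← emb_td, ← emb_td, emb_mul, emb_mul]
        simp
      rw [h1, hh, hg]
      calc td (s + 1) X⁻¹ * emb L 0 * td (s + 1) X * (td (s + 1) X⁻¹ * g₀)
          = td (s + 1) X⁻¹ * emb L 0 * (td (s + 1) X * td (s + 1) X⁻¹) * g₀ := by
            simp only [Matrix.mul_assoc]
        _ = _ := by rw [td_inv hXne, Matrix.mul_one]
    have hgd : g.det ≠ 0 := by
      rw [hg, Matrix.det_mul, Matrix.det_mul, det_td, det_emb]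
      exact mul_ne_zero (mul_ne_zero (inv_ne_zero hXne) hL.2) hg₀
    have e2 : td (s + 1) m * g = td (s + 1) ((m : ℝ) / X) * emb L 0 * g₀ := by
      rw [hg, ← Matrix.mul_assoc, ← Matrix.mul_assoc, td_mul, div_eq_mul_inv]
    have h2 := Wr_squarefree hH m hmsq hmN g hgd
    rw [e2] at h2
    have h3 : |(m : ℝ) / X - 1| ≤ η := by
      rw [abs_of_nonneg (by rw [sub_nonneg, le_div_iff₀ hX0]; linarith), sub_le_iff_le_add,
        div_le_iff₀ hX0]
      linarith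
    have h4 := hcB _ h3 L hL.1
    have h5 : (m : ℝ) ^ (s + 1) * ‖Wr s φ m g‖ ^ 2 = ‖Lam lam m‖ ^ 2 *
        ‖Wr s φ 1 (td (s + 1) ((m : ℝ) / X) * emb L 0 * g₀)‖ ^ 2 := by
      have h6 := congrArg (fun z => ‖z‖ ^ 2) h2
      simp only [norm_mul, norm_pow, Complex.norm_real, Real.norm_eq_abs,
        abs_of_nonneg (Real.sqrt_nonneg _), mul_pow] at h6
      rw [← h6, ← pow_mul, mul_comm (s + 1) 2, pow_mul, Real.sq_sqrt hm0.le]
    have h7 : (m : ℝ) ^ (s + 1) ≤ D := pow_le_pow_left₀ hm0.le hm2 _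
    have h8 : ‖Lam lam m‖ ^ 2 * (c ^ 2 / D) ≤ ‖Wr s φ m g‖ ^ 2 := by
      rw [mul_div_assoc', div_le_iff₀ hD0]
      calc ‖Lam lam m‖ ^ 2 * c ^ 2 ≤ ‖Lam lam m‖ ^ 2 *
            ‖Wr s φ 1 (td (s + 1) ((m : ℝ) / X) * emb L 0 * g₀)‖ ^ 2 := by
            gcongr
        _ = (m : ℝ) ^ (s + 1) * ‖Wr s φ m g‖ ^ 2 := h5.symm
        _ ≤ D * ‖Wr s φ m g‖ ^ 2 := by gcongr
        _ = _ := mul_comm _ _
    rw [e1, ← ofReal_norm, ← ENNReal.ofReal_pow (norm_nonneg _)]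
    exact ENNReal.ofReal_le_ofReal h8
  have hmain := hκ₀2 X hX φ hφ ⟨M, hM⟩ hP h S _ hyp
  have hup := En_le hM h (s := s)
  have h9 : κ * ENNReal.ofReal (X ^ s) *
      ∑ m ∈ S, ENNReal.ofReal (‖Lam lam m‖ ^ 2 * (c ^ 2 / D)) ≤
      mass s * ENNReal.ofReal M ^ 2 := by
    refine le_trans ?_ (hmain.trans hup)
    gcongr
    exact min_le_left _ _
  rw [← ENNReal.ofReal_sum_of_nonneg (fun m _ => by positivity)] at h9
  have h10 := ENNReal.toReal_mono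
    (ENNReal.mul_ne_top (mass_ne_top s) (ENNReal.pow_ne_top ENNReal.ofReal_ne_top)) h9
  rw [ENNReal.toReal_mul, ENNReal.toReal_mul, ENNReal.toReal_mul, ENNReal.toReal_pow,
    ENNReal.toReal_ofReal (by positivity), ENNReal.toReal_ofReal hM0,
    ENNReal.toReal_ofReal (Finset.sum_nonneg fun m _ => by positivity), ← Finset.sum_mul] at h10
  have h11 : κ.toReal * X ^ s * ((∑ m ∈ S, ‖Lam lam m‖ ^ 2) * (c ^ 2 / D)) ≤ K := h10
  set T := ∑ m ∈ S, ‖Lam lam m‖ ^ 2 with hT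
  have h12 : T * (κ.toReal * c ^ 2 * X ^ s) ≤ K * D := by
    have : κ.toReal * X ^ s * (T * (c ^ 2 / D)) = T * (κ.toReal * c ^ 2 * X ^ s) / D := by
      ring
    rw [this, div_le_iff₀ hD0] at h11
    exact h11
  have h13 : K * D ≤ (K + 1) * D := by gcongr; linarith
  have h14 : (K + 1) / (κ.toReal * c ^ 2) * (1 + η) ^ (s + 1) * X =
      (K + 1) * D / (κ.toReal * c ^ 2 * X ^ s) := by
    rw [hD, mul_pow]
    field_simp
    ring
  rw [h14, le_div_iff₀ (by positivity)]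
  exact h12.trans h13

end Pool.Agent.RS
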