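import Mathlib

/-!
# Bounded Hecke eigenforms on `GL_n(ℝ)`

(MP_ef641d_nt.)  Classical automorphic forms on `GL_n(ℝ)` of level `N`, their Whittaker
coefficients, and the Hecke operators `T_p`.
-/

set_option autoImplicit false

namespace Pool.Agent.RS.Main

open MeasureTheory

/-- The upper triangular unipotent matrix with entries `x i j` for `i < j`. -/
def unipotent {n : ℕ} (x : Fin n → Fin n → ℝ) : Matrix (Fin n) (Fin n) ℝ :=
  Matrix.of fun i j => if i < j then x i j else if i = j then 1 else 0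

/-- The first Whittaker coefficient of `φ`: the integral of
`φ(u g) e(-(u₁₂ + u₂₃ + ... + u_{n-1,n}))` over the upper triangular unipotent matrices `u` with
entries in `[0, 1)` (a fundamental domain for the integral ones; the coordinates `x i j` with
`j ≤ i` do not matter). -/
noncomputable def whittaker {n : ℕ} (φ : Matrix (Fin n) (Fin n) ℝ → ℂ)
    (g : Matrix (Fin n) (Fin n) ℝ) : ℂ :=
  ∫ x : Fin n → Fin n → ℝ in {x | ∀ i j, 0 ≤ x i j ∧ x i j < 1},
    φ (unipotent x * g) * Complex.exp (2 * Real.pi * Complex.I *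
      ((-(∑ i : Fin n, ∑ j : Fin n, if (i : ℕ) + 1 = (j : ℕ) then x i j else 0) : ℝ) : ℂ))

/-- The integral matrix with diagonal `p, ..., p, 1, p, ..., p` (the `1` in row `j`) and further
entries `b k` at the places `(j, k)`, `k ≠ j`. -/
def heckeMatrix {n : ℕ} (p : ℕ) (j : Fin n) (b : Fin n → ℕ) : Matrix (Fin n) (Fin n) ℝ :=
  Matrix.of fun i k => if i = j then (if k = j then 1 else (b k : ℝ))
    else if i = k then (p : ℝ) else 0

/-- The Hecke operator `T_p` at the level `N` with nebentypus `χ` (`p` prime to `N`):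
the sum of `φ(δ g)` over the representatives `δ = heckeMatrix p j b`, `0 ≤ b k < p` for `k > j`
and `b k = 0` for `k < j`, of the double coset of `diag(1, p, ..., p)`; the representative
`diag(p, ..., p, 1)` has the factor `χ p`. -/
noncomputable def heckeT {n : ℕ} (p : ℕ) (c : ℂ) (φ : Matrix (Fin n) (Fin n) ℝ → ℂ)
    (g : Matrix (Fin n) (Fin n) ℝ) : ℂ :=
  ∑ j : Fin n, (if (j : ℕ) + 1 = n then c else 1) *
    ∑ b ∈ Fintype.piFinset (fun k : Fin n => if j < k then Finset.range p else {0}),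
      φ (heckeMatrix p j b * g)

/-- `φ` is a bounded automorphic form on `GL_n(ℝ)` of level `N` and nebentypus `χ`, invariant
under positive scalars, with nonzero first Whittaker coefficient, and an eigenfunction of all
Hecke operators `T_p`, `p` prime to `N`, with eigenvalue `p^{(n-1)/2} λ_p`.  Only the values of
`φ` at invertible matrices matter. -/
structure BoundedEigenform (n N : ℕ) (χ : DirichletCharacter ℂ N)
    (φ : Matrix (Fin n) (Fin n) ℝ → ℂ) (lam : ℕ → ℂ) : Prop where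
  continuous : ContinuousOn φ {g | g.det ≠ 0}
  bounded : ∃ M : ℝ, ∀ g : Matrix (Fin n) (Fin n) ℝ, g.det ≠ 0 → ‖φ g‖ ≤ M
  scalar : ∀ (t : ℝ) (g : Matrix (Fin n) (Fin n) ℝ), 0 < t → g.det ≠ 0 → φ (t • g) = φ g
  level : ∀ (l : Fin n), (l : ℕ) + 1 = n → ∀ γ : Matrix.SpecialLinearGroup (Fin n) ℤ,
    (∀ k : Fin n, k ≠ l → (N : ℤ) ∣ γ.1 l k) → ∀ g : Matrix (Fin n) (Fin n) ℝ, g.det ≠ 0 →
      φ (γ.1.map (fun z : ℤ => (z : ℝ)) * g) = χ (γ.1 l l) * φ g
  generic : ∃ g : Matrix (Fin n) (Fin n) ℝ, g.det ≠ 0 ∧ whittaker φ g ≠ 0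
  hecke : ∀ p : ℕ, p.Prime → ¬ p ∣ N → ∀ g : Matrix (Fin n) (Fin n) ℝ, g.det ≠ 0 →
    heckeT p (χ p) φ g = ((√(p : ℝ) : ℝ) : ℂ) ^ (n - 1) * lam p * φ g

/-- `z` is a root of unity. -/
def IsRU (z : ℂ) : Prop := ∃ m : ℕ, 0 < m ∧ z ^ m = 1

/-- `z` is a sum of `n` roots of unity. -/
def IsSumRU (n : ℕ) (z : ℂ) : Prop := ∃ f : Fin n → ℂ, (∀ i, IsRU (f i)) ∧ ∑ i, f i = z

/-- The sum of `p^{-s}` over the primes `p` in `S`, for `s > 1`. -/
noncomputable def primeSum (S : Set ℕ) (s : ℝ) : ℝ :=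
  ∑' p : Nat.Primes, S.indicator (fun q : ℕ => (q : ℝ) ^ (-s)) p

/-- The primes in `S` have lower Dirichlet density at least `δ`, with a bounded error term:
`∑_{p ∈ S} p^{-s} ≥ δ log (1 / (s - 1)) - O(1)` for `s > 1`. -/
def DirichletGE (S : Set ℕ) (δ : ℝ) : Prop :=
  ∃ C : ℝ, ∀ s : ℝ, 1 < s → δ * Real.log (1 / (s - 1)) - C ≤ primeSum S s

end Pool.Agent.RS.Main
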