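import Pool.Agent.Lib_helper54.RS.Combine

/-!
Sums over primes: weighted upper bounds and comparison.
-/

set_option autoImplicit false

namespace Pool.Agent.RS

open MeasureTheory Filter Topology
open Pool.Agent.TS

/-- `∑_{p ∈ S} p^{-s}` over the primes in `S` -/
noncomputable def primeSum (S : Set ℕ) (s : ℝ) : ℝ :=
  ∑' p : Nat.Primes, S.indicator (fun q : ℕ => (q : ℝ) ^ (-s)) p

theorem pow_nonneg' (s : ℝ) (q : ℕ) : 0 ≤ (q : ℝ) ^ (-s) := Real.rpow_nonneg (Nat.cast_nonneg q) _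

theorem summable_ind {s : ℝ} (hs : 1 < s) (S : Set ℕ) :
    Summable fun p : Nat.Primes => S.indicator (fun q : ℕ => (q : ℝ) ^ (-s)) p := by
  apply (summable_primes hs).of_nonneg_of_le
  · intro p; exact Set.indicator_nonneg (fun q _ => pow_nonneg' s q) _
  · intro p; exact Set.indicator_le_self' (fun q _ => pow_nonneg' s q) _

theorem primeSum_nonneg (S : Set ℕ) (s : ℝ) : 0 ≤ primeSum S s :=
  tsum_nonneg fun p => Set.indicator_nonneg (fun q _ => pow_nonneg' s q) _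

theorem primeSum_mono {S T : Set ℕ} {s : ℝ} (hs : 1 < s)
    (h : ∀ p : ℕ, p.Prime → p ∈ S → p ∈ T) : primeSum S s ≤ primeSum T s := by
  apply (summable_ind hs S).tsum_le_tsum _ (summable_ind hs T)
  intro p
  by_cases hp : (p : ℕ) ∈ S
  · rw [Set.indicator_of_mem hp, Set.indicator_of_mem (h p p.2 hp)]
  · rw [Set.indicator_of_notMem hp]
    exact Set.indicator_nonneg (fun q _ => pow_nonneg' s q) _

theorem primeSum_union {S T : Set ℕ} {s : ℝ} (hs : 1 < s) (h : ∀ p, p ∈ S → p ∉ T) :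
    primeSum (S ∪ T) s = primeSum S s + primeSum T s := by
  unfold primeSum
  rw [← (summable_ind hs S).tsum_add (summable_ind hs T)]
  congr 1
  funext p
  by_cases hp : (p : ℕ) ∈ S
  · have hT := h _ hp
    rw [Set.indicator_of_mem (Set.mem_union_left _ hp), Set.indicator_of_mem hp,
      Set.indicator_of_notMem hT, add_zero]
  · by_cases hT : (p : ℕ) ∈ T
    · rw [Set.indicator_of_mem (Set.mem_union_right _ hT), Set.indicator_of_notMem hp,
        Set.indicator_of_mem hT, zero_add]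
    · rw [Set.indicator_of_notMem (by simp [hp, hT]), Set.indicator_of_notMem hp,
        Set.indicator_of_notMem hT, zero_add]

theorem primeSum_dvd {N : ℕ} (hN : N ≠ 0) {s : ℝ} (hs : 1 < s) :
    primeSum {p | p ∣ N} s ≤ N.primeFactors.card := by
  apply (summable_ind hs _).tsum_le_of_sum_le
  intro P
  classical
  have h2 : ∑ p ∈ P, ({p | p ∣ N} : Set ℕ).indicator (fun q : ℕ => (q : ℝ) ^ (-s)) (p : ℕ) =
      ∑ q ∈ (P.filter fun p : Nat.Primes => (p : ℕ) ∣ N).image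
        (fun p : Nat.Primes => (p : ℕ)), (q : ℝ) ^ (-s) := by
    rw [Finset.sum_image (g := fun p : Nat.Primes => (p : ℕ))
      (fun p _ p' _ h => Nat.Primes.coe_nat_injective h), Finset.sum_filter]
    apply Finset.sum_congr rfl
    intro p _
    simp only [Set.indicator_apply, Set.mem_ofPred_eq]
  rw [h2]
  have h3 : ∑ q ∈ (P.filter fun p : Nat.Primes => (p : ℕ) ∣ N).image
      (fun p : Nat.Primes => (p : ℕ)), (q : ℝ) ^ (-s) ≤ ∑ q ∈ N.primeFactors, (1 : ℝ) := by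
    calc ∑ q ∈ (P.filter fun p : Nat.Primes => (p : ℕ) ∣ N).image
          (fun p : Nat.Primes => (p : ℕ)), (q : ℝ) ^ (-s)
        ≤ ∑ q ∈ (P.filter fun p : Nat.Primes => (p : ℕ) ∣ N).image
          (fun p : Nat.Primes => (p : ℕ)), (1 : ℝ) := by
          apply Finset.sum_le_sum
          intro q hq
          obtain ⟨p, hp, rfl⟩ := Finset.mem_image.1 hq
          apply Real.rpow_le_one_of_one_le_of_nonpos
          · exact_mod_cast p.2.one_lt.le
          · linarith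
      _ ≤ ∑ q ∈ N.primeFactors, (1 : ℝ) := by
          apply Finset.sum_le_sum_of_subset_of_nonneg
          · intro q hq
            obtain ⟨p, hp, rfl⟩ := Finset.mem_image.1 hq
            rw [Finset.mem_filter] at hp
            exact Nat.mem_primeFactors.2 ⟨p.2, hp.2, hN⟩
          · intro q _ _
            exact zero_le_one
  simpa using h3

/-- lower bound for the sum over the primes not dividing `N` -/
theorem primeSum_ge {N : ℕ} (hN : N ≠ 0) : ∃ C : ℝ, ∀ s : ℝ, 1 < s →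
    Real.log (1 / (s - 1)) - C ≤ primeSum {p | ¬ p ∣ N} s := by
  obtain ⟨C0, hC0⟩ := prime_sum_ge
  refine ⟨C0 + N.primeFactors.card, ?_⟩
  intro s hs
  have h1 := hC0 s hs
  have h2 := primeSum_dvd hN hs
  have h3 := primeSum_union (S := {p | ¬ p ∣ N}) (T := {p | p ∣ N}) hs (fun p hp hp' => hp hp')
  have h4 : primeSum ({p | ¬ p ∣ N} ∪ {p | p ∣ N}) s = ∑' p : Nat.Primes, ((p : ℕ) : ℝ) ^ (-s) := by
    unfold primeSum
    congr 1
    funext p
    apply Set.indicator_of_mem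
    by_cases h : (p : ℕ) ∣ N
    · exact Or.inr h
    · exact Or.inl h
  linarith

section
variable {K : Type} [Field K] [NumberField K]

/-- upper bound for weighted sums -/
theorem weighted_sum_le {a : ℕ → K} {N : ℕ}
    (hD : ∀ τ : K →+* ℂ, ∃ D : ℝ, 0 < D ∧ ∀ s : ℝ, 1 < s → s ≤ 2 → ∀ P : Finset ℕ,
      (∀ p ∈ P, p.Prime ∧ ¬ p ∣ N) →
      ∏ p ∈ P, (1 + ‖τ (a p)‖ ^ 2 * (p : ℝ) ^ (-s)) ≤ D / (s - 1))
    {w : ℕ → ℝ} {W : ℝ} (hw0 : ∀ p, 0 ≤ w p) (hwW : ∀ p, w p ≤ W) :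
    ∃ C : ℝ, ∀ s : ℝ, 1 < s → s ≤ 2 → ∀ P : Finset ℕ, (∀ p ∈ P, p.Prime ∧ ¬ p ∣ N ∧
      w p * (Fintype.card (K →+* ℂ) : ℝ) ≤ ∑ τ : K →+* ℂ, ‖τ (a p)‖ ^ 2) →
      ∑ p ∈ P, w p * (p : ℝ) ^ (-s) ≤ Real.log (1 / (s - 1)) + C := by
  choose D hD0 hD using hD
  set d : ℝ := (Fintype.card (K →+* ℂ) : ℝ) with hd
  have hd0 : 0 < d := by
    have : Nonempty (K →+* ℂ) := inferInstance
    exact Nat.cast_pos.2 Fintype.card_pos
  have hW0 : 0 ≤ W := (hw0 0).trans (hwW 0)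
  set Z2 : ℝ := ∑' p : ℕ, (p : ℝ) ^ (-(2 : ℝ)) with hZ2
  have hs2 : Summable fun p : ℕ => (p : ℝ) ^ (-(2 : ℝ)) :=
    Real.summable_nat_rpow.2 (by norm_num)
  refine ⟨(∑ τ, Real.log (D τ) + (W * d) ^ 2 * Z2) / d, ?_⟩
  intro s hs hs2' P hP
  have hPP : ∀ p ∈ P, p.Prime ∧ ¬ p ∣ N := fun p hp => ⟨(hP p hp).1, (hP p hp).2.1⟩
  have hx0 : 0 < s - 1 := by linarith
  have hpow : ∀ p : ℕ, 0 ≤ (p : ℝ) ^ (-s) := fun p => Real.rpow_nonneg (Nat.cast_nonneg p) _
  have hκ0 : ∀ p, 0 ≤ w p * d := fun p => mul_nonneg (hw0 p) hd0.le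
  have h1 : ∏ τ : K →+* ℂ, ∏ p ∈ P, (1 + ‖τ (a p)‖ ^ 2 * (p : ℝ) ^ (-s)) ≤
      ∏ τ : K →+* ℂ, (D τ / (s - 1)) := by
    apply Finset.prod_le_prod
    · intro τ _
      exact Finset.prod_nonneg fun p _ => by
        have := mul_nonneg (sq_nonneg ‖τ (a p)‖) (hpow p)
        linarith
    · intro τ _
      exact hD τ s hs hs2' P hPP
  rw [Finset.prod_comm] at h1
  have h2 : ∏ p ∈ P, (1 + w p * d * (p : ℝ) ^ (-s)) ≤
      ∏ p ∈ P, ∏ τ : K →+* ℂ, (1 + ‖τ (a p)‖ ^ 2 * (p : ℝ) ^ (-s)) := by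
    apply Finset.prod_le_prod
    · intro p _
      have := mul_nonneg (hκ0 p) (hpow p)
      linarith
    · intro p hp
      have h3 := one_add_sum_le (Finset.univ : Finset (K →+* ℂ))
        (f := fun τ => ‖τ (a p)‖ ^ 2 * (p : ℝ) ^ (-s))
        (fun τ _ => mul_nonneg (sq_nonneg _) (hpow p))
      refine le_trans ?_ h3
      rw [← Finset.sum_mul]
      have := mul_le_mul_of_nonneg_right (hP p hp).2.2 (hpow p)
      linarith
  have h4 := h2.trans h1
  have hpos : ∀ p ∈ P, (0 : ℝ) < 1 + w p * d * (p : ℝ) ^ (-s) := fun p _ => by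
    have := mul_nonneg (hκ0 p) (hpow p)
    linarith
  have h5 := Real.log_le_log (Finset.prod_pos hpos) h4
  rw [Real.log_prod (fun p hp => (hpos p hp).ne'),
    Real.log_prod (fun τ _ => (div_pos (hD0 τ) hx0).ne')] at h5
  have h6 : ∑ τ : K →+* ℂ, Real.log (D τ / (s - 1)) =
      ∑ τ : K →+* ℂ, Real.log (D τ) + d * Real.log (1 / (s - 1)) := by
    have : ∀ τ : K →+* ℂ, Real.log (D τ / (s - 1)) =
        Real.log (D τ) + Real.log (1 / (s - 1)) := by
      intro τ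
      rw [← Real.log_mul (hD0 τ).ne' (one_div_pos.2 hx0).ne']
      congr 1
      ring
    simp only [this]
    rw [Finset.sum_add_distrib, Finset.sum_const, Finset.card_univ, nsmul_eq_mul]
  rw [h6] at h5
  have h7 : d * ∑ p ∈ P, w p * (p : ℝ) ^ (-s) - (W * d) ^ 2 * Z2 ≤
      ∑ p ∈ P, Real.log (1 + w p * d * (p : ℝ) ^ (-s)) := by
    have h8 : ∀ p ∈ P, d * (w p * (p : ℝ) ^ (-s)) - (W * d) ^ 2 * (p : ℝ) ^ (-(2 : ℝ)) ≤
        Real.log (1 + w p * d * (p : ℝ) ^ (-s)) := by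
      intro p hp
      have h9 := log_one_add_ge (mul_nonneg (hκ0 p) (hpow p))
      have hp1 : (1 : ℝ) ≤ p := by exact_mod_cast (hP p hp).1.one_lt.le
      have h10 : ((p : ℝ) ^ (-s)) ^ 2 ≤ (p : ℝ) ^ (-(2 : ℝ)) := by
        rw [← Real.rpow_natCast ((p : ℝ) ^ (-s)), ← Real.rpow_mul (Nat.cast_nonneg _)]
        apply Real.rpow_le_rpow_of_exponent_le hp1
        push_cast
        linarith
      have h12 : (w p * d) ^ 2 ≤ (W * d) ^ 2 := by
        have := mul_le_mul_of_nonneg_right (hwW p) hd0.le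
        exact pow_le_pow_left₀ (hκ0 p) this 2
      have h11 : (w p * d) ^ 2 * ((p : ℝ) ^ (-s)) ^ 2 ≤ (W * d) ^ 2 * (p : ℝ) ^ (-(2 : ℝ)) :=
        mul_le_mul h12 h10 (sq_nonneg _) (sq_nonneg _)
      rw [mul_pow] at h9
      linarith
    refine le_trans ?_ (Finset.sum_le_sum h8)
    rw [Finset.sum_sub_distrib, ← Finset.mul_sum, ← Finset.mul_sum]
    have h12 : ∑ p ∈ P, (p : ℝ) ^ (-(2 : ℝ)) ≤ Z2 :=
      hs2.sum_le_tsum _ (fun p _ => Real.rpow_nonneg (Nat.cast_nonneg _) _)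
    have : (W * d) ^ 2 * ∑ p ∈ P, (p : ℝ) ^ (-(2 : ℝ)) ≤ (W * d) ^ 2 * Z2 := by gcongr
    linarith
  have h13 : d * ∑ p ∈ P, w p * (p : ℝ) ^ (-s) ≤
      d * Real.log (1 / (s - 1)) + (∑ τ, Real.log (D τ) + (W * d) ^ 2 * Z2) := by linarith
  rw [← sub_le_iff_le_add', le_div_iff₀ hd0]
  linarith

/-- the sums over three classes of primes with weights `1, u, v` -/
theorem three_classes {a : ℕ → K} {N : ℕ}
    (hD : ∀ τ : K →+* ℂ, ∃ D : ℝ, 0 < D ∧ ∀ s : ℝ, 1 < s → s ≤ 2 → ∀ P : Finset ℕ,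
      (∀ p ∈ P, p.Prime ∧ ¬ p ∣ N) →
      ∏ p ∈ P, (1 + ‖τ (a p)‖ ^ 2 * (p : ℝ) ^ (-s)) ≤ D / (s - 1))
    {U G R : Set ℕ} {u v : ℝ} (hu : 0 ≤ u) (hv : 0 ≤ v)
    (hUG : ∀ p, p ∈ U → p ∉ G) (hUR : ∀ p, p ∈ U → p ∉ R) (hGR : ∀ p, p ∈ G → p ∉ R)
    (hU : ∀ p : ℕ, p.Prime → p ∈ U → ¬ p ∣ N ∧
      (Fintype.card (K →+* ℂ) : ℝ) ≤ ∑ τ : K →+* ℂ, ‖τ (a p)‖ ^ 2)
    (hG : ∀ p : ℕ, p.Prime → p ∈ G → ¬ p ∣ N ∧
      u * (Fintype.card (K →+* ℂ) : ℝ) ≤ ∑ τ : K →+* ℂ, ‖τ (a p)‖ ^ 2)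
    (hR : ∀ p : ℕ, p.Prime → p ∈ R → ¬ p ∣ N ∧
      v * (Fintype.card (K →+* ℂ) : ℝ) ≤ ∑ τ : K →+* ℂ, ‖τ (a p)‖ ^ 2) :
    ∃ C : ℝ, ∀ s : ℝ, 1 < s → s ≤ 2 →
      primeSum U s + u * primeSum G s + v * primeSum R s ≤ Real.log (1 / (s - 1)) + C := by
  classical
  let w : ℕ → ℝ := fun p => if p ∈ U then 1 else if p ∈ G then u else if p ∈ R then v else 0
  have hw0 : ∀ p, 0 ≤ w p := by
    intro p
    simp only [w]
    split_ifs <;> first | exact zero_le_one | exact hu | exact hv | exact le_rfl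
  have hwW : ∀ p, w p ≤ 1 + u + v := by
    intro p
    simp only [w]
    split_ifs <;> linarith
  obtain ⟨C, hC⟩ := weighted_sum_le hD hw0 hwW
  refine ⟨C, ?_⟩
  intro s hs hs2
  have e : primeSum U s + u * primeSum G s + v * primeSum R s =
      ∑' p : Nat.Primes, w p * ((p : ℕ) : ℝ) ^ (-s) := by
    unfold primeSum
    rw [← tsum_mul_left, ← tsum_mul_left, ← (summable_ind hs U).tsum_add
      ((summable_ind hs G).mul_left u), ← ((summable_ind hs U).add
      ((summable_ind hs G).mul_left u)).tsum_add ((summable_ind hs R).mul_left v)]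
    congr 1
    funext p
    simp only [w]
    by_cases h1 : (p : ℕ) ∈ U
    · rw [Set.indicator_of_mem h1, Set.indicator_of_notMem (hUG _ h1),
        Set.indicator_of_notMem (hUR _ h1), if_pos h1]
      ring
    · by_cases h2 : (p : ℕ) ∈ G
      · rw [Set.indicator_of_notMem h1, Set.indicator_of_mem h2,
          Set.indicator_of_notMem (hGR _ h2), if_neg h1, if_pos h2]
        ring
      · by_cases h3 : (p : ℕ) ∈ R
        · rw [Set.indicator_of_notMem h1, Set.indicator_of_notMem h2,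
            Set.indicator_of_mem h3, if_neg h1, if_neg h2, if_pos h3]
          ring
        · rw [Set.indicator_of_notMem h1, Set.indicator_of_notMem h2,
            Set.indicator_of_notMem h3, if_neg h1, if_neg h2, if_neg h3]
          ring
  rw [e]
  have hsm : Summable fun p : Nat.Primes => w p * ((p : ℕ) : ℝ) ^ (-s) := by
    apply ((summable_primes hs).mul_left (1 + u + v)).of_nonneg_of_le
    · intro p; exact mul_nonneg (hw0 _) (pow_nonneg' s _)
    · intro p; exact mul_le_mul_of_nonneg_right (hwW _) (pow_nonneg' s _)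
  apply hsm.tsum_le_of_sum_le
  intro P
  have h1 := hC s hs hs2 ((P.filter fun p : Nat.Primes => w p ≠ 0).image
    (fun p : Nat.Primes => (p : ℕ))) (by
      intro q hq
      obtain ⟨p, hp, rfl⟩ := Finset.mem_image.1 hq
      rw [Finset.mem_filter] at hp
      refine ⟨p.2, ?_⟩
      have hpw := hp.2
      simp only [w] at hpw ⊢
      by_cases h1 : (p : ℕ) ∈ U
      · rw [if_pos h1, one_mul]
        exact hU p p.2 h1
      · by_cases h2 : (p : ℕ) ∈ G
        · rw [if_neg h1, if_pos h2]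
          exact hG p p.2 h2
        · by_cases h3 : (p : ℕ) ∈ R
          · rw [if_neg h1, if_neg h2, if_pos h3]
            exact hR p p.2 h3
          · rw [if_neg h1, if_neg h2, if_neg h3] at hpw
            exact absurd rfl hpw)
  rw [Finset.sum_image (g := fun p : Nat.Primes => (p : ℕ))
    (fun p _ p' _ h => Nat.Primes.coe_nat_injective h)] at h1
  refine le_trans (le_of_eq ?_) h1
  symm
  apply Finset.sum_filter_of_ne
  intro p _ h h0
  apply h
  rw [h0, zero_mul]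

end

end Pool.Agent.RS
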