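import Pool.Agent.Lib_helper54.RS.Recursion

/-!
Every lattice of covolume at most `2` has a basis whose last vector is short; the total mass of
the weight function of `SL_r(ℤ)` is finite.
-/

set_option autoImplicit false

namespace Pool.Agent.RS

open MeasureTheory Matrix
open scoped ENNReal

/-- `v` is a positive multiple of the last row of an integral matrix of determinant one -/
def Goodv {n : ℕ} (v : Fin (n + 1) → ℤ) : Prop :=
  ∃ (δ : SLZ (n + 1)) (g : ℤ), 0 < g ∧ v = g • lrow δ

theorem Goodv.of_vecMul {n : ℕ} {v : Fin (n + 1) → ℤ} (ε : SLZ (n + 1))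
    (h : Goodv (v ᵥ* ε.1)) : Goodv v := by
  obtain ⟨δ, g, hg, hv⟩ := h
  refine ⟨δ * ε⁻¹, g, hg, ?_⟩
  have h1 : v = (v ᵥ* ε.1) ᵥ* (ε⁻¹).1 := by
    rw [Matrix.vecMul_vecMul]
    have : ε.1 * (ε⁻¹).1 = 1 := congrArg Subtype.val (mul_inv_cancel ε)
    rw [this, Matrix.vecMul_one]
  rw [h1, hv, lrow_mul, Matrix.smul_vecMul]

theorem vecMul_transvection {n : ℕ} (v : Fin n → ℤ) (i j : Fin n) (c : ℤ) (k : Fin n) :
    (v ᵥ* Matrix.transvection i j c) k = v k + if k = j then v i * c else 0 := by
  rw [Matrix.transvection, Matrix.vecMul_add, Matrix.vecMul_one, Pi.add_apply]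
  congr 1
  simp only [Matrix.vecMul, dotProduct, Matrix.single, Matrix.of_apply]
  by_cases hk : k = j
  · subst hk
    simp
  · rw [if_neg hk]
    apply Finset.sum_eq_zero
    intro x _
    rw [if_neg (fun h => hk h.2.symm), mul_zero]

theorem Goodv.of_trans {n : ℕ} {v : Fin (n + 1) → ℤ} {i j : Fin (n + 1)} (hij : i ≠ j) (c : ℤ)
    (h : Goodv (fun k => v k + if k = j then v i * c else 0)) : Goodv v := by
  apply Goodv.of_vecMul (⟨Matrix.transvection i j c, Matrix.det_transvection_of_ne i j hij c⟩)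
  have : (v ᵥ* Matrix.transvection i j c) = fun k => v k + if k = j then v i * c else 0 := by
    ext k
    rw [vecMul_transvection]
  show Goodv (v ᵥ* Matrix.transvection i j c)
  rw [this]
  exact h

theorem good_last {n : ℕ} {a : ℤ} (ha : 0 < a) :
    Goodv (fun k => if k = Fin.last n then a else 0) := by
  refine ⟨1, a, ha, ?_⟩
  ext k
  simp [lrow, Matrix.one_apply, eq_comm]

/-- moving a multiple of a basis vector -/
theorem good_move {n : ℕ} {a : ℤ} {i j : Fin (n + 1)} (hij : i ≠ j)
    (h : Goodv (fun k => if k = j then a else 0)) : Goodv (fun k => if k = i then a else 0) := by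
  apply Goodv.of_trans hij 1
  apply Goodv.of_trans hij.symm (-1)
  convert! h using 2 with k
  by_cases h1 : k = i
  · subst h1
    simp [hij, hij.symm]
  · by_cases h2 : k = j
    · subst h2
      simp [hij.symm, h1]
    · simp [h1, h2]

theorem good_neg {n : ℕ} {a : ℤ} {i j : Fin (n + 1)} (hij : i ≠ j)
    (h : Goodv (fun k => if k = j then -a else 0)) : Goodv (fun k => if k = i then a else 0) := by
  apply Goodv.of_trans hij (-1)
  apply Goodv.of_trans hij.symm 1
  convert! h using 2 with k
  by_cases h1 : k = i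
  · subst h1
    simp [hij, hij.symm]
  · by_cases h2 : k = j
    · subst h2
      simp [hij.symm, h1]
    · simp [h1, h2]

theorem good_single {n : ℕ} {a : ℤ} (ha : a ≠ 0) (i : Fin (n + 2)) :
    Goodv (fun k => if k = i then a else 0) := by
  have h0 : (0 : Fin (n + 2)) ≠ Fin.last (n + 1) := (Fin.last_pos' (n := n + 1)).ne
  have pos : ∀ b : ℤ, 0 < b → ∀ i : Fin (n + 2), Goodv (fun k => if k = i then b else 0) := by
    intro b hb i
    by_cases hi : i = Fin.last (n + 1)
    · subst hi
      exact good_last hb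
    · exact good_move hi (good_last hb)
  rcases lt_or_gt_of_ne ha with h | h
  · by_cases hi : i = 0
    · subst hi
      exact good_neg h0 (pos (-a) (by omega) _)
    · exact good_neg hi (pos (-a) (by omega) _)
  · exact pos a h i

theorem good_all {n : ℕ} (m : ℕ) : ∀ v : Fin (n + 2) → ℤ, v ≠ 0 → ∑ i, (v i).natAbs = m →
    Goodv v := by
  induction m using Nat.strong_induction_on with
  | _ m ih =>
    intro v hv hm
    by_cases h : ∃ i j, i ≠ j ∧ v i ≠ 0 ∧ v j ≠ 0
    · -- choose `i, j` with `|v i| ≤ |v j|`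
      obtain ⟨i, j, hij, hi, hj, hle⟩ : ∃ i j, i ≠ j ∧ v i ≠ 0 ∧ v j ≠ 0 ∧
          (v i).natAbs ≤ (v j).natAbs := by
        obtain ⟨i, j, hij, hi, hj⟩ := h
        rcases le_total (v i).natAbs (v j).natAbs with h1 | h1
        · exact ⟨i, j, hij, hi, hj, h1⟩
        · exact ⟨j, i, hij.symm, hj, hi, h1⟩
      obtain ⟨c, hc⟩ : ∃ c : ℤ, (v j + v i * c).natAbs < (v j).natAbs := by
        rcases le_or_gt 0 (v i * v j) with h1 | h1
        · refine ⟨-1, ?_⟩
          rcases lt_or_gt_of_ne hi with h2 | h2 <;> rcases lt_or_gt_of_ne hj with h3 | h3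
          · omega
          · nlinarith
          · nlinarith
          · omega
        · refine ⟨1, ?_⟩
          rcases lt_or_gt_of_ne hi with h2 | h2 <;> rcases lt_or_gt_of_ne hj with h3 | h3
          · nlinarith
          · omega
          · omega
          · nlinarith
      apply Goodv.of_trans hij c
      set v' : Fin (n + 2) → ℤ := fun k => v k + if k = j then v i * c else 0 with hv'
      have h4 : ∑ k, (v' k).natAbs < m := by
        rw [← hm]
        apply Finset.sum_lt_sum
        · intro k _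
          by_cases hk : k = j
          · subst hk
            simp only [hv', if_true]
            exact hc.le
          · simp [hv', hk]
        · exact ⟨j, Finset.mem_univ j, by simpa [hv'] using hc⟩
      have h5 : v' ≠ 0 := by
        intro h6
        have := congrFun h6 i
        simp [hv', hij] at this
        exact hi this
      exact ih _ h4 v' h5 rfl
    · push Not at h
      obtain ⟨i, hi⟩ := Function.ne_iff.1 hv
      have : v = fun k => if k = i then v i else 0 := by
        ext k
        by_cases hk : k = i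
        · rw [hk, if_pos rfl]
        · rw [if_neg hk]
          exact h i k (Ne.symm hk) hi
      rw [this]
      exact good_single hi i

theorem short_vector {r : ℕ} (hr : 1 ≤ r) {A : Mt r} (hA : A ∈ Xs r) :
    ∃ v : Fin r → ℤ, v ≠ 0 ∧ ‖(fun i => (v i : ℝ)) ᵥ* Matrix.of A‖ ≤ 3 := by
  have hd := Xs_det_ne hA
  set f : (Fin r → ℝ) →ₗ[ℝ] (Fin r → ℝ) := Matrix.toLin' (Matrix.of A)ᵀ with hf
  have hfa : ∀ v, f v = v ᵥ* Matrix.of A := by
    intro v
    rw [hf, Matrix.toLin'_apply, Matrix.mulVec_transpose]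
  have hfd : LinearMap.det f = (Matrix.of A).det := by
    rw [hf, LinearMap.det_toLin', Matrix.det_transpose]
  have hfd0 : LinearMap.det f ≠ 0 := by rw [hfd]; exact hd
  set S : Set (Fin r → ℝ) := f ⁻¹' Metric.closedBall 0 3 with hS
  have hsymm : ∀ x ∈ S, -x ∈ S := by
    intro x hx
    simp only [hS, Set.mem_preimage, mem_closedBall_zero_iff, map_neg, norm_neg] at hx ⊢
    exact hx
  have hconv : Convex ℝ S := (convex_closedBall 0 3).linear_preimage f
  have hvol : volume (cube r) * 2 ^ Module.finrank ℝ (Fin r → ℝ) < volume S := by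
    rw [volume_cube, one_mul, Module.finrank_fin_fun, hS,
      Measure.addHaar_preimage_linearMap volume hfd0,
      Real.volume_pi_closedBall _ (by norm_num), hfd, Fintype.card_fin, ← ENNReal.ofReal_mul
      (abs_nonneg _)]
    have h1 : (2 : ℝ≥0∞) ^ r = ENNReal.ofReal (2 ^ r) := by
      rw [ENNReal.ofReal_pow (by norm_num)]
      simp
    rw [h1, ENNReal.ofReal_lt_ofReal_iff_of_nonneg (by positivity)]
    have h2 : (1 : ℝ) / 2 ≤ |((Matrix.of A).det)⁻¹| := by
      rw [abs_inv, one_div]
      exact inv_anti₀ (by positivity) hA.2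
    have h3 : (2 : ℝ) * 3 = 6 := by norm_num
    rw [h3]
    have h4 : (2 : ℝ) ^ r < 1 / 2 * 6 ^ r := by
      have h5 : (6 : ℝ) ^ r = 3 ^ r * 2 ^ r := by rw [← mul_pow]; norm_num
      have h6 : (3 : ℝ) ≤ 3 ^ r := by
        calc (3 : ℝ) = 3 ^ 1 := by norm_num
          _ ≤ 3 ^ r := pow_le_pow_right₀ (by norm_num) hr
      have h7 : (0 : ℝ) < 2 ^ r := by positivity
      nlinarith
    exact h4.trans_le (mul_le_mul_of_nonneg_right h2 (by positivity))
  obtain ⟨⟨x, c, hx⟩, hx0, hxS⟩ := exists_ne_zero_mem_lattice_of_measure_mul_two_pow_lt_measure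
    (isAFD_cube r) hsymm hconv hvol
  refine ⟨c, ?_, ?_⟩
  · rintro rfl
    apply hx0
    apply Subtype.ext
    simp only [hx]
    ext i
    simp
  · have h8 : f x ∈ Metric.closedBall (0 : Fin r → ℝ) 3 := hxS
    rw [mem_closedBall_zero_iff, hfa, hx] at h8
    exact h8

theorem short_row {s : ℕ} {A : Mt (s + 2)} (hA : A ∈ Xs (s + 2)) :
    ∃ δ : SLZ (s + 2), ‖lm (toR δ) A (Fin.last (s + 1))‖ ≤ 3 := by
  obtain ⟨v, hv0, hv⟩ := short_vector (by omega) hA
  obtain ⟨δ, g, hg, hvg⟩ := good_all _ v hv0 rfl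
  refine ⟨δ, ?_⟩
  have h1 : lm (toR δ) A (Fin.last (s + 1)) = (fun i => ((lrow δ i : ℤ) : ℝ)) ᵥ* Matrix.of A := by
    ext j
    show (toR δ * Matrix.of A : Matrix _ _ ℝ) (Fin.last (s + 1)) j = _
    rw [Matrix.mul_apply]
    rfl
  have h2 : (fun i => (v i : ℝ)) = (g : ℝ) • fun i => ((lrow δ i : ℤ) : ℝ) := by
    ext i
    rw [hvg]
    simp
  rw [h2, Matrix.smul_vecMul, norm_smul] at hv
  rw [h1]
  have h3 : (1 : ℝ) ≤ ‖(g : ℝ)‖ := by
    rw [Real.norm_eq_abs, abs_of_pos (by exact_mod_cast hg)]
    exact_mod_cast hg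
  nlinarith [norm_nonneg ((fun i => ((lrow δ i : ℤ) : ℝ)) ᵥ* Matrix.of A)]

theorem volume_Xs_one : volume (Xs 1) ≠ ⊤ := by
  have h1 : Xs 1 ⊆ Metric.closedBall (0 : Mt 1) 2 := by
    intro A hA
    rw [mem_closedBall_zero_iff, pi_norm_le_iff_of_nonneg (by norm_num)]
    intro i
    rw [pi_norm_le_iff_of_nonneg (by norm_num)]
    intro j
    have h2 := hA.2
    rw [Matrix.det_fin_one] at h2
    have hi : i = 0 := Subsingleton.elim _ _
    have hj : j = 0 := Subsingleton.elim _ _
    subst hi hj
    exact h2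
  exact ne_top_of_le_ne_top (measure_closedBall_lt_top).ne (measure_mono h1)

theorem mass_ne_top (s : ℕ) : mass s ≠ ⊤ := by
  induction s with
  | zero =>
    unfold mass
    have h1 : ∫⁻ A in Xs 1, wG A ≤ ∫⁻ A in Xs 1, 1 :=
      lintegral_mono fun A => wt_le_one _ A
    refine ne_top_of_le_ne_top ?_ h1
    rw [lintegral_const, one_mul, Measure.restrict_apply_univ]
    exact volume_Xs_one
  | succ s ih =>
    have h1 := mass_succ (s := s) (C := 3) (fun A hA => short_row hA)
    exact ne_top_of_le_ne_top (ENNReal.mul_ne_top measure_closedBall_lt_top.ne ih) h1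

end Pool.Agent.RS
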