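import Pool.Agent.Lib_helper54.RS.Fourier

/-!
The unfolding recursion of the Rankin-Selberg method (upper bound), from `GL_{s+3}` to
`GL_{s+2}`.
-/

set_option autoImplicit false

namespace Pool.Agent.RS

open MeasureTheory Matrix
open scoped ENNReal

/-- the action of the integral mirabolic group on pairs `(A, b)` -/
def actT {r : ℕ} (q : SLZ r × (Fin r → ℤ)) (z : Mt r × (Fin r → ℝ)) : Mt r × (Fin r → ℝ) :=
  (lm (toR q.1) z.1, toR q.1 *ᵥ z.2 + fun i => (q.2 i : ℝ))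

/-- inversion in the integral mirabolic group -/
def invQ (r : ℕ) : (SLZ r × (Fin r → ℤ)) ≃ (SLZ r × (Fin r → ℤ)) where
  toFun q := (q.1⁻¹, -((q.1⁻¹).1 *ᵥ q.2))
  invFun q := (q.1⁻¹, -((q.1⁻¹).1 *ᵥ q.2))
  left_inv := by
    rintro ⟨γ, c⟩
    simp only [inv_inv, Matrix.mulVec_neg, neg_neg, Matrix.mulVec_mulVec]
    congr 1
    have : γ.1 * (γ⁻¹).1 = 1 := congrArg Subtype.val (mul_inv_cancel γ)
    rw [this, Matrix.one_mulVec]
  right_inv := by
    rintro ⟨γ, c⟩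
    simp only [inv_inv, Matrix.mulVec_neg, neg_neg, Matrix.mulVec_mulVec]
    congr 1
    have : γ.1 * (γ⁻¹).1 = 1 := congrArg Subtype.val (mul_inv_cancel γ)
    rw [this, Matrix.one_mulVec]

theorem actT_inv {r : ℕ} (q : SLZ r × (Fin r → ℤ)) (z : Mt r × (Fin r → ℝ)) :
    actT q (actT (invQ r q) z) = z := by
  obtain ⟨γ, c⟩ := q
  obtain ⟨A, b⟩ := z
  unfold actT invQ
  simp only [Equiv.coe_fn_mk]
  rw [lm_lm, toR_mul_inv, lm_one, Matrix.mulVec_add, Matrix.mulVec_mulVec, toR_mul_inv,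
    Matrix.one_mulVec, toR_mulVec_int]
  congr 1
  have : γ.1 *ᵥ -((γ⁻¹).1 *ᵥ c) = -c := by
    rw [Matrix.mulVec_neg, Matrix.mulVec_mulVec]
    have : γ.1 * (γ⁻¹).1 = 1 := congrArg Subtype.val (mul_inv_cancel γ)
    rw [this, Matrix.one_mulVec]
  rw [this]
  ext i
  simp

theorem mp_actT {r : ℕ} (q : SLZ r × (Fin r → ℤ)) :
    MeasurePreserving (actT q) ((volume.restrict (Xs r)).prod volume)
      ((volume.restrict (Xs r)).prod volume) := by
  have h1 := mp_lm_Xs q.1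
  have h2 : MeasurePreserving (fun b : Fin r → ℝ => toR q.1 *ᵥ b + fun i => (q.2 i : ℝ))
      volume volume :=
    (measurePreserving_add_right volume (fun i => (q.2 i : ℝ))).comp
      (mp_mulVec _ (det_toR q.1))
  exact h1.prod h2

theorem tsum_cube {r : ℕ} (x : Fin r → ℝ) :
    ∑' c : Fin r → ℤ, (cube r).indicator (fun _ => (1 : ℝ≥0∞)) (x + fun i => (c i : ℝ)) = 1 := by
  obtain ⟨⟨_, c, rfl⟩, hg, huniq⟩ := exists_unique_latt x
  rw [tsum_eq_single c]
  · rw [Set.indicator_of_mem]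
    rw [add_comm]
    exact hg
  · intro d hd
    rw [Set.indicator_of_notMem]
    intro h
    rw [add_comm] at h
    have h1 := huniq ⟨fun i => (d i : ℝ), ⟨d, rfl⟩⟩ h
    have h2 : (fun i => (d i : ℝ)) = fun i => (c i : ℝ) := congrArg Subtype.val h1
    apply hd
    ext i
    have := congrFun h2 i
    exact_mod_cast this

theorem det_asm {s : ℕ} {w : Fin (s + 2) → ℝ} (hw0 : w (Fin.last (s + 1)) ≠ 0) (A : Mt (s + 1))
    (b : Fin (s + 1) → ℝ) : (Matrix.of (asm w A b)).det = (Matrix.of A).det := by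
  have : (Matrix.of (asm w A b) : Matrix _ _ ℝ) = emb (Matrix.of A) b * hw w := rfl
  rw [this, Matrix.det_mul, det_emb, det_hw w hw0, mul_one]

theorem asm_mem {s : ℕ} {w : Fin (s + 2) → ℝ} (hw0 : w (Fin.last (s + 1)) ≠ 0) (A : Mt (s + 1))
    (b : Fin (s + 1) → ℝ) : asm w A b ∈ Xs (s + 2) ↔ A ∈ Xs (s + 1) := by
  unfold Xs
  rw [Set.mem_ofPred_eq, Set.mem_ofPred_eq, det_asm hw0]

theorem measurable_asm {s : ℕ} (w : Fin (s + 2) → ℝ) :
    Measurable fun z : Mt (s + 1) × (Fin (s + 1) → ℝ) => asm w z.1 z.2 :=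
  (continuous_cm (hw w)).measurable

theorem C2 {s : ℕ} (F : Mt (s + 2) → ℝ≥0∞) (hF : Measurable F)
    (hFi : ∀ (γ : SLZ (s + 1)) (c : Fin (s + 1) → ℤ) (Y : Mt (s + 2)),
      F (lm (toR (par γ c)) Y) = F Y) :
    ∫⁻ Y in Xs (s + 2), wP Y * F Y =
      ∫⁻ w : Fin (s + 2) → ℝ, ∫⁻ A in Xs (s + 1), wG A * ∫⁻ b in cube (s + 1), F (asm w A b) := by
  have hm : Measurable fun Y : Mt (s + 2) => wP Y * F Y := measurable_wP.mul hF
  rw [← lintegral_indicator (measurableSet_Xs (s + 2)),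
    lintegral_asm _ (hm.indicator (measurableSet_Xs (s + 2)))]
  apply lintegral_congr_ae
  filter_upwards [ae_last_ne] with w hw0
  -- the inner integral
  have e1 : ∀ A b, (Xs (s + 2)).indicator (fun Y => wP Y * F Y) (asm w A b) =
      (Xs (s + 1)).indicator (fun A => wP (asm w A b) * F (asm w A b)) A := by
    intro A b
    by_cases h : A ∈ Xs (s + 1)
    · rw [Set.indicator_of_mem h, Set.indicator_of_mem ((asm_mem hw0 A b).2 h)]
    · rw [Set.indicator_of_notMem h, Set.indicator_of_notMem (fun h2 => h ((asm_mem hw0 A b).1 h2))]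
  have e2 : ∀ A, ∫⁻ b, (Xs (s + 2)).indicator (fun Y => wP Y * F Y) (asm w A b) =
      (Xs (s + 1)).indicator (fun A => ∫⁻ b, wP (asm w A b) * F (asm w A b)) A := by
    intro A
    simp only [e1]
    by_cases h : A ∈ Xs (s + 1)
    · simp only [Set.indicator_of_mem h]
    · simp only [Set.indicator_of_notMem h, lintegral_zero]
  simp only [e2]
  rw [lintegral_indicator (measurableSet_Xs (s + 1))]
  -- two weights
  set μ' := ((volume : Measure (Mt (s + 1))).restrict (Xs (s + 1))).prod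
    (volume : Measure (Fin (s + 1) → ℝ)) with hμ'
  have mω : Measurable fun z : Mt (s + 1) × (Fin (s + 1) → ℝ) => wP (asm w z.1 z.2) :=
    measurable_wP.comp (measurable_asm w)
  have mF : Measurable fun z : Mt (s + 1) × (Fin (s + 1) → ℝ) => F (asm w z.1 z.2) :=
    hF.comp (measurable_asm w)
  have mω' : Measurable fun z : Mt (s + 1) × (Fin (s + 1) → ℝ) =>
      wG z.1 * (cube (s + 1)).indicator (fun _ => (1 : ℝ≥0∞)) z.2 :=
    (measurable_wG.comp measurable_fst).mul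
      ((measurable_const.indicator (measurableSet_cube _)).comp measurable_snd)
  have hX : ∀ᵐ z ∂μ', z.1 ∈ Xs (s + 1) :=
    Measure.quasiMeasurePreserving_fst.ae (ae_Xs (s + 1))
  have hT : ∀ (q : SLZ (s + 1) × (Fin (s + 1) → ℤ)) (z : Mt (s + 1) × (Fin (s + 1) → ℝ)),
      asm w (actT q z).1 (actT q z).2 = lm (toR (par q.1 q.2)) (asm w z.1 z.2) := by
    intro q z
    rw [asm_eq, asm_eq, lm_cm]
    rfl
  have key := two_weights (μ := μ') (ι := SLZ (s + 1) × (Fin (s + 1) → ℤ)) actT mp_actT (invQ _)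
    actT_inv _ _ _ mω mω' mF (fun q z => by
      show F (asm w (actT q z).1 (actT q z).2) = F (asm w z.1 z.2)
      rw [hT, hFi])
    (by
      filter_upwards [hX] with z hz
      simp only [hT]
      exact tsum_wP' _ (by rw [det_asm hw0]; exact Xs_det_ne hz))
    (by
      filter_upwards [hX] with z hz
      rw [ENNReal.tsum_prod']
      unfold actT
      simp only [ENNReal.tsum_mul_left, tsum_cube, mul_one]
      exact tsum_wG _ (Xs_det_ne hz))
  have k1 : ∫⁻ z, wP (asm w z.1 z.2) * F (asm w z.1 z.2) ∂μ' =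
      ∫⁻ A in Xs (s + 1), ∫⁻ b, wP (asm w A b) * F (asm w A b) :=
    lintegral_prod _ (mω.mul mF).aemeasurable
  have k2 : ∫⁻ z, wG z.1 * (cube (s + 1)).indicator (fun _ => (1 : ℝ≥0∞)) z.2 *
      F (asm w z.1 z.2) ∂μ' = ∫⁻ A in Xs (s + 1), ∫⁻ b,
        wG A * (cube (s + 1)).indicator (fun _ => (1 : ℝ≥0∞)) b * F (asm w A b) :=
    lintegral_prod _ (mω'.mul mF).aemeasurable
  rw [k1, k2] at key
  refine Eq.trans key ?_
  apply lintegral_congr
  intro A
  have e3 : ∀ b, wG A * (cube (s + 1)).indicator (fun _ => (1 : ℝ≥0∞)) b * F (asm w A b) =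
      wG A * (cube (s + 1)).indicator (fun b => F (asm w A b)) b := by
    intro b
    by_cases h : b ∈ cube (s + 1)
    · simp only [Set.indicator_of_mem h, mul_one]
    · simp only [Set.indicator_of_notMem h, mul_zero, zero_mul]
  simp only [e3]
  rw [lintegral_const_mul, lintegral_indicator (measurableSet_cube _)]
  exact (mF.comp measurable_prodMk_left).indicator (measurableSet_cube _)

theorem C1 {r : ℕ} (G : (Fin (r + 1) → ℤ) → Mt (r + 1) → ℝ≥0∞) (hG : ∀ v, Measurable (G v))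
    (hGi : ∀ (δ : SLZ (r + 1)) v A, G v (lm (toR δ) A) = G (v ᵥ* δ.1) A) :
    ∫⁻ A in Xs (r + 1), wP A * G (Pi.single (Fin.last r) 1) A ≤
      ∫⁻ A in Xs (r + 1), wG A * ∑' v, G v A := by
  rw [← unfold_SL (fun A => wP A * G (Pi.single (Fin.last r) 1) A)
    (measurable_wP.mul (hG _))]
  apply lintegral_mono_ae
  filter_upwards [ae_Xs (r + 1)] with A hA
  gcongr
  simp only [hGi, Matrix.single_one_vecMul]
  exact tsum_wP_le A (Xs_det_ne hA) (fun v => G v A)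

/-- the weighted `L²` norm on the mirabolic group -/
noncomputable def En (s : ℕ) (Ψ : Mt (s + 2) → ℂ) (h : Matrix (Fin (s + 2)) (Fin (s + 2)) ℝ) :
    ℝ≥0∞ :=
  ∫⁻ A in Xs (s + 1), wG A * ∫⁻ b in cube (s + 1), ‖Ψ (cm h A b)‖ₑ ^ 2

theorem En_rec1 {s : ℕ} {Ψ : Mt (s + 2) → ℂ} (hΨ : Measurable Ψ) {M : ℝ} (hM : ∀ Y, ‖Ψ Y‖ ≤ M)
    (hP : PInv Ψ) (h : Matrix (Fin (s + 2)) (Fin (s + 2)) ℝ) :
    ∫⁻ A in Xs (s + 1), wP A * ‖Fc Ψ h (Pi.single (Fin.last s) 1) A‖ₑ ^ 2 ≤ En s Ψ h := by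
  have hm : ∀ v, Measurable fun A => ‖Fc Ψ h v A‖ₑ ^ 2 := fun v =>
    (measurable_Fc hΨ h v).enorm.pow_const 2
  have hi : ∀ (δ : SLZ (s + 1)) (v : Fin (s + 1) → ℤ) (A : Mt (s + 1)),
      ‖Fc Ψ h v (lm (toR δ) A)‖ₑ ^ 2 = ‖Fc Ψ h (v ᵥ* δ.1) A‖ₑ ^ 2 := by
    intro δ v A
    rw [Fc_lm hP]
  have h0 := C1 (fun v A => ‖Fc Ψ h v A‖ₑ ^ 2) hm hi
  refine h0.trans ?_
  have h1 : ∀ A, Measurable fun b : Fin (s + 1) → ℝ => cm h A b := fun A =>
    ((continuous_cm h).comp (Continuous.prodMk_right A)).measurable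
  have h2 : ∀ A, ∑' v, ‖Fc Ψ h v A‖ₑ ^ 2 ≤ ∫⁻ b in cube (s + 1), ‖Ψ (cm h A b)‖ₑ ^ 2 := fun A =>
    bessel (F := fun b => Ψ (cm h A b)) (hΨ.comp (h1 A)) (fun b => hM _)
  exact lintegral_mono fun A => mul_le_mul_right (h2 A) _

theorem En_rec2 {s : ℕ} {Ψ : Mt (s + 2) → ℂ} (hΨ : Measurable Ψ) (hP : PInv Ψ) :
    ∫⁻ w : Fin (s + 2) → ℝ, En s Ψ (hw w) = ∫⁻ Y in Xs (s + 2), wP Y * ‖Ψ Y‖ₑ ^ 2 := by
  have hm : Measurable fun Y => ‖Ψ Y‖ₑ ^ 2 := hΨ.enorm.pow_const 2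
  have hi : ∀ (γ : SLZ (s + 1)) (c : Fin (s + 1) → ℤ) (Y : Mt (s + 2)),
      ‖Ψ (lm (toR (par γ c)) Y)‖ₑ ^ 2 = ‖Ψ Y‖ₑ ^ 2 := by
    intro γ c Y
    rw [hP]
  exact (C2 (fun Y => ‖Ψ Y‖ₑ ^ 2) hm hi).symm

theorem En_rec {s : ℕ} {Ψ : Mt (s + 1 + 2) → ℂ} (hΨ : Measurable Ψ) {M : ℝ}
    (hM : ∀ Y, ‖Ψ Y‖ ≤ M) (hP : PInv Ψ)
    (h : Matrix (Fin (s + 1 + 2)) (Fin (s + 1 + 2)) ℝ) :
    ∫⁻ w : Fin (s + 2) → ℝ, En s (Fc Ψ h (Pi.single (Fin.last (s + 1)) 1)) (hw w) ≤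
      En (s + 1) Ψ h := by
  rw [En_rec2 (measurable_Fc hΨ h _) (PInv_Fc hP h)]
  exact En_rec1 hΨ hM hP h

/-- the total mass of the weight of `SL_{s+1}(ℤ)` -/
noncomputable def mass (s : ℕ) : ℝ≥0∞ := ∫⁻ A in Xs (s + 1), wG A

theorem En_le {s : ℕ} {Ψ : Mt (s + 2) → ℂ} {M : ℝ} (hM : ∀ Y, ‖Ψ Y‖ ≤ M)
    (h : Matrix (Fin (s + 2)) (Fin (s + 2)) ℝ) :
    En s Ψ h ≤ mass s * ENNReal.ofReal M ^ 2 := by
  unfold En mass
  rw [← lintegral_mul_const _ measurable_wG]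
  apply lintegral_mono
  intro A
  show wG A * ∫⁻ b in cube (s + 1), ‖Ψ (cm h A b)‖ₑ ^ 2 ≤ wG A * ENNReal.ofReal M ^ 2
  gcongr
  calc ∫⁻ b in cube (s + 1), ‖Ψ (cm h A b)‖ₑ ^ 2
      ≤ ∫⁻ b in cube (s + 1), ENNReal.ofReal M ^ 2 := by
        apply lintegral_mono
        intro b
        show ‖Ψ (cm h A b)‖ₑ ^ 2 ≤ ENNReal.ofReal M ^ 2
        gcongr
        rw [← ofReal_norm]
        exact ENNReal.ofReal_le_ofReal (hM _)
    _ = ENNReal.ofReal M ^ 2 := by
        rw [lintegral_const, Measure.restrict_apply_univ, volume_cube, mul_one]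

theorem mass_succ {s : ℕ} {C : ℝ}
    (hmin : ∀ A ∈ Xs (s + 2), ∃ δ : SLZ (s + 2), ‖lm (toR δ) A (Fin.last (s + 1))‖ ≤ C) :
    mass (s + 1) ≤ volume (Metric.closedBall (0 : Fin (s + 2) → ℝ) C) * mass s := by
  let F : Mt (s + 2) → ℝ≥0∞ := fun A =>
    (Metric.closedBall (0 : Fin (s + 2) → ℝ) C).indicator (fun _ => 1) (A (Fin.last (s + 1)))
  have mB : MeasurableSet (Metric.closedBall (0 : Fin (s + 2) → ℝ) C) :=
    Metric.isClosed_closedBall.measurableSet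
  have mF : Measurable F :=
    (measurable_const.indicator mB).comp (measurable_pi_apply (Fin.last (s + 1)))
  have hlast : ∀ (γ : SLZ (s + 1)) (c : Fin (s + 1) → ℤ) (Y : Mt (s + 2)),
      lm (toR (par γ c)) Y (Fin.last (s + 1)) = Y (Fin.last (s + 1)) := by
    intro γ c Y
    ext j
    show (toR (par γ c) * Matrix.of Y : Matrix _ _ ℝ) (Fin.last (s + 1)) j = _
    rw [Matrix.mul_apply, Fin.sum_univ_castSucc, toR_par]
    simp
  have hC2 := C2 F mF (fun γ c Y => by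
    show Set.indicator _ _ _ = Set.indicator _ _ _
    rw [hlast])
  have h1 : mass (s + 1) ≤ ∫⁻ Y in Xs (s + 2), wP Y * F Y := by
    unfold mass
    rw [← unfold_SL (fun A => wP A * F A) (measurable_wP.mul mF)]
    apply lintegral_mono_ae
    filter_upwards [ae_Xs (s + 2)] with A hA
    obtain ⟨δ, hδ⟩ := hmin A hA
    have h2 : (1 : ℝ≥0∞) ≤ ∑' γ : SLZ (s + 2), wP (lm (toR γ) A) * F (lm (toR γ) A) := by
      have hA' : (Matrix.of (lm (toR δ) A)).det ≠ 0 := by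
        rw [det_of_lm _ (det_toR _)]; exact Xs_det_ne hA
      rw [← tsum_wP' (lm (toR δ) A) hA']
      have hinj : Function.Injective (fun q : SLZ (s + 1) × (Fin (s + 1) → ℤ) =>
          par q.1 q.2 * δ) := fun q q' h => par_injective (mul_right_cancel h)
      refine le_trans (le_of_eq ?_) (ENNReal.tsum_comp_le_tsum_of_injective hinj _)
      congr 1
      funext q
      have e1 : lm (toR (par q.1 q.2 * δ)) A = lm (toR (par q.1 q.2)) (lm (toR δ) A) := by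
        rw [lm_lm, ← toR_mul]
      show _ = wP (lm (toR (par q.1 q.2 * δ)) A) * F (lm (toR (par q.1 q.2 * δ)) A)
      rw [e1]
      have e2 : F (lm (toR (par q.1 q.2)) (lm (toR δ) A)) = 1 := by
        show Set.indicator _ _ _ = _
        rw [hlast, Set.indicator_of_mem]
        rw [mem_closedBall_zero_iff]
        exact hδ
      rw [e2, mul_one]
    calc wG A = wG A * 1 := (mul_one _).symm
      _ ≤ _ := by gcongr
  refine h1.trans ?_
  rw [hC2]
  have h3 : ∀ (w : Fin (s + 2) → ℝ), ∫⁻ A in Xs (s + 1), wG A * ∫⁻ b in cube (s + 1),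
      F (asm w A b) =
      (Metric.closedBall (0 : Fin (s + 2) → ℝ) C).indicator (fun _ => mass s) w := by
    intro w
    have e4 : ∀ A b, F (asm w A b) =
        (Metric.closedBall (0 : Fin (s + 2) → ℝ) C).indicator (fun _ => 1) w := by
      intro A b
      show Set.indicator _ _ (asm w A b (Fin.last (s + 1))) = _
      have : asm w A b (Fin.last (s + 1)) = w := emb_mul_hw_last _ _ _
      rw [this]
    simp only [e4, lintegral_const, Measure.restrict_apply_univ, volume_cube, mul_one]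
    by_cases hw1 : w ∈ Metric.closedBall (0 : Fin (s + 2) → ℝ) C
    · simp only [Set.indicator_of_mem hw1, mul_one]
      rfl
    · simp only [Set.indicator_of_notMem hw1, mul_zero, lintegral_zero]
  simp only [h3]
  rw [lintegral_indicator mB, lintegral_const, Measure.restrict_apply_univ, mul_comm]

end Pool.Agent.RS
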