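import Pool.Agent.Lib_helper54.RS.Weights

/-!
Fourier analysis on the unit cube: Bessel's inequality, invariance under `SL_r(ℤ)`, and the
Fourier coefficients along the mirabolic unipotent radical.
-/

set_option autoImplicit false

namespace Pool.Agent.RS

open MeasureTheory Matrix
open scoped ENNReal ComplexConjugate

/-- `e(x) = exp(2 π i x)` -/
noncomputable def ee (x : ℝ) : ℂ := Complex.exp (2 * Real.pi * Complex.I * (x : ℂ))

theorem ee_zero : ee 0 = 1 := by simp [ee]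

theorem ee_add (x y : ℝ) : ee (x + y) = ee x * ee y := by
  unfold ee
  rw [← Complex.exp_add]
  push_cast
  ring_nf

theorem ee_eq (x : ℝ) : ee x = Complex.exp (((2 * Real.pi * x : ℝ) : ℂ) * Complex.I) := by
  unfold ee
  congr 1
  push_cast
  ring

theorem norm_ee (x : ℝ) : ‖ee x‖ = 1 := by
  rw [ee_eq, Complex.norm_exp_ofReal_mul_I]

theorem conj_ee (x : ℝ) : conj (ee x) = ee (-x) := by
  unfold ee
  rw [← Complex.exp_conj]
  congr 1
  have h2 : conj (2 : ℂ) = 2 := map_ofNat (starRingEnd ℂ) 2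
  simp [h2]

theorem ee_int (k : ℤ) : ee (k : ℝ) = 1 := by
  unfold ee
  rw [Complex.exp_eq_one_iff]
  exact ⟨k, by push_cast; ring⟩

theorem ee_add_int (x : ℝ) (k : ℤ) : ee (x + k) = ee x := by
  rw [ee_add, ee_int, mul_one]

theorem continuous_ee : Continuous ee := by
  unfold ee
  fun_prop

theorem ee_sum {ι : Type*} (s : Finset ι) (f : ι → ℝ) : ee (∑ i ∈ s, f i) = ∏ i ∈ s, ee (f i) := by
  classical
  induction s using Finset.induction_on with
  | empty => simp [ee_zero]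
  | insert a s ha ih => rw [Finset.sum_insert ha, Finset.prod_insert ha, ee_add, ih]

/-- the unit cube -/
def cube (r : ℕ) : Set (Fin r → ℝ) := Set.univ.pi fun _ => Set.Ico 0 1

theorem measurableSet_cube (r : ℕ) : MeasurableSet (cube r) :=
  MeasurableSet.univ_pi fun _ => measurableSet_Ico

theorem volume_cube (r : ℕ) : volume (cube r) = 1 := by
  unfold cube
  rw [volume_pi_pi]
  simp

instance (r : ℕ) : IsProbabilityMeasure (volume.restrict (cube r)) :=
  ⟨by rw [Measure.restrict_apply_univ, volume_cube]⟩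

theorem restrict_cube (r : ℕ) : (volume : Measure (Fin r → ℝ)).restrict (cube r) =
    Measure.pi fun _ => (volume : Measure ℝ).restrict (Set.Ico 0 1) :=
  Measure.restrict_pi_pi _ _

theorem integral_ee (k : ℤ) : ∫ x in Set.Ico (0 : ℝ) 1, ee (k * x) = if k = 0 then 1 else 0 := by
  rw [integral_Ico_eq_integral_Ioc, ← intervalIntegral.integral_of_le zero_le_one]
  split_ifs with h
  · simp [h, ee_zero]
  · have hc : (2 * Real.pi * Complex.I * (k : ℂ)) ≠ 0 := by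
      have : (k : ℂ) ≠ 0 := by exact_mod_cast h
      simp [Real.pi_ne_zero, this]
    have h1 : ∀ x : ℝ, ee (k * x) = Complex.exp (2 * Real.pi * Complex.I * (k : ℂ) * (x : ℂ)) := by
      intro x
      unfold ee
      congr 1
      push_cast
      ring
    simp only [h1]
    rw [integral_exp_mul_complex hc]
    have h2 := ee_int k
    unfold ee at h2
    push_cast at h2
    push_cast
    rw [mul_one, mul_zero, Complex.exp_zero, h2, sub_self, zero_div]

theorem integral_cube_ee {r : ℕ} (v : Fin r → ℤ) :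
    ∫ b in cube r, ee (∑ i, (v i : ℝ) * b i) = if v = 0 then 1 else 0 := by
  rw [restrict_cube]
  simp only [ee_sum]
  rw [integral_fintype_prod_eq_prod (𝕜 := ℂ) (fun i (x : ℝ) => ee ((v i : ℝ) * x))]
  simp only [integral_ee]
  by_cases h : v = 0
  · subst h
    simp
  · obtain ⟨i, hi⟩ := Function.ne_iff.1 h
    rw [if_neg h]
    exact Finset.prod_eq_zero (Finset.mem_univ i) (if_neg hi)

/-- the characters of the torus as functions on the cube -/
noncomputable def chr {r : ℕ} (v : Fin r → ℤ) (b : Fin r → ℝ) : ℂ := ee (∑ i, (v i : ℝ) * b i)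

theorem continuous_chr {r : ℕ} (v : Fin r → ℤ) : Continuous (chr v) :=
  continuous_ee.comp (by fun_prop)

theorem norm_chr {r : ℕ} (v : Fin r → ℤ) (b : Fin r → ℝ) : ‖chr v b‖ = 1 := norm_ee _

theorem chr_mul {r : ℕ} (v w : Fin r → ℤ) (b : Fin r → ℝ) :
    conj (chr v b) * chr w b = chr (w - v) b := by
  unfold chr
  rw [conj_ee, ← ee_add]
  congr 1
  rw [← Finset.sum_neg_distrib, ← Finset.sum_add_distrib]
  apply Finset.sum_congr rfl
  intro i _
  simp only [Pi.sub_apply, Int.cast_sub]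
  ring

theorem memLp_of_bdd {r : ℕ} {F : (Fin r → ℝ) → ℂ} (hF : Measurable F) {M : ℝ}
    (hM : ∀ b, ‖F b‖ ≤ M) : MemLp F 2 (volume.restrict (cube r)) :=
  MemLp.of_bound hF.aestronglyMeasurable M (Filter.Eventually.of_forall hM)

theorem bessel {r : ℕ} {F : (Fin r → ℝ) → ℂ} (hF : Measurable F) {M : ℝ}
    (hM : ∀ b, ‖F b‖ ≤ M) :
    ∑' v : Fin r → ℤ, ‖∫ b in cube r, F b * ee (-(∑ i, (v i : ℝ) * b i))‖ₑ ^ 2 ≤
      ∫⁻ b in cube r, ‖F b‖ₑ ^ 2 := by
  set μ := (volume : Measure (Fin r → ℝ)).restrict (cube r) with hμ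
  have mE : ∀ v : Fin r → ℤ, MemLp (chr v) 2 μ := fun v =>
    memLp_of_bdd (continuous_chr v).measurable (M := 1) fun b => (norm_chr v b).le
  have mF : MemLp F 2 μ := memLp_of_bdd hF hM
  let E : (Fin r → ℤ) → Lp ℂ 2 μ := fun v => (mE v).toLp
  have hE : Orthonormal ℂ E := by
    rw [orthonormal_iff_ite]
    intro v w
    rw [L2.inner_def]
    have h1 : ∫ b, inner ℂ (E v b) (E w b) ∂μ = ∫ b, chr (w - v) b ∂μ := by
      apply integral_congr_ae
      filter_upwards [(mE v).coeFn_toLp, (mE w).coeFn_toLp] with b hb1 hb2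
      rw [hb1, hb2, RCLike.inner_apply, mul_comm]
      exact chr_mul v w b
    rw [h1]
    unfold chr
    rw [hμ, integral_cube_ee]
    by_cases h : v = w
    · simp [h]
    · rw [if_neg h, if_neg]
      intro h2
      exact h (sub_eq_zero.1 h2).symm
  set x : Lp ℂ 2 μ := mF.toLp with hx
  have hin : ∀ v, inner ℂ (E v) x = ∫ b, F b * ee (-(∑ i, (v i : ℝ) * b i)) ∂μ := by
    intro v
    rw [L2.inner_def]
    apply integral_congr_ae
    filter_upwards [(mE v).coeFn_toLp, mF.coeFn_toLp] with b hb1 hb2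
    rw [hb1, hb2, RCLike.inner_apply]
    congr 1
    exact conj_ee _
  have hnorm : ENNReal.ofReal (‖x‖ ^ 2) = ∫⁻ b, ‖F b‖ₑ ^ 2 ∂μ := by
    rw [ENNReal.ofReal_pow (norm_nonneg _), ofReal_norm, hx, Lp.enorm_toLp]
    have h2 := eLpNorm_nnreal_pow_eq_lintegral (f := F) (μ := μ) (p := 2) (by norm_num)
    have e1 : ((2 : NNReal) : ℝ≥0∞) = 2 := rfl
    have e2 : ((2 : NNReal) : ℝ) = 2 := rfl
    rw [e1, e2] at h2
    have e3 : ∀ y : ℝ≥0∞, y ^ (2 : ℝ) = y ^ 2 := fun y => ENNReal.rpow_two y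
    simp only [e3] at h2
    exact h2
  rw [← hnorm]
  rw [ENNReal.tsum_eq_iSup_sum]
  apply iSup_le
  intro s
  have h3 := hE.sum_inner_products_le (s := s) x
  have h4 : ∀ v, ‖∫ b, F b * ee (-(∑ i, (v i : ℝ) * b i)) ∂μ‖ₑ ^ 2 =
      ENNReal.ofReal (‖inner ℂ (E v) x‖ ^ 2) := by
    intro v
    rw [hin, ENNReal.ofReal_pow (norm_nonneg _), ofReal_norm]
  simp only [h4]
  rw [← ENNReal.ofReal_sum_of_nonneg (fun v _ => by positivity)]
  exact ENNReal.ofReal_le_ofReal h3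

/-! ### invariance under integral matrices -/

/-- the lattice of integral vectors -/
def latt (r : ℕ) : AddSubgroup (Fin r → ℝ) where
  carrier := {x | ∃ c : Fin r → ℤ, x = fun i => (c i : ℝ)}
  add_mem' := by
    rintro _ _ ⟨c, rfl⟩ ⟨d, rfl⟩
    exact ⟨c + d, by ext i; simp⟩
  zero_mem' := ⟨0, by ext i; simp⟩
  neg_mem' := by
    rintro _ ⟨c, rfl⟩
    exact ⟨-c, by ext i; simp⟩

instance (r : ℕ) : Countable (latt r) := by
  have : Function.Surjective (fun c : Fin r → ℤ =>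
      (⟨fun i => (c i : ℝ), ⟨c, rfl⟩⟩ : latt r)) := by
    rintro ⟨_, c, rfl⟩
    exact ⟨c, rfl⟩
  exact this.countable

theorem exists_unique_latt {r : ℕ} (x : Fin r → ℝ) : ∃! g : latt r, (g : Fin r → ℝ) + x ∈ cube r := by
  refine ⟨⟨fun i => ((-⌊x i⌋ : ℤ) : ℝ), ⟨fun i => -⌊x i⌋, rfl⟩⟩, ?_, ?_⟩
  · intro i _
    simp only [Pi.add_apply, Set.mem_Ico]
    push_cast
    constructor
    · linarith [Int.floor_le (x i)]
    · linarith [Int.lt_floor_add_one (x i)]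
  · rintro ⟨_, c, rfl⟩ hg
    apply Subtype.ext
    ext i
    have h1 := hg i (Set.mem_univ i)
    simp only [Pi.add_apply, Set.mem_Ico] at h1
    have h2 : ⌊x i⌋ = -c i := by
      rw [Int.floor_eq_iff]
      push_cast
      constructor <;> linarith
    simp [h2]

theorem isAFD_cube (r : ℕ) : IsAddFundamentalDomain (latt r) (cube r) volume :=
  IsAddFundamentalDomain.mk' (measurableSet_cube r).nullMeasurableSet fun x =>
    exists_unique_latt x

theorem toR_mulVec_int {r : ℕ} (γ : SLZ r) (c : Fin r → ℤ) :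
    (toR γ *ᵥ fun i => (c i : ℝ)) = fun i => (((γ.1 *ᵥ c) i : ℤ) : ℝ) := by
  ext i
  simp [toR, Matrix.mulVec, dotProduct]

theorem isAFD_pre {r : ℕ} (γ : SLZ r) :
    IsAddFundamentalDomain (latt r) {b | toR γ *ᵥ b ∈ cube r} volume := by
  have hm : Measurable fun b : Fin r → ℝ => toR γ *ᵥ b := (mp_mulVec _ (det_toR γ)).measurable
  apply IsAddFundamentalDomain.mk' ((hm (measurableSet_cube r)).nullMeasurableSet)
  intro x
  obtain ⟨⟨_, c, rfl⟩, hg, huniq⟩ := exists_unique_latt (toR γ *ᵥ x)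
  refine ⟨⟨fun i => (((γ⁻¹.1 *ᵥ c) i : ℤ) : ℝ), ⟨_, rfl⟩⟩, ?_, ?_⟩
  · show toR γ *ᵥ (_ + x) ∈ cube r
    have hg' : (fun i => (c i : ℝ)) + toR γ *ᵥ x ∈ cube r := hg
    have e : toR γ *ᵥ (fun i => (((γ⁻¹.1 *ᵥ c) i : ℤ) : ℝ)) = fun i => (c i : ℝ) := by
      rw [← toR_mulVec_int, Matrix.mulVec_mulVec, toR_mul_inv, Matrix.one_mulVec]
    rw [Matrix.mulVec_add]
    rw [e]
    exact hg'
  · rintro ⟨_, d, rfl⟩ hd
    have hd' : toR γ *ᵥ ((fun i => (d i : ℝ)) + x) ∈ cube r := hd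
    rw [Matrix.mulVec_add, toR_mulVec_int] at hd'
    have h1 := huniq ⟨fun i => (((γ.1 *ᵥ d) i : ℤ) : ℝ), ⟨_, rfl⟩⟩ hd'
    have h2 : (fun i => (((γ.1 *ᵥ d) i : ℤ) : ℝ)) = fun i => (c i : ℝ) := congrArg Subtype.val h1
    apply Subtype.ext
    show (fun i => (d i : ℝ)) = fun i => (((γ⁻¹.1 *ᵥ c) i : ℤ) : ℝ)
    rw [← toR_mulVec_int γ⁻¹ c, ← h2, ← toR_mulVec_int γ d, Matrix.mulVec_mulVec, toR_inv_mul,
      Matrix.one_mulVec]

theorem torus_inv {r : ℕ} (γ : SLZ r) (Θ : (Fin r → ℝ) → ℂ)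
    (hper : ∀ (c : Fin r → ℤ) (b : Fin r → ℝ), Θ ((fun i => (c i : ℝ)) + b) = Θ b) :
    ∫ b in cube r, Θ (toR γ⁻¹ *ᵥ b) = ∫ b in cube r, Θ b := by
  let e : (Fin r → ℝ) ≃ᵐ (Fin r → ℝ) :=
    { toFun := fun b => toR γ *ᵥ b
      invFun := fun b => toR γ⁻¹ *ᵥ b
      left_inv := fun b => by
        show toR γ⁻¹ *ᵥ (toR γ *ᵥ b) = b
        rw [Matrix.mulVec_mulVec, toR_inv_mul, Matrix.one_mulVec]
      right_inv := fun b => by
        show toR γ *ᵥ (toR γ⁻¹ *ᵥ b) = b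
        rw [Matrix.mulVec_mulVec, toR_mul_inv, Matrix.one_mulVec]
      measurable_toFun := (mp_mulVec _ (det_toR γ)).measurable
      measurable_invFun := (mp_mulVec _ (det_toR γ⁻¹)).measurable }
  have h1 : MeasurePreserving e volume volume := mp_mulVec _ (det_toR γ)
  have h2 := h1.setIntegral_preimage_emb e.measurableEmbedding
    (fun b => Θ (toR γ⁻¹ *ᵥ b)) (cube r)
  have h3 : ∀ b, Θ (toR γ⁻¹ *ᵥ (e b)) = Θ b := by
    intro b
    congr 1
    exact e.left_inv b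
  simp only [h3] at h2
  rw [← h2]
  refine (isAFD_pre γ).setIntegral_eq (isAFD_cube r) ?_
  rintro ⟨_, c, rfl⟩ x
  exact hper c x

/-! ### Fourier coefficients on the mirabolic group -/

/-- the matrix `[A, b; 0, 1] * h` -/
def cm {r : ℕ} (h : Matrix (Fin (r + 1)) (Fin (r + 1)) ℝ) (A : Mt r) (b : Fin r → ℝ) :
    Mt (r + 1) := (emb (Matrix.of A) b * h :)

theorem asm_eq {s : ℕ} (w : Fin (s + 2) → ℝ) (A : Mt (s + 1)) (b : Fin (s + 1) → ℝ) :
    asm w A b = cm (hw w) A b := rfl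

theorem lm_cm {r : ℕ} (h : Matrix (Fin (r + 1)) (Fin (r + 1)) ℝ) (γ : SLZ r) (c : Fin r → ℤ)
    (A : Mt r) (b : Fin r → ℝ) : lm (toR (par γ c)) (cm h A b) =
      cm h (lm (toR γ) A) (toR γ *ᵥ b + fun i => (c i : ℝ)) := by
  unfold lm cm
  rw [toR_par]
  show (emb (toR γ) (fun i => (c i : ℝ)) * (emb (Matrix.of A) b * h) : Matrix _ _ ℝ) = _
  rw [← Matrix.mul_assoc, emb_mul]
  rfl

theorem continuous_emb {r : ℕ} : Continuous fun z : Mt r × (Fin r → ℝ) =>
    (emb (Matrix.of z.1) z.2 : Matrix (Fin (r + 1)) (Fin (r + 1)) ℝ) := by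
  apply continuous_pi
  intro i
  apply continuous_pi
  intro j
  refine Fin.lastCases ?_ (fun i => ?_) i <;> refine Fin.lastCases ?_ (fun j => ?_) j
  · simp only [emb_ll]; exact continuous_const
  · simp only [emb_lc]; exact continuous_const
  · simp only [emb_cl]; fun_prop
  · simp only [emb_cc, Matrix.of_apply]; fun_prop

theorem continuous_cm {r : ℕ} (h : Matrix (Fin (r + 1)) (Fin (r + 1)) ℝ) :
    Continuous fun z : Mt r × (Fin r → ℝ) => cm h z.1 z.2 :=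
  (continuous_emb (r := r)).matrix_mul continuous_const

/-- the Fourier coefficients of `Ψ([A, b; 0, 1] h)` in `b` -/
noncomputable def Fc {r : ℕ} (Ψ : Mt (r + 1) → ℂ) (h : Matrix (Fin (r + 1)) (Fin (r + 1)) ℝ)
    (v : Fin r → ℤ) (A : Mt r) : ℂ :=
  ∫ b in cube r, Ψ (cm h A b) * ee (-(∑ i, (v i : ℝ) * b i))

/-- invariance under the integral mirabolic group -/
def PInv {r : ℕ} (Ψ : Mt (r + 1) → ℂ) : Prop :=
  ∀ (γ : SLZ r) (c : Fin r → ℤ) (Y : Mt (r + 1)), Ψ (lm (toR (par γ c)) Y) = Ψ Y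

theorem measurable_Fc {r : ℕ} {Ψ : Mt (r + 1) → ℂ} (hΨ : Measurable Ψ)
    (h : Matrix (Fin (r + 1)) (Fin (r + 1)) ℝ) (v : Fin r → ℤ) : Measurable (Fc Ψ h v) := by
  have h1 : Measurable (Function.uncurry fun (A : Mt r) (b : Fin r → ℝ) =>
      Ψ (cm h A b) * ee (-(∑ i, (v i : ℝ) * b i))) := by
    apply Measurable.mul
    · exact hΨ.comp (continuous_cm h).measurable
    · apply Continuous.measurable
      apply continuous_ee.comp
      fun_prop
  exact (StronglyMeasurable.integral_prod_right h1.stronglyMeasurable).measurable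

theorem norm_Fc_le {r : ℕ} {Ψ : Mt (r + 1) → ℂ} {M : ℝ} (hM : ∀ Y, ‖Ψ Y‖ ≤ M)
    (h : Matrix (Fin (r + 1)) (Fin (r + 1)) ℝ) (v : Fin r → ℤ) (A : Mt r) :
    ‖Fc Ψ h v A‖ ≤ M := by
  have h1 := norm_setIntegral_le_of_norm_le_const (μ := (volume : Measure (Fin r → ℝ)))
    (s := cube r) (C := M) (f := fun b => Ψ (cm h A b) * ee (-(∑ i, (v i : ℝ) * b i)))
    (by rw [volume_cube]; exact ENNReal.one_lt_top)
    (fun b _ => by rw [norm_mul, norm_ee, mul_one]; exact hM _)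
  rwa [measureReal_def, volume_cube, ENNReal.toReal_one, mul_one] at h1

theorem Fc_lm {r : ℕ} {Ψ : Mt (r + 1) → ℂ} (hP : PInv Ψ)
    (h : Matrix (Fin (r + 1)) (Fin (r + 1)) ℝ) (v : Fin r → ℤ) (γ : SLZ r) (A : Mt r) :
    Fc Ψ h v (lm (toR γ) A) = Fc Ψ h (v ᵥ* γ.1) A := by
  let Θ : (Fin r → ℝ) → ℂ := fun b => Ψ (cm h (lm (toR γ) A) (toR γ *ᵥ b)) *
    ee (-(∑ i, (v i : ℝ) * (toR γ *ᵥ b) i))
  have hper : ∀ (c : Fin r → ℤ) (b : Fin r → ℝ), Θ ((fun i => (c i : ℝ)) + b) = Θ b := by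
    intro c b
    have e1 : toR γ *ᵥ ((fun i => (c i : ℝ)) + b) =
        toR γ *ᵥ b + fun i => (((γ.1 *ᵥ c) i : ℤ) : ℝ) := by
      rw [Matrix.mulVec_add, toR_mulVec_int, add_comm]
    show Ψ _ * ee _ = Ψ _ * ee _
    rw [e1]
    congr 1
    · have := hP 1 (γ.1 *ᵥ c) (cm h (lm (toR γ) A) (toR γ *ᵥ b))
      rw [lm_cm, toR_one, lm_one, Matrix.one_mulVec] at this
      exact this
    · have e2 : -(∑ i, (v i : ℝ) * (toR γ *ᵥ b + fun i => (((γ.1 *ᵥ c) i : ℤ) : ℝ)) i) =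
          -(∑ i, (v i : ℝ) * (toR γ *ᵥ b) i) + ((-(∑ i, v i * (γ.1 *ᵥ c) i) : ℤ) : ℝ) := by
        push_cast
        rw [← neg_add, ← Finset.sum_add_distrib]
        congr 1
        apply Finset.sum_congr rfl
        intro i _
        simp only [Pi.add_apply]
        ring
      rw [e2, ee_add_int]
  have h1 := torus_inv γ Θ hper
  have h2 : ∀ b, Θ (toR γ⁻¹ *ᵥ b) = Ψ (cm h (lm (toR γ) A) b) * ee (-(∑ i, (v i : ℝ) * b i)) := by
    intro b
    show Ψ (cm h (lm (toR γ) A) (toR γ *ᵥ (toR γ⁻¹ *ᵥ b))) *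
      ee (-(∑ i, (v i : ℝ) * (toR γ *ᵥ (toR γ⁻¹ *ᵥ b)) i)) = _
    rw [Matrix.mulVec_mulVec, toR_mul_inv, Matrix.one_mulVec]
  have h3 : ∀ b, Θ b = Ψ (cm h A b) * ee (-(∑ i, ((v ᵥ* γ.1) i : ℝ) * b i)) := by
    intro b
    show Ψ (cm h (lm (toR γ) A) (toR γ *ᵥ b)) * ee (-(∑ i, (v i : ℝ) * (toR γ *ᵥ b) i)) = _
    congr 1
    · have := hP γ 0 (cm h A b)
      have e0 : toR γ *ᵥ b + (fun i => (((0 : Fin r → ℤ) i : ℤ) : ℝ)) = toR γ *ᵥ b := by
        ext i; simp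
      rw [lm_cm, e0] at this
      exact this
    · congr 2
      simp only [Matrix.mulVec, Matrix.vecMul, dotProduct, toR, RingHom.mapMatrix_apply,
        Matrix.map_apply, Int.coe_castRingHom]
      push_cast
      simp only [Finset.mul_sum, Finset.sum_mul]
      rw [Finset.sum_comm]
      apply Finset.sum_congr rfl
      intro i _
      apply Finset.sum_congr rfl
      intro j _
      ring
  simp only [h2, h3] at h1
  exact h1

theorem PInv_Fc {s : ℕ} {Ψ : Mt (s + 2) → ℂ} (hP : PInv Ψ)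
    (h : Matrix (Fin (s + 2)) (Fin (s + 2)) ℝ) :
    PInv (Fc Ψ h (Pi.single (Fin.last s) 1)) := by
  intro γ c Y
  rw [Fc_lm hP, Matrix.single_one_vecMul]
  congr 1
  exact lrow_par γ c

end Pool.Agent.RS
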