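import Mathlib

/-!
Matrices for the mirabolic unfolding: `emb A b = [A, b; 0, 1]`, the section `hw w` with last row
`w` and determinant one, and the action of integral matrices.
-/

set_option autoImplicit false

namespace Pool.Agent.RS

open scoped BigOperators
open Matrix

section emb
variable {R : Type*} [CommRing R] {r : ℕ}

/-- the block matrix `[A, b; 0, 1]` -/
def emb (A : Matrix (Fin r) (Fin r) R) (b : Fin r → R) : Matrix (Fin (r + 1)) (Fin (r + 1)) R :=
  Matrix.of fun i j =>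
    Fin.lastCases (motive := fun _ => R) (Fin.lastCases (motive := fun _ => R) 1 (fun _ => 0) j)
      (fun i' => Fin.lastCases (motive := fun _ => R) (b i') (fun j' => A i' j') j) i

@[simp] theorem emb_cc (A : Matrix (Fin r) (Fin r) R) (b : Fin r → R) (i j : Fin r) :
    emb A b i.castSucc j.castSucc = A i j := by simp [emb]

@[simp] theorem emb_cl (A : Matrix (Fin r) (Fin r) R) (b : Fin r → R) (i : Fin r) :
    emb A b i.castSucc (Fin.last r) = b i := by simp [emb]

@[simp] theorem emb_lc (A : Matrix (Fin r) (Fin r) R) (b : Fin r → R) (j : Fin r) :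
    emb A b (Fin.last r) j.castSucc = 0 := by simp [emb]

@[simp] theorem emb_ll (A : Matrix (Fin r) (Fin r) R) (b : Fin r → R) :
    emb A b (Fin.last r) (Fin.last r) = 1 := by simp [emb]

theorem emb_mul (A B : Matrix (Fin r) (Fin r) R) (b c : Fin r → R) :
    emb A b * emb B c = emb (A * B) (A *ᵥ c + b) := by
  ext i j
  rw [Matrix.mul_apply, Fin.sum_univ_castSucc]
  refine Fin.lastCases ?_ (fun i => ?_) i <;> refine Fin.lastCases ?_ (fun j => ?_) j <;>
    simp [Matrix.mul_apply, Matrix.mulVec, dotProduct]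

theorem emb_one : emb (1 : Matrix (Fin r) (Fin r) R) 0 = 1 := by
  ext i j
  refine Fin.lastCases ?_ (fun i => ?_) i <;> refine Fin.lastCases ?_ (fun j => ?_) j <;>
    simp [Matrix.one_apply, Fin.castSucc_ne_last, (Fin.castSucc_ne_last _).symm]

theorem det_emb (A : Matrix (Fin r) (Fin r) R) (b : Fin r → R) : (emb A b).det = A.det := by
  rw [Matrix.det_succ_row _ (Fin.last r), Fin.sum_univ_castSucc]
  have h1 : (emb A b).submatrix (Fin.last r).succAbove (Fin.last r).succAbove = A := by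
    ext i j
    simp
  rw [h1]
  simp only [emb_lc, emb_ll, mul_zero, zero_mul, Finset.sum_const_zero, zero_add, mul_one]
  have : ((-1 : R)) ^ (((Fin.last r : Fin (r + 1)) : ℕ) + ((Fin.last r : Fin (r + 1)) : ℕ)) = 1 := by
    rw [← two_mul, pow_mul]; simp
  rw [this, one_mul]

theorem emb_map {S : Type*} [CommRing S] (f : R →+* S) (A : Matrix (Fin r) (Fin r) R)
    (b : Fin r → R) : (emb A b).map f = emb (A.map f) (fun i => f (b i)) := by
  ext i j
  refine Fin.lastCases ?_ (fun i => ?_) i <;> refine Fin.lastCases ?_ (fun j => ?_) j <;>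
    simp

end emb

/-- integral matrices as real matrices -/
def toR {r : ℕ} (γ : Matrix.SpecialLinearGroup (Fin r) ℤ) : Matrix (Fin r) (Fin r) ℝ :=
  (Int.castRingHom ℝ).mapMatrix γ.1

theorem toR_one {r : ℕ} : toR (1 : Matrix.SpecialLinearGroup (Fin r) ℤ) = 1 := by
  simp [toR]

theorem toR_mul {r : ℕ} (γ δ : Matrix.SpecialLinearGroup (Fin r) ℤ) :
    toR (γ * δ) = toR γ * toR δ := by
  unfold toR
  rw [← map_mul]
  rfl

theorem det_toR {r : ℕ} (γ : Matrix.SpecialLinearGroup (Fin r) ℤ) : (toR γ).det = 1 := by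
  rw [toR, ← RingHom.map_det, γ.2]
  simp

theorem toR_inv_mul {r : ℕ} (γ : Matrix.SpecialLinearGroup (Fin r) ℤ) :
    toR γ⁻¹ * toR γ = 1 := by rw [← toR_mul, inv_mul_cancel, toR_one]

theorem toR_mul_inv {r : ℕ} (γ : Matrix.SpecialLinearGroup (Fin r) ℤ) :
    toR γ * toR γ⁻¹ = 1 := by rw [← toR_mul, mul_inv_cancel, toR_one]

/-- the element `[γ, c; 0, 1]` of the integral mirabolic group -/
def par {r : ℕ} (γ : Matrix.SpecialLinearGroup (Fin r) ℤ) (c : Fin r → ℤ) :
    Matrix.SpecialLinearGroup (Fin (r + 1)) ℤ :=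
  ⟨emb (γ : Matrix (Fin r) (Fin r) ℤ) c, by rw [det_emb]; exact γ.2⟩

theorem toR_par {r : ℕ} (γ : Matrix.SpecialLinearGroup (Fin r) ℤ) (c : Fin r → ℤ) :
    toR (par γ c) = emb (toR γ) (fun i => (c i : ℝ)) := by
  have := emb_map (Int.castRingHom ℝ) (γ : Matrix (Fin r) (Fin r) ℤ) c
  exact this

/-- the last row of an integral matrix -/
def lrow {r : ℕ} (δ : Matrix.SpecialLinearGroup (Fin (r + 1)) ℤ) : Fin (r + 1) → ℤ :=
  (δ : Matrix (Fin (r + 1)) (Fin (r + 1)) ℤ) (Fin.last r)

/-- an integral matrix with last row `(0, ..., 0, 1)` is of the form `par γ c` -/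
theorem exists_par {r : ℕ} (δ : Matrix.SpecialLinearGroup (Fin (r + 1)) ℤ)
    (h : lrow δ = Pi.single (Fin.last r) 1) : ∃ γ c, δ = par γ c := by
  set A : Matrix (Fin r) (Fin r) ℤ := Matrix.of fun i j => δ.1 i.castSucc j.castSucc with hA
  set b : Fin r → ℤ := fun i => δ.1 i.castSucc (Fin.last r) with hb
  have h1 : δ.1 = emb A b := by
    ext i j
    refine Fin.lastCases ?_ (fun i => ?_) i <;> refine Fin.lastCases ?_ (fun j => ?_) j
    · have := congrFun h (Fin.last r)
      simpa [lrow] using this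
    · have := congrFun h j.castSucc
      simpa [lrow, Fin.castSucc_ne_last] using this
    · simp [hb]
    · simp [hA]
  have h2 : A.det = 1 := by
    rw [← det_emb A b, ← h1]; exact δ.2
  exact ⟨⟨A, h2⟩, b, Subtype.ext h1⟩

theorem par_injective {r : ℕ} : Function.Injective
    (fun q : Matrix.SpecialLinearGroup (Fin r) ℤ × (Fin r → ℤ) => par q.1 q.2) := by
  rintro ⟨γ, c⟩ ⟨γ', c'⟩ h
  have h1 : emb (γ : Matrix (Fin r) (Fin r) ℤ) c = emb (γ' : Matrix (Fin r) (Fin r) ℤ) c' :=
    congrArg Subtype.val h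
  have h2 : (γ : Matrix (Fin r) (Fin r) ℤ) = γ' := by
    ext i j
    have := congrFun (congrFun h1 i.castSucc) j.castSucc
    simpa using this
  have h3 : c = c' := by
    ext i
    have := congrFun (congrFun h1 i.castSucc) (Fin.last r)
    simpa using this
  rw [Prod.mk.injEq]
  exact ⟨Subtype.ext h2, h3⟩

theorem lrow_par {r : ℕ} (γ : Matrix.SpecialLinearGroup (Fin r) ℤ) (c : Fin r → ℤ) :
    lrow (par γ c) = Pi.single (Fin.last r) 1 := by
  ext j
  refine Fin.lastCases ?_ (fun j => ?_) j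
  · simp [lrow, par]
  · simp [lrow, par, Fin.castSucc_ne_last]

theorem lrow_mul {r : ℕ} (δ ε : Matrix.SpecialLinearGroup (Fin (r + 1)) ℤ) :
    lrow (δ * ε) = lrow δ ᵥ* (ε : Matrix (Fin (r + 1)) (Fin (r + 1)) ℤ) := by
  ext j
  simp [lrow, Matrix.mul_apply, Matrix.vecMul, dotProduct]

theorem lrow_par_mul {r : ℕ} (γ : Matrix.SpecialLinearGroup (Fin r) ℤ) (c : Fin r → ℤ)
    (δ : Matrix.SpecialLinearGroup (Fin (r + 1)) ℤ) : lrow (par γ c * δ) = lrow δ := by
  rw [lrow_mul, lrow_par, Matrix.single_one_vecMul]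
  rfl

/-- two integral matrices with the same last row differ by the mirabolic group -/
theorem exists_par_mul {r : ℕ} {δ ε : Matrix.SpecialLinearGroup (Fin (r + 1)) ℤ}
    (h : lrow δ = lrow ε) : ∃ γ c, δ = par γ c * ε := by
  obtain ⟨γ, c, hc⟩ := exists_par (δ * ε⁻¹) (by
    rw [lrow_mul, h]
    have : lrow (ε * ε⁻¹) = lrow ε ᵥ* ((ε⁻¹ : Matrix.SpecialLinearGroup (Fin (r + 1)) ℤ) :
      Matrix (Fin (r + 1)) (Fin (r + 1)) ℤ) := lrow_mul _ _
    rw [← this, mul_inv_cancel]
    ext j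
    simp [lrow, Matrix.one_apply, Pi.single_apply, eq_comm])
  exact ⟨γ, c, by rw [← hc]; group⟩

/-- a matrix with last row `w` and determinant one -/
noncomputable def hw {s : ℕ} (w : Fin (s + 2) → ℝ) : Matrix (Fin (s + 2)) (Fin (s + 2)) ℝ :=
  Matrix.of fun i j =>
    if i = Fin.last (s + 1) then w j
    else if i = 0 then (if j = 0 then (w (Fin.last (s + 1)))⁻¹ else 0)
    else if i = j then 1 else 0

theorem hw_last {s : ℕ} (w : Fin (s + 2) → ℝ) : hw w (Fin.last (s + 1)) = w := by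
  ext j
  simp [hw]

theorem det_hw {s : ℕ} (w : Fin (s + 2) → ℝ) (h : w (Fin.last (s + 1)) ≠ 0) :
    (hw w).det = 1 := by
  have h1 : (hw w).BlockTriangular OrderDual.toDual := by
    intro i j hij
    have hij' : i < j := hij
    have h2 : i ≠ Fin.last (s + 1) := by
      intro e
      rw [e] at hij'
      exact absurd hij' (not_lt.2 (Fin.le_last j))
    simp only [hw, Matrix.of_apply, if_neg h2, if_neg hij'.ne]
    split_ifs with h3 h4
    · exact absurd hij' (by rw [h4]; exact not_lt.2 (Fin.zero_le _))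
    · rfl
    · rfl
  rw [Matrix.det_of_isLowerTriangular _ h1, Fin.prod_univ_castSucc, Fin.prod_univ_succ]
  have h2 : hw w (Fin.last (s + 1)) (Fin.last (s + 1)) = w (Fin.last (s + 1)) := by
    rw [hw_last]
  have h3 : hw w (Fin.castSucc 0) (Fin.castSucc 0) = (w (Fin.last (s + 1)))⁻¹ := by
    simp [hw, (Fin.last_pos' (n := s + 1)).ne, (Fin.last_pos' (n := s + 1)).ne']
  have h4 : ∀ i : Fin s, hw w (Fin.castSucc i.succ) (Fin.castSucc i.succ) = 1 := by
    intro i
    have e1 : (Fin.castSucc i.succ : Fin (s + 2)) ≠ Fin.last (s + 1) := Fin.castSucc_ne_last _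
    have e2 : (Fin.castSucc i.succ : Fin (s + 2)) ≠ 0 := by
      rw [Ne, Fin.castSucc_eq_zero_iff]
      exact Fin.succ_ne_zero i
    simp [hw, e1, e2]
  rw [h2, h3]
  simp only [h4, Finset.prod_const_one, mul_one]
  exact inv_mul_cancel₀ h

theorem emb_mul_hw_last {s : ℕ} (A : Matrix (Fin (s + 1)) (Fin (s + 1)) ℝ) (b : Fin (s + 1) → ℝ)
    (w : Fin (s + 2) → ℝ) : (emb A b * hw w) (Fin.last (s + 1)) = w := by
  ext j
  rw [Matrix.mul_apply, Fin.sum_univ_castSucc]
  simp [hw_last]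

end Pool.Agent.RS
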