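import Pool.Agent.Lib_helper54.RS.Minkowski

/-!
Whittaker coefficients (by recursion) and the lower bound for the unfolded integral.
-/

set_option autoImplicit false

namespace Pool.Agent.RS

open MeasureTheory Matrix Filter Topology
open scoped ENNReal

/-- the identity matrix -/
def idm (r : ℕ) : Mt r := (1 : Matrix (Fin r) (Fin r) ℝ)

/-- The Whittaker coefficient of `Ψ` for the character
`u ↦ e(m u₀₁ + u₁₂ + ... + u_{s, s+1})`, by recursion. -/
noncomputable def Wr : (s : ℕ) → (Mt (s + 2) → ℂ) → ℕ →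
    Matrix (Fin (s + 2)) (Fin (s + 2)) ℝ → ℂ
  | 0, Ψ, m, g => Fc Ψ g (fun _ => (m : ℤ)) (idm 1)
  | (s + 1), Ψ, m, g => Wr s (Fc Ψ g (Pi.single (Fin.last (s + 1)) 1)) m
      (1 : Matrix (Fin (s + 2)) (Fin (s + 2)) ℝ)

/-- right multiplication -/
def rm {r : ℕ} (A : Mt r) (G : Matrix (Fin r) (Fin r) ℝ) : Mt r := ((Matrix.of A) * G :)

theorem Fc_rm {r : ℕ} (Φ : Mt (r + 1) → ℂ) (g k : Matrix (Fin (r + 1)) (Fin (r + 1)) ℝ)
    (v : Fin r → ℤ) : Fc (fun Y => Φ (rm Y g)) k v = Fc Φ (k * g) v := by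
  funext A
  unfold Fc
  have : ∀ b, rm (cm k A b) g = cm (k * g) A b := by
    intro b
    unfold rm cm
    show (emb (Matrix.of A) b * k) * g = _
    rw [Matrix.mul_assoc]
  simp only [this]

theorem Wr_rm (s : ℕ) (Φ : Mt (s + 2) → ℂ) (m : ℕ)
    (g k : Matrix (Fin (s + 2)) (Fin (s + 2)) ℝ) :
    Wr s (fun Y => Φ (rm Y g)) m k = Wr s Φ m (k * g) := by
  cases s with
  | zero =>
    unfold Wr
    rw [Fc_rm]
  | succ s =>
    unfold Wr
    rw [Fc_rm]

theorem Fc_emb {r : ℕ} (Ψ : Mt (r + 1) → ℂ) (A : Matrix (Fin r) (Fin r) ℝ)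
    (h : Matrix (Fin (r + 1)) (Fin (r + 1)) ℝ) (v : Fin r → ℤ) :
    Fc Ψ (emb A 0 * h) v = fun B => Fc Ψ h v (rm B A) := by
  funext B
  unfold Fc
  have : ∀ b, cm (emb A 0 * h) B b = cm h (rm B A) b := by
    intro b
    unfold rm cm
    show emb (Matrix.of B) b * (emb A 0 * h) = emb (Matrix.of B * A) b * h
    rw [← Matrix.mul_assoc, emb_mul, Matrix.mulVec_zero, zero_add]
  simp only [this]

theorem rm_idm {r : ℕ} (A : Mt r) : rm (idm r) (Matrix.of A) = A := by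
  unfold rm idm
  show (1 : Matrix (Fin r) (Fin r) ℝ) * Matrix.of A = _
  rw [Matrix.one_mul]
  rfl

theorem Wr_zero_emb (Ψ : Mt 2 → ℂ) (m : ℕ) (A : Matrix (Fin 1) (Fin 1) ℝ)
    (h : Matrix (Fin 2) (Fin 2) ℝ) :
    Wr 0 Ψ m (emb A 0 * h) = Fc Ψ h (fun _ => (m : ℤ)) A := by
  show Fc Ψ (emb A 0 * h) (fun _ => (m : ℤ)) (idm 1) = _
  rw [Fc_emb]
  show Fc Ψ h _ (rm (idm 1) A) = _
  congr 1
  exact rm_idm (A : Mt 1)

theorem Wr_succ_emb (s : ℕ) (Ψ : Mt (s + 1 + 2) → ℂ) (m : ℕ)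
    (A : Matrix (Fin (s + 2)) (Fin (s + 2)) ℝ)
    (h : Matrix (Fin (s + 1 + 2)) (Fin (s + 1 + 2)) ℝ) :
    Wr (s + 1) Ψ m (emb A 0 * h) = Wr s (Fc Ψ h (Pi.single (Fin.last (s + 1)) 1)) m A := by
  show Wr s (Fc Ψ (emb A 0 * h) (Pi.single (Fin.last (s + 1)) 1)) m 1 = _
  rw [Fc_emb, Wr_rm, Matrix.one_mul]

/-! ### the torus element -/

/-- `diag(X, 1, ..., 1)` -/
def td (n : ℕ) (X : ℝ) : Matrix (Fin (n + 1)) (Fin (n + 1)) ℝ :=
  Matrix.diagonal fun i => if i = 0 then X else 1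

theorem td_mul (n : ℕ) (X Y : ℝ) : td n X * td n Y = td n (X * Y) := by
  unfold td
  rw [Matrix.diagonal_mul_diagonal]
  congr 1
  ext i
  by_cases h : i = 0 <;> simp [h]

theorem td_one (n : ℕ) : td n 1 = 1 := by
  unfold td
  simp

theorem td_inv {n : ℕ} {X : ℝ} (hX : X ≠ 0) : td n X * td n X⁻¹ = 1 := by
  rw [td_mul, mul_inv_cancel₀ hX, td_one]

theorem td_inv' {n : ℕ} {X : ℝ} (hX : X ≠ 0) : td n X⁻¹ * td n X = 1 := by
  rw [td_mul, inv_mul_cancel₀ hX, td_one]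

theorem emb_td (n : ℕ) (X : ℝ) : emb (td n X) 0 = td (n + 1) X := by
  unfold td
  ext i j
  refine Fin.lastCases ?_ (fun i => ?_) i <;> refine Fin.lastCases ?_ (fun j => ?_) j
  · have : Fin.last (n + 1) ≠ 0 := (Fin.last_pos' (n := n + 1)).ne'
    simp [this]
  · simp [Matrix.diagonal, (Fin.castSucc_ne_last j).symm]
  · simp [Matrix.diagonal, Fin.castSucc_ne_last i]
  · simp only [emb_cc, Matrix.diagonal, Matrix.of_apply]
    by_cases h : i = j
    · subst h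
      by_cases h2 : i = 0
      · subst h2; simp
      · have : (i.castSucc : Fin (n + 2)) ≠ 0 := by
          rwa [Ne, Fin.castSucc_eq_zero_iff]
        simp [h2]
    · have : (i.castSucc : Fin (n + 2)) ≠ j.castSucc := fun e => h (Fin.castSucc_injective _ e)
      simp [h]

/-- conjugation by `diag(X, 1, ..., 1)` -/
noncomputable def cj {n : ℕ} (X : ℝ) (L : Matrix (Fin (n + 1)) (Fin (n + 1)) ℝ) :
    Matrix (Fin (n + 1)) (Fin (n + 1)) ℝ := td n X⁻¹ * L * td n X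

/-- scaling of the first coordinate by `1 / X` -/
noncomputable def sc {n : ℕ} (X : ℝ) (w : Fin (n + 1) → ℝ) : Fin (n + 1) → ℝ :=
  fun i => if i = 0 then w i / X else w i

theorem cj_hw {s : ℕ} {X : ℝ} (hX : X ≠ 0) (w : Fin (s + 2) → ℝ) :
    cj X (hw (sc X w)) = hw w := by
  have hl : Fin.last (s + 1) ≠ 0 := (Fin.last_pos' (n := s + 1)).ne'
  unfold cj td
  ext i j
  rw [Matrix.mul_diagonal, Matrix.diagonal_mul]
  simp only [hw, Matrix.of_apply, sc]
  by_cases hi : i = Fin.last (s + 1)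
  · subst hi
    simp only [if_true, if_neg hl, one_mul]
    by_cases hj : j = 0
    · simp only [if_pos hj]; field_simp
    · simp only [if_neg hj, mul_one]
  · simp only [if_neg hi]
    by_cases hi0 : i = 0
    · subst hi0
      simp only [if_true, if_neg hl]
      by_cases hj : j = 0
      · simp only [if_pos hj]; field_simp
      · simp only [if_neg hj, mul_zero, mul_one]
    · simp only [if_neg hi0, one_mul]
      by_cases hij : i = j
      · subst hij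
        simp [hi0]
      · simp [hij]

theorem cj_step {s : ℕ} {X : ℝ} (hX : X ≠ 0) (L : Matrix (Fin (s + 1)) (Fin (s + 1)) ℝ)
    (w : Fin (s + 2) → ℝ) : cj X (emb L 0 * hw (sc X w)) = emb (cj X L) 0 * hw w := by
  have h1 : emb (cj X L) 0 = td (s + 1) X⁻¹ * emb L 0 * td (s + 1) X := by
    unfold cj
    rw [← emb_td, ← emb_td, emb_mul, emb_mul]
    simp
  rw [h1, ← cj_hw hX w]
  unfold cj
  have h2 := td_inv (n := s + 1) hX
  have h3 : td (s + 1) X⁻¹ * emb L 0 * td (s + 1) X * (td (s + 1) X⁻¹ * hw (sc X w) * td (s + 1) X)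
      = td (s + 1) X⁻¹ * emb L 0 * (td (s + 1) X * td (s + 1) X⁻¹) * hw (sc X w) *
        td (s + 1) X := by
    simp only [Matrix.mul_assoc]
  rw [h3, h2]
  simp only [Matrix.mul_assoc, Matrix.mul_one, Matrix.one_mul]

theorem hw_single (s : ℕ) : hw (Pi.single (Fin.last (s + 1)) 1 : Fin (s + 2) → ℝ) = 1 := by
  ext i j
  simp only [hw, Matrix.of_apply, Matrix.one_apply]
  by_cases hi : i = Fin.last (s + 1)
  · subst hi
    simp only [if_true, Pi.single_apply]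
    simp only [eq_comm]
  · simp only [if_neg hi, Pi.single_eq_same, inv_one]
    by_cases hi0 : i = 0
    · subst hi0
      simp only [if_true]
      simp only [eq_comm]
    · simp only [if_neg hi0]

theorem continuousAt_hw (s : ℕ) : ContinuousAt (fun w : Fin (s + 2) → ℝ => hw w)
    (Pi.single (Fin.last (s + 1)) 1) := by
  apply continuousAt_pi.2
  intro i
  apply continuousAt_pi.2
  intro j
  unfold hw
  simp only [Matrix.of_apply]
  split_ifs with h1 h2 h3 h4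
  · exact (continuous_apply j).continuousAt
  · apply ContinuousAt.inv₀ (continuous_apply _).continuousAt
    simp
  · exact continuousAt_const
  · exact continuousAt_const
  · exact continuousAt_const

theorem exists_nhds {s : ℕ} (B : Set (Matrix (Fin (s + 2)) (Fin (s + 2)) ℝ))
    (hB : B ∈ 𝓝 (1 : Matrix (Fin (s + 2)) (Fin (s + 2)) ℝ)) :
    ∃ U ∈ 𝓝 (1 : Matrix (Fin (s + 1)) (Fin (s + 1)) ℝ), ∃ V : Set (Fin (s + 2) → ℝ),
      IsOpen V ∧ V.Nonempty ∧ ∀ L ∈ U, ∀ w ∈ V, emb L 0 * hw w ∈ B := by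
  have hc1 : Continuous fun L : Matrix (Fin (s + 1)) (Fin (s + 1)) ℝ =>
      (emb L 0 : Matrix (Fin (s + 2)) (Fin (s + 2)) ℝ) :=
    (continuous_emb (r := s + 1)).comp (Continuous.prodMk_left (0 : Fin (s + 1) → ℝ))
  have t1 : Tendsto (fun z : Matrix (Fin (s + 1)) (Fin (s + 1)) ℝ × (Fin (s + 2) → ℝ) =>
      emb z.1 (0 : Fin (s + 1) → ℝ))
      (𝓝 ((1 : Matrix (Fin (s + 1)) (Fin (s + 1)) ℝ),
        (Pi.single (Fin.last (s + 1)) 1 : Fin (s + 2) → ℝ))) (𝓝 (emb 1 0)) :=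
    (hc1.comp continuous_fst).tendsto _
  have t2 : Tendsto (fun z : Matrix (Fin (s + 1)) (Fin (s + 1)) ℝ × (Fin (s + 2) → ℝ) => z.2)
      (𝓝 ((1 : Matrix (Fin (s + 1)) (Fin (s + 1)) ℝ),
        (Pi.single (Fin.last (s + 1)) 1 : Fin (s + 2) → ℝ)))
      (𝓝 (Pi.single (Fin.last (s + 1)) 1)) :=
    continuous_snd.tendsto _
  have t3 : Tendsto (fun w : Fin (s + 2) → ℝ => hw w) (𝓝 (Pi.single (Fin.last (s + 1)) 1))
      (𝓝 (hw (Pi.single (Fin.last (s + 1)) 1))) := continuousAt_hw s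
  have t4 := t3.comp t2
  have hc3 : Continuous fun z : Matrix (Fin (s + 2)) (Fin (s + 2)) ℝ ×
      Matrix (Fin (s + 2)) (Fin (s + 2)) ℝ => z.1 * z.2 :=
    continuous_fst.matrix_mul continuous_snd
  have t5 := t1.prodMk_nhds t4
  have h1 := (hc3.tendsto (emb 1 0, hw (Pi.single (Fin.last (s + 1)) 1))).comp t5
  have h2 : emb 1 0 * hw (Pi.single (Fin.last (s + 1)) 1 : Fin (s + 2) → ℝ) = 1 := by
    rw [hw_single, emb_one, Matrix.mul_one]
  have hB' : B ∈ 𝓝 (emb 1 0 * hw (Pi.single (Fin.last (s + 1)) 1 : Fin (s + 2) → ℝ)) := by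
    rw [h2]; exact hB
  have h3 := h1 hB'
  rw [mem_map, mem_nhds_prod_iff] at h3
  obtain ⟨U, hU, V, hV, hUV⟩ := h3
  refine ⟨U, hU, interior V, isOpen_interior, ⟨Pi.single (Fin.last (s + 1)) 1,
    mem_interior_iff_mem_nhds.2 hV⟩, ?_⟩
  intro L hL w hw1
  have h4 := hUV (Set.mk_mem_prod hL (interior_subset hw1))
  simp only [Set.mem_preimage, Function.comp_apply] at h4
  exact h4

theorem volume_sc {n : ℕ} {X : ℝ} (hX : 0 < X) (V : Set (Fin (n + 1) → ℝ)) :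
    volume (sc X ⁻¹' V) = ENNReal.ofReal X * volume V := by
  set f : (Fin (n + 1) → ℝ) →ₗ[ℝ] (Fin (n + 1) → ℝ) := Matrix.toLin'
    (Matrix.diagonal fun i => if i = 0 then X⁻¹ else 1) with hf
  have h1 : ∀ w, f w = sc X w := by
    intro w
    rw [hf, Matrix.toLin'_apply]
    ext i
    rw [Matrix.mulVec_diagonal]
    unfold sc
    split_ifs
    · rw [div_eq_inv_mul]
    · rw [one_mul]
  have h2 : LinearMap.det f = X⁻¹ := by
    rw [hf, LinearMap.det_toLin', Matrix.det_diagonal, Finset.prod_ite_eq']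
    simp
  have h3 : sc X ⁻¹' V = f ⁻¹' V := by
    ext w
    simp only [Set.mem_preimage, h1]
  rw [h3, Measure.addHaar_preimage_linearMap volume (by rw [h2]; positivity), h2, inv_inv,
    abs_of_pos hX]

/-- the hypothesis of the lower bound -/
def LBhyp (s : ℕ) (B : Set (Matrix (Fin (s + 1)) (Fin (s + 1)) ℝ)) (X : ℝ)
    (Ψ : Mt (s + 2) → ℂ) (h : Matrix (Fin (s + 2)) (Fin (s + 2)) ℝ) (S : Finset ℕ)
    (c : ℕ → ℝ≥0∞) : Prop :=
  ∀ L ∈ B, ∀ m ∈ S, c m ≤ ‖Wr s Ψ m (emb (cj X L) 0 * h)‖ₑ ^ 2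

theorem cj_one_dim {X : ℝ} (hX : X ≠ 0) (L : Matrix (Fin (0 + 1)) (Fin (0 + 1)) ℝ) :
    cj X L = L := by
  unfold cj td
  ext i j
  have hi : i = 0 := Subsingleton.elim (α := Fin 1) _ _
  have hj : j = 0 := Subsingleton.elim (α := Fin 1) _ _
  subst hi hj
  rw [Matrix.mul_diagonal, Matrix.diagonal_mul]
  simp only [if_true]
  field_simp

theorem wG_one {A : Mt 1} (hA : (Matrix.of A).det ≠ 0) : wG A = 1 := by
  have h1 := tsum_wG A hA
  have h2 : ∀ γ : SLZ 1, γ = 1 := by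
    intro γ
    apply Subtype.ext
    ext i j
    have hi : i = 0 := Subsingleton.elim _ _
    have hj : j = 0 := Subsingleton.elim _ _
    subst hi hj
    have := γ.2
    rw [Matrix.det_fin_one] at this
    rw [this]
    simp
  rw [tsum_eq_single 1 (fun γ hγ => absurd (h2 γ) hγ), toR_one, lm_one] at h1
  exact h1

theorem LB_zero (B : Set (Matrix (Fin 1) (Fin 1) ℝ))
    (hB : B ∈ 𝓝 (1 : Matrix (Fin 1) (Fin 1) ℝ)) :
    ∃ κ : ℝ≥0∞, κ ≠ 0 ∧ ∀ (X : ℝ), 1 ≤ X → ∀ (Ψ : Mt (0 + 2) → ℂ), Measurable Ψ →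
      (∃ M : ℝ, ∀ Y, ‖Ψ Y‖ ≤ M) → PInv Ψ → ∀ h S c, LBhyp 0 B X Ψ h S c →
      κ * ENNReal.ofReal (X ^ 0) * ∑ m ∈ S, c m ≤ En 0 Ψ h := by
  set O : Set (Mt 1) := {A | 1 < (Matrix.of A).det ∧ (Matrix.of A).det < 2} ∩
    interior (B : Set (Mt 1)) with hO
  have hdc : Continuous fun A : Mt 1 => (Matrix.of A).det :=
    Continuous.matrix_det (by exact continuous_id)
  have hOo : IsOpen O := by
    apply IsOpen.inter _ isOpen_interior
    exact (isOpen_lt continuous_const hdc).inter (isOpen_lt hdc continuous_const)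
  have hOne : O.Nonempty := by
    have h1 : interior (B : Set (Mt 1)) ∈ 𝓝 (idm 1) := interior_mem_nhds.2 hB
    have h2 : Tendsto (fun t : ℝ => (fun _ _ => t : Mt 1)) (𝓝[>] 1) (𝓝 (idm 1)) := by
      have e : idm 1 = (fun _ _ => (1 : ℝ) : Mt 1) := by
        ext i j
        have hi : i = 0 := Subsingleton.elim _ _
        have hj : j = 0 := Subsingleton.elim _ _
        subst hi hj
        rfl
      rw [e]
      exact ((continuous_pi fun _ => continuous_pi fun _ => continuous_id).tendsto 1).mono_left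
        nhdsWithin_le_nhds
    have h3 : ∀ᶠ t : ℝ in 𝓝[>] 1, t ∈ Set.Ioo (1 : ℝ) 2 := Ioo_mem_nhdsGT (by norm_num)
    obtain ⟨t, ht1, ht2⟩ := ((h2.eventually h1).and h3).exists
    refine ⟨fun _ _ => t, ?_, ht1⟩
    have e2 : (Matrix.of (fun _ _ => t : Mt 1)).det = t := by
      rw [Matrix.det_fin_one]; rfl
    show 1 < (Matrix.of (fun _ _ => t : Mt 1)).det ∧ (Matrix.of (fun _ _ => t : Mt 1)).det < 2
    rw [e2]
    exact ht2
  refine ⟨volume O, (hOo.measure_pos volume hOne).ne', ?_⟩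
  intro X hX Ψ hΨ ⟨M, hM⟩ hP h S c hyp
  have hX0 : X ≠ 0 := by linarith
  rw [pow_zero, ENNReal.ofReal_one, mul_one]
  have hOX : O ⊆ Xs 1 := by
    intro A hA
    have h1 : |(Matrix.of A).det| = (Matrix.of A).det := abs_of_pos (by linarith [hA.1.1])
    refine ⟨?_, ?_⟩
    · rw [h1]; exact hA.1.1.le
    · rw [h1]; exact hA.1.2.le
  have h1 : ∀ A ∈ O, ∑ m ∈ S, c m ≤ wG A * ∫⁻ b in cube 1, ‖Ψ (cm h A b)‖ₑ ^ 2 := by
    intro A hA
    rw [wG_one (Xs_det_ne (hOX hA)), one_mul]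
    have hb := bessel (F := fun b => Ψ (cm h A b))
      (hΨ.comp ((continuous_cm h).comp (Continuous.prodMk_right A)).measurable) (fun b => hM _)
    refine le_trans ?_ hb
    have hinj : Function.Injective (fun (m : ℕ) (_ : Fin 1) => (m : ℤ)) := by
      intro m m' e
      have e' : (m : ℤ) = (m' : ℤ) := congrFun e 0
      exact_mod_cast e'
    have h2 : ∑ m ∈ S, c m ≤ ∑' m : ℕ, ‖Fc Ψ h (fun _ => (m : ℤ)) A‖ₑ ^ 2 := by
      refine le_trans ?_ (ENNReal.sum_le_tsum S)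
      apply Finset.sum_le_sum
      intro m hm
      have h3 : c m ≤ ‖Wr 0 Ψ m (emb (cj (n := 0) X A) 0 * h)‖ₑ ^ 2 :=
        hyp A (interior_subset hA.2) m hm
      have h4 : cj (n := 0) X A = A := cj_one_dim hX0 A
      rw [h4] at h3
      have h5 : Wr 0 Ψ m (emb (A : Matrix (Fin 1) (Fin 1) ℝ) 0 * h) =
          Fc Ψ h (fun _ => (m : ℤ)) A := Wr_zero_emb Ψ m A h
      exact h3.trans_eq (congrArg (fun z => ‖z‖ₑ ^ 2) h5)
    exact h2.trans (ENNReal.tsum_comp_le_tsum_of_injective hinj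
      (fun v => ‖Fc Ψ h v A‖ₑ ^ 2))
  unfold En
  calc volume O * ∑ m ∈ S, c m = ∫⁻ _A in O, ∑ m ∈ S, c m := by
        rw [lintegral_const, Measure.restrict_apply_univ, mul_comm]
    _ ≤ ∫⁻ A in O, wG A * ∫⁻ b in cube 1, ‖Ψ (cm h A b)‖ₑ ^ 2 :=
        setLIntegral_mono' hOo.measurableSet h1
    _ ≤ _ := lintegral_mono_set hOX

theorem LB (s : ℕ) : ∀ (B : Set (Matrix (Fin (s + 1)) (Fin (s + 1)) ℝ)),
    B ∈ 𝓝 (1 : Matrix (Fin (s + 1)) (Fin (s + 1)) ℝ) →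
    ∃ κ : ℝ≥0∞, κ ≠ 0 ∧ ∀ (X : ℝ), 1 ≤ X → ∀ (Ψ : Mt (s + 2) → ℂ), Measurable Ψ →
      (∃ M : ℝ, ∀ Y, ‖Ψ Y‖ ≤ M) → PInv Ψ → ∀ h S c, LBhyp s B X Ψ h S c →
      κ * ENNReal.ofReal (X ^ s) * ∑ m ∈ S, c m ≤ En s Ψ h := by
  induction s with
  | zero => exact LB_zero
  | succ s ih =>
    intro B hB
    obtain ⟨U, hU, V, hVo, hVne, hUV⟩ := exists_nhds B hB
    obtain ⟨κ, hκ, hκ2⟩ := ih U hU
    refine ⟨κ * volume V, mul_ne_zero hκ (hVo.measure_pos volume hVne).ne', ?_⟩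
    intro X hX Ψ hΨ ⟨M, hM⟩ hP h S c hyp
    have hX0 : X ≠ 0 := by linarith
    have hX1 : 0 < X := by linarith
    have h1 := En_rec hΨ hM hP h
    refine le_trans ?_ h1
    have hscm : Measurable (sc X : (Fin (s + 2) → ℝ) → _) := by
      apply measurable_pi_iff.2
      intro i
      unfold sc
      split_ifs
      · exact (measurable_pi_apply i).div_const _
      · exact measurable_pi_apply i
    have h2 : ∀ w ∈ sc X ⁻¹' V, κ * ENNReal.ofReal (X ^ s) * ∑ m ∈ S, c m ≤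
        En s (Fc Ψ h (Pi.single (Fin.last (s + 1)) 1)) (hw w) := by
      intro w hw1
      apply hκ2 X hX _ (measurable_Fc hΨ h _) ⟨M, norm_Fc_le hM h _⟩ (PInv_Fc hP h)
      intro L hL m hm
      have h3 := hyp (emb L 0 * hw (sc X w)) (hUV L hL _ hw1) m hm
      rw [cj_step hX0, Wr_succ_emb] at h3
      exact h3
    calc κ * volume V * ENNReal.ofReal (X ^ (s + 1)) * ∑ m ∈ S, c m
        = (κ * ENNReal.ofReal (X ^ s) * ∑ m ∈ S, c m) * volume (sc X ⁻¹' V) := by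
          rw [volume_sc hX1, pow_succ, ENNReal.ofReal_mul (by positivity)]
          ring
      _ = ∫⁻ _w in sc X ⁻¹' V, κ * ENNReal.ofReal (X ^ s) * ∑ m ∈ S, c m := by
          rw [lintegral_const, Measure.restrict_apply_univ]
      _ ≤ ∫⁻ w in sc X ⁻¹' V, En s (Fc Ψ h (Pi.single (Fin.last (s + 1)) 1)) (hw w) :=
          setLIntegral_mono' (hscm hVo.measurableSet) h2
      _ ≤ _ := setLIntegral_le_lintegral _ _

end Pool.Agent.RS
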