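import Pool.Agent.Lib_helper54.RS.Basic

/-!
Lebesgue measure on spaces of matrices: left multiplication by matrices of determinant one and
the parametrization `Y = [A, b; 0, 1] * hw w`.
-/

set_option autoImplicit false

namespace Pool.Agent.RS

open MeasureTheory Matrix
open scoped ENNReal

/-- matrices as a measure space -/
abbrev Mt (r : ℕ) := Fin r → Fin r → ℝ

theorem mp_mulVec {r : ℕ} (G : Matrix (Fin r) (Fin r) ℝ) (h : G.det = 1) :
    MeasurePreserving (fun b : Fin r → ℝ => G *ᵥ b) volume volume := by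
  have h1 := Real.map_matrix_volume_pi_eq_smul_volume_pi (M := G) (by rw [h]; exact one_ne_zero)
  refine ⟨?_, ?_⟩
  · exact (Matrix.toLin' G).continuous_of_finiteDimensional.measurable
  · rw [h] at h1
    have h2 : (fun b : Fin r → ℝ => G *ᵥ b) = ⇑(Matrix.toLin' G) := by
      ext b
      simp
    rw [h2, h1]
    simp

theorem mp_vecMul {r : ℕ} (G : Matrix (Fin r) (Fin r) ℝ) (h : G.det = 1) :
    MeasurePreserving (fun b : Fin r → ℝ => b ᵥ* G) volume volume := by
  have := mp_mulVec Gᵀ (by rw [Matrix.det_transpose, h])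
  simpa only [Matrix.mulVec_transpose] using this

theorem mp_swap (r : ℕ) :
    MeasurePreserving (fun (A : Fin r → Fin r → ℝ) (i j : Fin r) => A j i) volume volume := by
  let T : (Fin r → Fin r → ℝ) →ₗ[ℝ] (Fin r → Fin r → ℝ) :=
    { toFun := fun A i j => A j i
      map_add' := fun A B => rfl
      map_smul' := fun c A => rfl }
  have hTT : T * T = 1 := rfl
  have hd : LinearMap.det T * LinearMap.det T = 1 := by
    rw [← map_mul, hTT, map_one]
  have h0 : LinearMap.det T ≠ 0 := by
    intro h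
    rw [h] at hd
    simp at hd
  have h1 : |(LinearMap.det T)⁻¹| = 1 := by
    rcases mul_self_eq_one_iff.1 hd with h | h <;> rw [h] <;> simp
  refine ⟨T.continuous_of_finiteDimensional.measurable, ?_⟩
  have := Measure.map_linearMap_addHaar_eq_smul_addHaar
    (volume : Measure (Fin r → Fin r → ℝ)) h0
  rw [h1, ENNReal.ofReal_one, one_smul] at this
  exact this

/-- left multiplication -/
def lm {r : ℕ} (G : Matrix (Fin r) (Fin r) ℝ) (A : Mt r) : Mt r := (G * (Matrix.of A) :)

theorem lm_lm {r : ℕ} (G H : Matrix (Fin r) (Fin r) ℝ) (A : Mt r) :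
    lm G (lm H A) = lm (G * H) A := by
  unfold lm
  rw [Matrix.mul_assoc]
  rfl

theorem lm_one {r : ℕ} (A : Mt r) : lm 1 A = A := by
  unfold lm
  rw [Matrix.one_mul]
  rfl

theorem lm_eq {r : ℕ} (G : Matrix (Fin r) (Fin r) ℝ) (A : Mt r) :
    (Matrix.of (lm G A) : Matrix (Fin r) (Fin r) ℝ) = G * Matrix.of A := rfl

theorem mp_lm {r : ℕ} (G : Matrix (Fin r) (Fin r) ℝ) (h : G.det = 1) :
    MeasurePreserving (lm G) volume volume := by
  have h1 := mp_swap r
  have h2 : MeasurePreserving (fun (A : Fin r → Fin r → ℝ) (i : Fin r) => G *ᵥ (A i))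
      volume volume := volume_preserving_pi fun i => mp_mulVec G h
  have h3 := h1.comp (h2.comp h1)
  have h4 : lm G = (fun (A : Fin r → Fin r → ℝ) (i j : Fin r) => A j i) ∘
      (fun (A : Fin r → Fin r → ℝ) (i : Fin r) => G *ᵥ (A i)) ∘
      (fun (A : Fin r → Fin r → ℝ) (i j : Fin r) => A j i) := by
    ext A i j
    simp [lm, Matrix.mul_apply, Matrix.mulVec, dotProduct]
  rw [h4]
  exact h3

theorem det_of_lm {r : ℕ} (G : Matrix (Fin r) (Fin r) ℝ) (h : G.det = 1) (A : Mt r) :
    (Matrix.of (lm G A)).det = (Matrix.of A).det := by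
  rw [lm_eq, Matrix.det_mul, h, one_mul]

theorem measurable_det (r : ℕ) : Measurable fun A : Mt r => (Matrix.of A).det :=
  (Continuous.matrix_det (by exact continuous_id)).measurable

/-- the map `(w, A, b) ↦ [A, b; 0, 1] * hw w` -/
noncomputable def asm {s : ℕ} (w : Fin (s + 2) → ℝ) (A : Mt (s + 1)) (b : Fin (s + 1) → ℝ) :
    Mt (s + 2) := (emb (Matrix.of A) b * hw w :)

theorem ae_last_ne {r : ℕ} : ∀ᵐ w : Fin (r + 1) → ℝ, w (Fin.last r) ≠ 0 := by
  have := Measure.pi_hyperplane (fun _ : Fin (r + 1) => (volume : Measure ℝ)) (Fin.last r) 0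
  exact compl_mem_ae_iff.2 this

theorem lintegral_asm {s : ℕ} (F : Mt (s + 2) → ℝ≥0∞) (hF : Measurable F) :
    ∫⁻ Y, F Y = ∫⁻ w : Fin (s + 2) → ℝ, ∫⁻ A : Mt (s + 1), ∫⁻ b : Fin (s + 1) → ℝ,
      F (asm w A b) := by
  -- split off the last row
  let e1 := MeasurableEquiv.piFinSuccAbove (fun _ : Fin (s + 2) => Fin (s + 2) → ℝ)
    (Fin.last (s + 1))
  have m1 : MeasurePreserving e1 := volume_preserving_piFinSuccAbove _ _
  have m1s : MeasurePreserving e1.symm := MeasurePreserving.symm e1 m1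
  have hF1 : Measurable fun z => F (e1.symm z) := hF.comp e1.symm.measurable
  have step1 : ∫⁻ Y, F Y = ∫⁻ w : Fin (s + 2) → ℝ, ∫⁻ t : Fin (s + 1) → Fin (s + 2) → ℝ,
      F (e1.symm (w, t)) := by
    rw [← m1s.lintegral_comp hF]
    exact lintegral_prod _ hF1.aemeasurable
  rw [step1]
  apply lintegral_congr_ae
  filter_upwards [ae_last_ne] with w hw0
  have hFw : Measurable fun t : Fin (s + 1) → Fin (s + 2) → ℝ => F (e1.symm (w, t)) :=
    hF1.comp measurable_prodMk_left
  -- right multiplication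
  have m2 : MeasurePreserving (fun (t : Fin (s + 1) → Fin (s + 2) → ℝ) (i : Fin (s + 1)) =>
      (t i) ᵥ* hw w) volume volume :=
    volume_preserving_pi fun i => mp_vecMul (hw w) (det_hw w hw0)
  rw [← m2.lintegral_comp hFw]
  have hF2 : Measurable fun t : Fin (s + 1) → Fin (s + 2) → ℝ =>
      F (e1.symm (w, fun i => (t i) ᵥ* hw w)) := hFw.comp m2.measurable
  -- split the rows
  let e2 := MeasurableEquiv.piFinSuccAbove (fun _ : Fin (s + 2) => ℝ) (Fin.last (s + 1))
  have m3 : MeasurePreserving e2 := volume_preserving_piFinSuccAbove _ _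
  have m3s : MeasurePreserving e2.symm := MeasurePreserving.symm e2 m3
  have m4 : MeasurePreserving (fun (z : Fin (s + 1) → ℝ × (Fin (s + 1) → ℝ)) (i : Fin (s + 1)) =>
      e2.symm (z i)) volume volume := volume_preserving_pi fun i => m3s
  let e3 := MeasurableEquiv.arrowProdEquivProdArrow ℝ (Fin (s + 1) → ℝ) (Fin (s + 1))
  have m5 : MeasurePreserving e3 := volume_measurePreserving_arrowProdEquivProdArrow _ _ _
  have m5s : MeasurePreserving e3.symm := MeasurePreserving.symm e3 m5
  have m6 := m4.comp m5s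
  rw [← m6.lintegral_comp hF2]
  have hF3 : Measurable fun z : (Fin (s + 1) → ℝ) × (Fin (s + 1) → Fin (s + 1) → ℝ) =>
      F (e1.symm (w, fun i => (e2.symm (e3.symm z i)) ᵥ* hw w)) := hF2.comp m6.measurable
  have h7 : ∫⁻ z : (Fin (s + 1) → ℝ) × (Fin (s + 1) → Fin (s + 1) → ℝ),
      F (e1.symm (w, fun i => (e2.symm (e3.symm z i)) ᵥ* hw w)) =
      ∫⁻ A : Fin (s + 1) → Fin (s + 1) → ℝ, ∫⁻ b : Fin (s + 1) → ℝ,
        F (e1.symm (w, fun i => (e2.symm (e3.symm (b, A) i)) ᵥ* hw w)) :=
    lintegral_prod_symm _ hF3.aemeasurable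
  refine Eq.trans h7 ?_
  apply lintegral_congr
  intro A
  apply lintegral_congr
  intro b
  congr 1
  funext i
  refine Fin.lastCases ?_ (fun i => ?_) i
  · have h8 : asm w A b (Fin.last (s + 1)) = w := emb_mul_hw_last _ _ _
    rw [h8]
    simp [e1]
  · have h9 : e1.symm (w, fun i => (e2.symm (e3.symm (b, A) i)) ᵥ* hw w) i.castSucc =
        (e2.symm (b i, A i)) ᵥ* hw w := by
      have : e1.symm (w, fun i => (e2.symm (e3.symm (b, A) i)) ᵥ* hw w)
          ((Fin.last (s + 1)).succAbove i) = (e2.symm (b i, A i)) ᵥ* hw w := by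
        simp [e1, e3]
        rfl
      simpa using this
    rw [h9]
    ext j
    have h10 : ∀ k, e2.symm (b i, A i) k = emb (Matrix.of A) b i.castSucc k := by
      intro k
      refine Fin.lastCases ?_ (fun k => ?_) k
      · simp [e2]
      · have : e2.symm (b i, A i) ((Fin.last (s + 1)).succAbove k) = A i k := by
          simp [e2]
        rw [emb_cc]
        simpa using this
    simp only [Matrix.vecMul, dotProduct, h10]
    rw [asm, Matrix.mul_apply]

end Pool.Agent.RS
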