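import Pool.Agent.Lib_helper54.RS.Measure

/-!
Abstract unfolding, and weight functions for the action of `SL_r(ℤ)` and of the integral mirabolic
group on real matrices.
-/

set_option autoImplicit false

namespace Pool.Agent.RS

open MeasureTheory Matrix
open scoped ENNReal

theorem unfold_abs {α ι : Type*} [MeasurableSpace α] {μ : Measure α} [Countable ι]
    (T : ι → α → α) (hT : ∀ i, MeasurePreserving (T i) μ μ) (inv : ι ≃ ι)
    (hinv : ∀ i a, T i (T (inv i) a) = a) (ω K : α → ℝ≥0∞) (hω : Measurable ω)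
    (hK : Measurable K) (h1 : ∀ᵐ a ∂μ, ∑' i, ω (T i a) = 1) :
    ∫⁻ a, ω a * ∑' i, K (T i a) ∂μ = ∫⁻ a, K a ∂μ := by
  have e1 : ∀ i, ∫⁻ a, ω a * K (T i a) ∂μ = ∫⁻ a, ω (T (inv i) a) * K a ∂μ := by
    intro i
    have hm : Measurable fun a => ω a * K (T i a) := hω.mul (hK.comp (hT i).measurable)
    rw [← (hT (inv i)).lintegral_comp hm]
    simp only [hinv]
  simp only [← ENNReal.tsum_mul_left]
  have m1 : ∀ i, AEMeasurable (fun a => ω a * K (T i a)) μ := fun i =>
    (hω.mul (hK.comp (hT i).measurable)).aemeasurable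
  have m2 : ∀ i, AEMeasurable (fun a => ω (T (inv i) a) * K a) μ := fun i =>
    ((hω.comp (hT (inv i)).measurable).mul hK).aemeasurable
  rw [lintegral_tsum m1]
  simp only [e1]
  rw [← lintegral_tsum m2]
  apply lintegral_congr_ae
  filter_upwards [h1] with a ha
  rw [ENNReal.tsum_mul_right, inv.tsum_eq (fun i => ω (T i a)), ha, one_mul]

theorem two_weights {α ι : Type*} [MeasurableSpace α] {μ : Measure α} [Countable ι]
    (T : ι → α → α) (hT : ∀ i, MeasurePreserving (T i) μ μ) (inv : ι ≃ ι)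
    (hinv : ∀ i a, T i (T (inv i) a) = a) (ω ω' F : α → ℝ≥0∞) (hω : Measurable ω)
    (hω' : Measurable ω') (hF : Measurable F) (hFi : ∀ i a, F (T i a) = F a)
    (h1 : ∀ᵐ a ∂μ, ∑' i, ω (T i a) = 1) (h2 : ∀ᵐ a ∂μ, ∑' i, ω' (T i a) = 1) :
    ∫⁻ a, ω a * F a ∂μ = ∫⁻ a, ω' a * F a ∂μ := by
  rw [← unfold_abs T hT inv hinv ω (fun a => ω' a * F a) hω (hω'.mul hF) h1]
  apply lintegral_congr_ae
  filter_upwards [h2] with a ha
  simp only [hFi]
  rw [ENNReal.tsum_mul_right, ha, one_mul]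

/-! ### sums over integral matrices -/

theorem tsum_pi_prod {β : Type} (g : β → ℝ≥0∞) (r : ℕ) :
    ∑' x : Fin r → β, ∏ i, g (x i) = (∑' b, g b) ^ r := by
  induction r with
  | zero =>
    rw [pow_zero, tsum_eq_single (fun i => Fin.elim0 i)]
    · simp
    · intro b hb
      exact absurd (Subsingleton.elim _ _) hb
  | succ r ih =>
    rw [← (Fin.consEquiv (fun _ : Fin (r + 1) => β)).tsum_eq, ENNReal.tsum_prod', pow_succ',
      ← ih, ← ENNReal.tsum_mul_right]
    congr 1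
    funext b
    rw [← ENNReal.tsum_mul_left]
    congr 1
    funext x
    rw [Fin.prod_univ_succ]
    simp

theorem tsum_exp_ne_top {ε : ℝ} (hε : 0 < ε) :
    ∑' k : ℤ, ENNReal.ofReal (Real.exp (-(ε * |(k : ℝ)|))) ≠ ⊤ := by
  have h1 : Summable fun n : ℕ => Real.exp (-(ε * (n : ℝ))) := by
    have := Real.summable_exp_nat_mul_iff.2 (show -ε < 0 by linarith)
    refine this.congr fun n => ?_
    ring_nf
  have h2 : Summable fun k : ℤ => Real.exp (-(ε * |(k : ℝ)|)) := by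
    apply Summable.of_nat_of_neg
    · simpa using h1
    · simpa using h1
  exact h2.tsum_ofReal_ne_top

/-- a rapidly decreasing positive function on matrices -/
noncomputable def gauss {r : ℕ} (A : Mt r) : ℝ≥0∞ :=
  ENNReal.ofReal (Real.exp (-(∑ i, ∑ j, |A i j|)))

theorem measurable_gauss {r : ℕ} : Measurable (gauss : Mt r → ℝ≥0∞) := by
  unfold gauss
  apply Measurable.ennreal_ofReal
  apply Continuous.measurable
  fun_prop

theorem gauss_pos {r : ℕ} (A : Mt r) : gauss A ≠ 0 := by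
  unfold gauss
  rw [Ne, ENNReal.ofReal_eq_zero, not_le]
  exact Real.exp_pos _

theorem gauss_ne_top {r : ℕ} (A : Mt r) : gauss A ≠ ⊤ := ENNReal.ofReal_ne_top

abbrev SLZ (r : ℕ) := Matrix.SpecialLinearGroup (Fin r) ℤ

instance {r : ℕ} : Countable (SLZ r) := by
  have : Countable (Matrix (Fin r) (Fin r) ℤ) :=
    inferInstanceAs (Countable (Fin r → Fin r → ℤ))
  exact Subtype.countable

theorem tsum_gauss_ne_top {r : ℕ} (A : Mt r) (hA : (Matrix.of A).det ≠ 0) :
    ∑' γ : SLZ r, gauss (lm (toR γ) A) ≠ ⊤ := by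
  set B : Matrix (Fin r) (Fin r) ℝ := (Matrix.of A)⁻¹ with hB
  have hAB : Matrix.of A * B = 1 := Matrix.mul_nonsing_inv _ (isUnit_iff_ne_zero.2 hA)
  set K : ℝ := 1 + ∑ i, ∑ j, |B i j| with hK
  have hK0 : 0 < K := by
    have : 0 ≤ ∑ i, ∑ j, |B i j| :=
      Finset.sum_nonneg fun i _ => Finset.sum_nonneg fun j _ => abs_nonneg _
    linarith
  have hBK : ∀ i j, |B i j| ≤ K := by
    intro i j
    have h1 : |B i j| ≤ ∑ j, |B i j| :=
      Finset.single_le_sum (f := fun j => |B i j|) (fun j _ => abs_nonneg _) (Finset.mem_univ j)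
    have h2 : ∑ j, |B i j| ≤ ∑ i, ∑ j, |B i j| :=
      Finset.single_le_sum (f := fun i => ∑ j, |B i j|)
        (fun i _ => Finset.sum_nonneg fun j _ => abs_nonneg _) (Finset.mem_univ i)
    linarith
  set ε : ℝ := 1 / (K * (r + 1)) with hε
  have hε0 : 0 < ε := by positivity
  have key : ∀ γ : SLZ r, gauss (lm (toR γ) A) ≤
      ∏ i, ∏ j, ENNReal.ofReal (Real.exp (-(ε * |((γ.1 i j : ℤ) : ℝ)|))) := by
    intro γ
    have h1 : ∀ i j, |((γ.1 i j : ℤ) : ℝ)| ≤ K * ∑ k, |lm (toR γ) A i k| := by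
      intro i j
      have h2 : ((γ.1 i j : ℤ) : ℝ) = ∑ k, lm (toR γ) A i k * B k j := by
        have h3 : toR γ = (toR γ * Matrix.of A) * B := by
          rw [Matrix.mul_assoc, hAB, Matrix.mul_one]
        have h4 : toR γ i j = ((toR γ * Matrix.of A) * B) i j := congrFun (congrFun h3 i) j
        rw [Matrix.mul_apply] at h4
        exact h4
      rw [h2, Finset.mul_sum]
      refine (Finset.abs_sum_le_sum_abs _ _).trans (Finset.sum_le_sum fun k _ => ?_)
      rw [abs_mul, mul_comm]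
      exact mul_le_mul_of_nonneg_right (hBK k j) (abs_nonneg _)
    have h5 : ε * ∑ i, ∑ j, |((γ.1 i j : ℤ) : ℝ)| ≤ ∑ i, ∑ j, |lm (toR γ) A i j| := by
      have h6 : ∑ i, ∑ j, |((γ.1 i j : ℤ) : ℝ)| ≤
          (K * (r + 1)) * ∑ i, ∑ j, |lm (toR γ) A i j| := by
        calc ∑ i, ∑ j, |((γ.1 i j : ℤ) : ℝ)|
            ≤ ∑ i, ∑ _j : Fin r, K * ∑ k, |lm (toR γ) A i k| :=
              Finset.sum_le_sum fun i _ => Finset.sum_le_sum fun j _ => h1 i j
          _ = (r * K) * ∑ i, ∑ k, |lm (toR γ) A i k| := by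
              rw [Finset.mul_sum]
              apply Finset.sum_congr rfl
              intro i _
              rw [Finset.sum_const, Finset.card_univ, Fintype.card_fin, nsmul_eq_mul]
              ring
          _ ≤ (K * (r + 1)) * ∑ i, ∑ j, |lm (toR γ) A i j| := by
              apply mul_le_mul_of_nonneg_right
              · nlinarith
              · exact Finset.sum_nonneg fun i _ => Finset.sum_nonneg fun j _ => abs_nonneg _
      rw [hε, div_mul_eq_mul_div, one_mul, div_le_iff₀ (by positivity)]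
      linarith
    unfold gauss
    have h7 : ∏ i, ∏ j, ENNReal.ofReal (Real.exp (-(ε * |((γ.1 i j : ℤ) : ℝ)|))) =
        ENNReal.ofReal (Real.exp (-(ε * ∑ i, ∑ j, |((γ.1 i j : ℤ) : ℝ)|))) := by
      have h8 : ∀ i, ∏ j, ENNReal.ofReal (Real.exp (-(ε * |((γ.1 i j : ℤ) : ℝ)|))) =
          ENNReal.ofReal (∏ j, Real.exp (-(ε * |((γ.1 i j : ℤ) : ℝ)|))) := fun i =>
        (ENNReal.ofReal_prod_of_nonneg fun j _ => (Real.exp_pos _).le).symm
      simp only [h8]
      rw [← ENNReal.ofReal_prod_of_nonneg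
        (fun i _ => Finset.prod_nonneg fun j _ => (Real.exp_pos _).le)]
      congr 1
      simp only [← Real.exp_sum]
      congr 1
      rw [Finset.mul_sum, ← Finset.sum_neg_distrib]
      apply Finset.sum_congr rfl
      intro i _
      rw [Finset.mul_sum, ← Finset.sum_neg_distrib]
    rw [h7]
    exact ENNReal.ofReal_le_ofReal (Real.exp_le_exp.2 (neg_le_neg h5))
  have h9 : ∑' γ : SLZ r, gauss (lm (toR γ) A) ≤
      ∑' x : Fin r → Fin r → ℤ, ∏ i, ∏ j,
        ENNReal.ofReal (Real.exp (-(ε * |((x i j : ℤ) : ℝ)|))) := by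
    refine (ENNReal.tsum_le_tsum key).trans ?_
    have hinj : Function.Injective (fun γ : SLZ r => (γ.1 : Fin r → Fin r → ℤ)) :=
      fun γ δ h => Subtype.ext h
    exact ENNReal.tsum_comp_le_tsum_of_injective hinj
      (fun x : Fin r → Fin r → ℤ => ∏ i, ∏ j,
        ENNReal.ofReal (Real.exp (-(ε * |((x i j : ℤ) : ℝ)|))))
  refine ne_top_of_le_ne_top ?_ h9
  rw [tsum_pi_prod (fun x : Fin r → ℤ => ∏ j, ENNReal.ofReal (Real.exp (-(ε * |((x j : ℤ) : ℝ)|))))]
  apply ENNReal.pow_ne_top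
  rw [tsum_pi_prod (fun x : ℤ => ENNReal.ofReal (Real.exp (-(ε * |((x : ℤ) : ℝ)|))))]
  exact ENNReal.pow_ne_top (tsum_exp_ne_top hε0)

section weight
variable {r : ℕ} {G : Type} [Group G]

/-- the normalized weight function of a group acting through `φ` -/
noncomputable def wt (φ : G →* SLZ r) (A : Mt r) : ℝ≥0∞ :=
  gauss A / ∑' g : G, gauss (lm (toR (φ g)) A)

theorem measurable_lm (γ : SLZ r) : Measurable (lm (toR γ)) := (mp_lm _ (det_toR γ)).measurable

theorem measurable_wt [Countable G] (φ : G →* SLZ r) : Measurable (wt φ) := by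
  unfold wt
  exact measurable_gauss.div
    (Measurable.tsum fun g => measurable_gauss.comp (measurable_lm _))

theorem wt_le_one (φ : G →* SLZ r) (A : Mt r) : wt φ A ≤ 1 := by
  unfold wt
  apply ENNReal.div_le_of_le_mul
  rw [one_mul]
  have := ENNReal.le_tsum (f := fun g : G => gauss (lm (toR (φ g)) A)) 1
  rwa [map_one, toR_one, lm_one] at this

theorem tsum_wt {φ : G →* SLZ r} (hφ : Function.Injective φ) (A : Mt r)
    (hA : (Matrix.of A).det ≠ 0) : ∑' g : G, wt φ (lm (toR (φ g)) A) = 1 := by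
  set S := ∑' g : G, gauss (lm (toR (φ g)) A) with hS
  have h0 : S ≠ 0 := by
    rw [hS, Ne, ENNReal.tsum_eq_zero]
    intro h
    exact gauss_pos _ (h 1)
  have h1 : S ≠ ⊤ := by
    refine ne_top_of_le_ne_top (tsum_gauss_ne_top A hA) ?_
    exact ENNReal.tsum_comp_le_tsum_of_injective hφ (fun γ : SLZ r => gauss (lm (toR γ) A))
  have h2 : ∀ g : G, wt φ (lm (toR (φ g)) A) = gauss (lm (toR (φ g)) A) / S := by
    intro g
    unfold wt
    congr 1
    rw [hS, ← (Equiv.mulRight g).tsum_eq (fun g' => gauss (lm (toR (φ g')) A))]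
    congr 1
    funext g'
    rw [lm_lm, ← toR_mul, ← map_mul]
    rfl
  simp only [h2, div_eq_mul_inv]
  rw [ENNReal.tsum_mul_right, ← hS]
  exact ENNReal.mul_inv_cancel h0 h1

end weight

/-- the weight function of `SL_r(ℤ)` -/
noncomputable def wG {r : ℕ} (A : Mt r) : ℝ≥0∞ := wt (MonoidHom.id (SLZ r)) A

/-- the integral mirabolic group -/
def mir (r : ℕ) : Subgroup (SLZ (r + 1)) where
  carrier := {δ | lrow δ = Pi.single (Fin.last r) 1}
  one_mem' := by
    show lrow 1 = _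
    ext j
    simp [lrow, Matrix.one_apply, Pi.single_apply, eq_comm]
  mul_mem' := by
    intro δ ε hδ hε
    show lrow (δ * ε) = _
    have hδ' : lrow δ = _ := hδ
    have hε' : lrow ε = _ := hε
    rw [lrow_mul, hδ', Matrix.single_one_vecMul]
    exact hε'
  inv_mem' := by
    intro δ hδ
    show lrow δ⁻¹ = _
    have hδ' : lrow δ = _ := hδ
    have h1 : lrow (δ * δ⁻¹) = lrow δ⁻¹ := by
      rw [lrow_mul, hδ', Matrix.single_one_vecMul]
      rfl
    rw [← h1, mul_inv_cancel]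
    ext j
    simp [lrow, Matrix.one_apply, Pi.single_apply, eq_comm]

/-- the weight function of the mirabolic group -/
noncomputable def wP {r : ℕ} (A : Mt (r + 1)) : ℝ≥0∞ := wt (mir r).subtype A

theorem measurable_wG {r : ℕ} : Measurable (wG : Mt r → ℝ≥0∞) := measurable_wt _

theorem measurable_wP {r : ℕ} : Measurable (wP : Mt (r + 1) → ℝ≥0∞) := measurable_wt _

theorem tsum_wG {r : ℕ} (A : Mt r) (hA : (Matrix.of A).det ≠ 0) :
    ∑' γ : SLZ r, wG (lm (toR γ) A) = 1 :=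
  tsum_wt (φ := MonoidHom.id (SLZ r)) (fun _ _ h => h) A hA

theorem tsum_wP {r : ℕ} (A : Mt (r + 1)) (hA : (Matrix.of A).det ≠ 0) :
    ∑' η : mir r, wP (lm (toR (η : SLZ (r + 1))) A) = 1 :=
  tsum_wt (φ := (mir r).subtype) (mir r).subtype_injective A hA

/-- the mirabolic group is `SL_r(ℤ) ⋉ ℤ^r` -/
noncomputable def mirEquiv (r : ℕ) : SLZ r × (Fin r → ℤ) ≃ mir r :=
  Equiv.ofBijective (fun q => ⟨par q.1 q.2, lrow_par q.1 q.2⟩) ⟨fun q q' h =>
    par_injective (congrArg Subtype.val h), fun η => by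
      obtain ⟨γ, c, h⟩ := exists_par η.1 η.2
      exact ⟨(γ, c), Subtype.ext h.symm⟩⟩

theorem tsum_wP' {r : ℕ} (A : Mt (r + 1)) (hA : (Matrix.of A).det ≠ 0) :
    ∑' q : SLZ r × (Fin r → ℤ), wP (lm (toR (par q.1 q.2)) A) = 1 := by
  rw [← tsum_wP A hA, ← (mirEquiv r).tsum_eq]
  rfl

/-- sums over the fibres of the last row -/
theorem tsum_fiber {r : ℕ} (A : Mt (r + 1)) (hA : (Matrix.of A).det ≠ 0)
    (v : Fin (r + 1) → ℤ) (δ₀ : SLZ (r + 1)) (h : lrow δ₀ = v) :
    ∑' δ : {δ : SLZ (r + 1) // lrow δ = v}, wP (lm (toR (δ : SLZ (r + 1))) A) = 1 := by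
  have hA' : (Matrix.of (lm (toR δ₀) A)).det ≠ 0 := by
    rw [det_of_lm _ (det_toR _)]; exact hA
  rw [← tsum_wP' (lm (toR δ₀) A) hA']
  let e : SLZ r × (Fin r → ℤ) ≃ {δ : SLZ (r + 1) // lrow δ = v} :=
    Equiv.ofBijective (fun q => ⟨par q.1 q.2 * δ₀, by rw [lrow_par_mul, h]⟩) ⟨fun q q' hq => by
      have h1 := congrArg Subtype.val hq
      exact par_injective (mul_right_cancel h1), fun δ => by
        obtain ⟨γ, c, h2⟩ := exists_par_mul (δ.2.trans h.symm)
        exact ⟨(γ, c), Subtype.ext h2.symm⟩⟩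
  rw [← e.tsum_eq]
  congr 1
  funext q
  rw [lm_lm, ← toR_mul]
  rfl

theorem tsum_wP_le {r : ℕ} (A : Mt (r + 1)) (hA : (Matrix.of A).det ≠ 0)
    (g : (Fin (r + 1) → ℤ) → ℝ≥0∞) :
    ∑' δ : SLZ (r + 1), wP (lm (toR δ) A) * g (lrow δ) ≤ ∑' v, g v := by
  rw [← (Equiv.sigmaFiberEquiv (lrow : SLZ (r + 1) → _)).tsum_eq, ENNReal.tsum_sigma']
  apply ENNReal.tsum_le_tsum
  intro v
  by_cases hv : ∃ δ₀ : SLZ (r + 1), lrow δ₀ = v
  · obtain ⟨δ₀, h⟩ := hv
    have h1 : ∀ δ : {δ : SLZ (r + 1) // lrow δ = v},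
        wP (lm (toR (Equiv.sigmaFiberEquiv (lrow : SLZ (r + 1) → _) ⟨v, δ⟩)) A) *
          g (lrow (Equiv.sigmaFiberEquiv (lrow : SLZ (r + 1) → _) ⟨v, δ⟩)) =
        wP (lm (toR (δ : SLZ (r + 1))) A) * g v := by
      intro δ
      have : lrow (Equiv.sigmaFiberEquiv (lrow : SLZ (r + 1) → _) ⟨v, δ⟩) = v := δ.2
      rw [this]
      rfl
    simp only [h1]
    rw [ENNReal.tsum_mul_right, tsum_fiber A hA v δ₀ h, one_mul]
  · have : IsEmpty {δ : SLZ (r + 1) // lrow δ = v} := ⟨fun δ => hv ⟨δ.1, δ.2⟩⟩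
    rw [tsum_empty]
    exact bot_le

/-- the matrices of determinant between `1` and `2` -/
def Xs (r : ℕ) : Set (Mt r) := {A | 1 ≤ |(Matrix.of A).det| ∧ |(Matrix.of A).det| ≤ 2}

theorem Xs_det_ne {r : ℕ} {A : Mt r} (h : A ∈ Xs r) : (Matrix.of A).det ≠ 0 := by
  intro h0
  have := h.1
  rw [h0, abs_zero] at this
  linarith

theorem measurableSet_Xs (r : ℕ) : MeasurableSet (Xs r) := by
  have h := (measurable_det r).abs
  exact (measurableSet_le measurable_const h).inter (measurableSet_le h measurable_const)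

theorem mp_lm_Xs {r : ℕ} (γ : SLZ r) :
    MeasurePreserving (lm (toR γ)) (volume.restrict (Xs r)) (volume.restrict (Xs r)) := by
  have h := (mp_lm (toR γ) (det_toR γ)).restrict_preimage (measurableSet_Xs r)
  have h2 : lm (toR γ) ⁻¹' (Xs r) = Xs r := by
    ext A
    simp only [Set.mem_preimage, Xs, Set.mem_ofPred_eq, det_of_lm _ (det_toR γ)]
  rwa [h2] at h

theorem ae_Xs (r : ℕ) : ∀ᵐ A ∂(volume.restrict (Xs r)), A ∈ Xs r :=
  ae_restrict_mem (measurableSet_Xs r)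

/-- unfolding over `SL_r(ℤ)` -/
theorem unfold_SL {r : ℕ} (K : Mt r → ℝ≥0∞) (hK : Measurable K) :
    ∫⁻ A in Xs r, wG A * ∑' γ : SLZ r, K (lm (toR γ) A) = ∫⁻ A in Xs r, K A := by
  refine unfold_abs (fun γ : SLZ r => lm (toR γ)) mp_lm_Xs (Equiv.inv _) ?_ wG K
    measurable_wG hK ?_
  · intro γ A
    show lm (toR γ) (lm (toR γ⁻¹) A) = A
    rw [lm_lm, toR_mul_inv, lm_one]
  · filter_upwards [ae_Xs r] with A hA
    exact tsum_wG A (Xs_det_ne hA)

end Pool.Agent.RS
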